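import Pool.Agent.K3h69.OM.Jord

/-!
# The action homomorphisms
-/

namespace K3h69.OM

open Matrix

set_option linter.unusedSectionVars false
set_option maxHeartbeats 400000

variable {K : Type*} [Field K] {n : ℕ}

/-- The norm form. -/
def Oct.nrm (x : Oct K) : K :=
  x 0 ^ 2 + x 1 ^ 2 + x 2 ^ 2 + x 3 ^ 2 - x 4 ^ 2 - x 5 ^ 2 - x 6 ^ 2 - x 7 ^ 2

theorem Oct.sq_eq (x : Oct K) : x * x = (2 * x 0) • x - Oct.C (Oct.nrm x) := by
  apply Oct.ext8 <;> simp [Oct.mul_def, Oct.C, Oct.nrm] <;> ring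

theorem Oct.conj_eq (x : Oct K) : Oct.conj x = Oct.C (2 * x 0) - x := by
  apply Oct.ext8 <;> simp [Oct.conj_def, Oct.C] <;> ring

theorem Oct.e_sq (i : Fin 8) : ∃ r : K, (Oct.e i : Oct K) * Oct.e i = Oct.C r := by
  fin_cases i
  · refine ⟨1, ?_⟩; apply Oct.ext8 <;> simp [Oct.e0, Oct.mul_def, Oct.C]
  · refine ⟨-1, ?_⟩; apply Oct.ext8 <;> simp [Oct.e1, Oct.mul_def, Oct.C]
  · refine ⟨-1, ?_⟩; apply Oct.ext8 <;> simp [Oct.e2, Oct.mul_def, Oct.C]
  · refine ⟨-1, ?_⟩; apply Oct.ext8 <;> simp [Oct.e3, Oct.mul_def, Oct.C]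
  · refine ⟨1, ?_⟩; apply Oct.ext8 <;> simp [Oct.e4, Oct.mul_def, Oct.C]
  · refine ⟨1, ?_⟩; apply Oct.ext8 <;> simp [Oct.e5, Oct.mul_def, Oct.C]
  · refine ⟨1, ?_⟩; apply Oct.ext8 <;> simp [Oct.e6, Oct.mul_def, Oct.C]
  · refine ⟨1, ?_⟩; apply Oct.ext8 <;> simp [Oct.e7, Oct.mul_def, Oct.C]

theorem Oct.e_apply_self (i : Fin 8) : (Oct.e i : Oct K) i = 1 := by simp [Oct.e]
theorem Oct.e_apply_ne {i j : Fin 8} (h : j ≠ i) : (Oct.e i : Oct K) j = 0 := by simp [Oct.e, h]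

theorem g_re_e (h2 : (2 : K) ≠ 0) {g : Oct K ≃ₗ[K] Oct K} (hg : g ∈ G2 K) {i : Fin 8}
    (hi : i ≠ 0) : g (Oct.e i) 0 = 0 := by
  obtain ⟨r, hr⟩ := Oct.e_sq (K := K) i
  set y := g (Oct.e i) with hy
  have h1 : y * y = Oct.C r := by
    rw [hy]
    have := hg (Oct.e i) (Oct.e i)
    simp only at this
    rw [← this, hr, g_C hg]
  rw [Oct.sq_eq] at h1
  by_contra h0
  have hz : ∀ j : Fin 8, j ≠ 0 → y j = 0 := by
    intro j hj
    have h2' := congrFun h1 j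
    have hC : ∀ s : K, (Oct.C s : Oct K) j = 0 := by
      intro s
      rw [Oct.C_eq_smul]
      have : (1 : Oct K) = Oct.e 0 := by
        apply Oct.ext8 <;> simp [Oct.e0, Oct.one_def]
      rw [this]; simp [Oct.e_apply_ne hj]
    have h3 : (2 * y 0) * y j = 0 := by
      have : ((2 * y 0) • y - Oct.C (Oct.nrm y) : Oct K) j = 2 * y 0 * y j := by
        simp [hC]
      rw [← this, h2', hC]
    rcases mul_eq_zero.1 h3 with h4 | h4
    · exact absurd h4 (mul_ne_zero h2 h0)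
    · exact h4
  have hyC : y = Oct.C (y 0) := by
    apply Oct.ext8 <;> simp [Oct.C, hz]
  have : Oct.e i = Oct.C (y 0) := by
    apply g.injective
    rw [g_C hg, ← hyC]
  have h5 := congrFun this i
  rw [Oct.e_apply_self, Oct.C_eq_smul] at h5
  have h6 : (1 : Oct K) = Oct.e 0 := by
    apply Oct.ext8 <;> simp [Oct.e0, Oct.one_def]
  rw [h6] at h5
  simp [Oct.e_apply_ne hi] at h5

theorem g_re (h2 : (2 : K) ≠ 0) {g : Oct K ≃ₗ[K] Oct K} (hg : g ∈ G2 K) (x : Oct K) :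
    g x 0 = x 0 := by
  conv_lhs => rw [Oct.eq_sum x]
  rw [map_sum]
  have h : ∀ y : Fin 8 → Oct K, (∑ i, y i) 0 = ∑ i, y i 0 := by
    intro y
    simp [Fin.sum_univ_succ]
  rw [h]
  rw [Finset.sum_eq_single (0 : Fin 8)]
  · have : (Oct.e 0 : Oct K) = 1 := by
      apply Oct.ext8 <;> simp [Oct.e0, Oct.one_def]
    rw [map_smul, this, g_one hg]
    simp [Oct.one_def]
  · intro i _ hi
    rw [map_smul]
    simp [g_re_e h2 hg hi]
  · intro h; exact absurd (Finset.mem_univ _) h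

theorem g_conj (h2 : (2 : K) ≠ 0) {g : Oct K ≃ₗ[K] Oct K} (hg : g ∈ G2 K) (x : Oct K) :
    Oct.conj (g x) = g (Oct.conj x) := by
  rw [Oct.conj_eq, Oct.conj_eq, map_sub, g_C hg, g_re h2 hg]

theorem J_act (h2 : (2 : K) ≠ 0) {g : Oct K ≃ₗ[K] Oct K} (hg : g ∈ G2 K) {A : GL (Fin n) K}
    (hA : A ∈ GO n K) (X : OMat n K) : J (act g A X) = act g A (J X) := by
  obtain ⟨c, hc⟩ := mem_GO.1 hA
  have hAA : (A : Matrix (Fin n) (Fin n) K) * (A⁻¹ : GL (Fin n) K) = 1 := by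
    rw [← Units.val_mul]; simp
  set B : Matrix (Fin n) (Fin n) K := ((A⁻¹ : GL (Fin n) K) : Matrix (Fin n) (Fin n) K) with hB
  have h1 : (A : Matrix (Fin n) (Fin n) K)ᵀ = c • B := by
    calc (A : Matrix (Fin n) (Fin n) K)ᵀ
        = (A : Matrix (Fin n) (Fin n) K)ᵀ * ((A : Matrix (Fin n) (Fin n) K) * B) := by
          rw [hAA, mul_one]
      _ = c • B := by rw [← Matrix.mul_assoc, hc]; simp
  have h3 : (A : Matrix (Fin n) (Fin n) K) = c • Bᵀ := by
    calc (A : Matrix (Fin n) (Fin n) K) = ((A : Matrix (Fin n) (Fin n) K)ᵀ)ᵀ := by simp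
      _ = c • Bᵀ := by rw [h1]; simp
  have hJ : J (X.map g) = (J X).map g := by
    ext1 i j; simp [J_apply, g_conj h2 hg]
  unfold act
  rw [J_mul, J_mul, J_R, J_R, hJ, ← hB, h1]
  set Y := (J X).map g
  rw [R_smul, Matrix.mul_smul, Matrix.mul_smul]
  conv_rhs => rw [h3, R_smul, Matrix.smul_mul, Matrix.smul_mul]
  rw [mul_mul_R]

theorem act_memM (h2 : (2 : K) ≠ 0) {g : Oct K ≃ₗ[K] Oct K} (hg : g ∈ G2 K) {A : GL (Fin n) K}
    (hA : A ∈ GO n K) {X : OMat n K} (hX : X ∈ SymM n K) : act g A X ∈ SymM n K := by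
  rw [mem_SymM, J_act h2 hg hA, mem_SymM.1 hX]
  have := act_smul g A (-1 : K) X
  simpa using this

theorem act_memP (h2 : (2 : K) ≠ 0) {g : Oct K ≃ₗ[K] Oct K} (hg : g ∈ G2 K) {A : GL (Fin n) K}
    (hA : A ∈ GO n K) {X : OMat n K} (hX : X ∈ SymP n K) : act g A X ∈ SymP n K := by
  rw [mem_SymP, J_act h2 hg hA, mem_SymP.1 hX]

theorem act_inv_act (g : G2 K) (A : GO n K) (X : OMat n K) :
    act (g : Oct K ≃ₗ[K] Oct K)⁻¹ (A : GL (Fin n) K)⁻¹
      (act (g : Oct K ≃ₗ[K] Oct K) (A : GL (Fin n) K) X) = X := by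
  rw [act_act _ _ ((AutAlg K _).inv_mem g.2), inv_mul_cancel, inv_mul_cancel, act_one_one]

theorem act_act_inv (g : G2 K) (A : GO n K) (X : OMat n K) :
    act (g : Oct K ≃ₗ[K] Oct K) (A : GL (Fin n) K)
      (act (g : Oct K ≃ₗ[K] Oct K)⁻¹ (A : GL (Fin n) K)⁻¹ X) = X := by
  rw [act_act _ _ g.2, mul_inv_cancel, mul_inv_cancel, act_one_one]

/-- The action of `(g, A)` on skew-Hermitian matrices. -/
def actM (h2 : (2 : K) ≠ 0) (g : G2 K) (A : GO n K) : SymM n K ≃ₗ[K] SymM n K where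
  toFun X := ⟨act (g : Oct K ≃ₗ[K] Oct K) (A : GL (Fin n) K) X, act_memM h2 g.2 A.2 X.2⟩
  map_add' X Y := by ext1; exact act_add _ _ _ _
  map_smul' c X := by ext1; exact act_smul _ _ _ _
  invFun X := ⟨act (g : Oct K ≃ₗ[K] Oct K)⁻¹ (A : GL (Fin n) K)⁻¹ X,
    act_memM h2 ((AutAlg K _).inv_mem g.2) ((GO n K).inv_mem A.2) X.2⟩
  left_inv X := Subtype.ext (act_inv_act g A X)
  right_inv X := Subtype.ext (act_act_inv g A X)

theorem actM_coe (h2 : (2 : K) ≠ 0) (g : G2 K) (A : GO n K) (X : SymM n K) :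
    (actM h2 g A X : OMat n K) = act (g : Oct K ≃ₗ[K] Oct K) (A : GL (Fin n) K) X := rfl

/-- The action of `(g, A)` on Hermitian matrices. -/
def actP (h2 : (2 : K) ≠ 0) (g : G2 K) (A : GO n K) : SymP n K ≃ₗ[K] SymP n K where
  toFun X := ⟨act (g : Oct K ≃ₗ[K] Oct K) (A : GL (Fin n) K) X, act_memP h2 g.2 A.2 X.2⟩
  map_add' X Y := by ext1; exact act_add _ _ _ _
  map_smul' c X := by ext1; exact act_smul _ _ _ _
  invFun X := ⟨act (g : Oct K ≃ₗ[K] Oct K)⁻¹ (A : GL (Fin n) K)⁻¹ X,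
    act_memP h2 ((AutAlg K _).inv_mem g.2) ((GO n K).inv_mem A.2) X.2⟩
  left_inv X := Subtype.ext (act_inv_act g A X)
  right_inv X := Subtype.ext (act_act_inv g A X)

theorem actP_coe (h2 : (2 : K) ≠ 0) (g : G2 K) (A : GO n K) (X : SymP n K) :
    (actP h2 g A X : OMat n K) = act (g : Oct K ≃ₗ[K] Oct K) (A : GL (Fin n) K) X := rfl

theorem actM_mem (h2 : (2 : K) ≠ 0) (g : G2 K) (A : GO n K) : actM h2 g A ∈ AutM n K := by
  rw [mem_AutAlg]
  intro X Y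
  apply Subtype.ext
  rw [actM_coe, lmul_coe, lmul_coe, act_sub, act_mul g.2, act_mul g.2, actM_coe, actM_coe]

theorem actP_mem (h2 : (2 : K) ≠ 0) (g : G2 K) (A : GO n K) : actP h2 g A ∈ AutP n K := by
  rw [mem_AutAlg]
  intro X Y
  apply Subtype.ext
  rw [actP_coe, jmul_coe, jmul_coe, act_smul, act_add, act_mul g.2, act_mul g.2, actP_coe,
    actP_coe]

/-- The homomorphism `G₂ × GO(n) → Aut(Sym⁻)`. -/
def homM (h2 : (2 : K) ≠ 0) (n : ℕ) : G2 K × GO n K →* AutM n K where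
  toFun p := ⟨actM h2 p.1 p.2, actM_mem h2 p.1 p.2⟩
  map_one' := by
    apply Subtype.ext
    apply LinearEquiv.ext
    intro X
    apply Subtype.ext
    exact act_one_one _
  map_mul' p q := by
    apply Subtype.ext
    apply LinearEquiv.ext
    intro X
    apply Subtype.ext
    exact (act_act _ _ p.1.2 _ _ _).symm

/-- The homomorphism `G₂ × GO(n) → Aut(Sym⁺)`. -/
def homP (h2 : (2 : K) ≠ 0) (n : ℕ) : G2 K × GO n K →* AutP n K where
  toFun p := ⟨actP h2 p.1 p.2, actP_mem h2 p.1 p.2⟩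
  map_one' := by
    apply Subtype.ext
    apply LinearEquiv.ext
    intro X
    apply Subtype.ext
    exact act_one_one _
  map_mul' p q := by
    apply Subtype.ext
    apply LinearEquiv.ext
    intro X
    apply Subtype.ext
    exact (act_act _ _ p.1.2 _ _ _).symm

/-- A surjective homomorphism `G × H → P` with kernel `1 × N` gives `P ≅ G × H/N`. -/
theorem iso_of {G H P : Type*} [Group G] [Group H] [Group P] (N : Subgroup H) [N.Normal]
    (h : G × H →* P) (hs : Function.Surjective h)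
    (hk : ∀ g a, h (g, a) = 1 ↔ g = 1 ∧ a ∈ N) : Nonempty (P ≃* G × (H ⧸ N)) := by
  let q : G × H →* G × (H ⧸ N) := MonoidHom.prodMap (MonoidHom.id G) (QuotientGroup.mk' N)
  have hq : Function.Surjective q := by
    rintro ⟨g, a⟩
    obtain ⟨b, rfl⟩ := QuotientGroup.mk'_surjective N a
    exact ⟨(g, b), rfl⟩
  have hker : h.ker = q.ker := by
    ext ⟨g, a⟩
    rw [MonoidHom.mem_ker, MonoidHom.mem_ker, hk]
    simp only [q, MonoidHom.prodMap, MonoidHom.prod_apply, MonoidHom.comp_apply,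
      MonoidHom.coe_fst, MonoidHom.coe_snd, MonoidHom.id_apply, Prod.mk_eq_one]
    rw [QuotientGroup.mk'_apply, QuotientGroup.eq_one_iff]
  exact ⟨(QuotientGroup.quotientKerEquivOfSurjective h hs).symm.trans
    ((QuotientGroup.quotientMulEquivOfEq hker).trans
      (QuotientGroup.quotientKerEquivOfSurjective q hq))⟩

end K3h69.OM
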