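import Pool.Agent.K3h69.OM.Plus

/-!
# The centre of `G₂`
-/

namespace K3h69.OM

open Matrix

set_option linter.unusedSectionVars false
set_option maxHeartbeats 1000000

variable {K : Type*} [Field K] {n : ℕ}

/-- sign change along the first bit -/
def sgA : Oct K ≃ₗ[K] Oct K where
  toFun x := Oct.mk (x 0) (-x 1) (x 2) (-x 3) (x 4) (-x 5) (x 6) (-x 7)
  invFun x := Oct.mk (x 0) (-x 1) (x 2) (-x 3) (x 4) (-x 5) (x 6) (-x 7)
  map_add' x y := by apply Oct.ext8 <;> simp <;> ring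
  map_smul' c x := by apply Oct.ext8 <;> simp
  left_inv x := by apply Oct.ext8 <;> simp
  right_inv x := by apply Oct.ext8 <;> simp

/-- sign change along the second bit -/
def sgB : Oct K ≃ₗ[K] Oct K where
  toFun x := Oct.mk (x 0) (x 1) (-x 2) (-x 3) (x 4) (x 5) (-x 6) (-x 7)
  invFun x := Oct.mk (x 0) (x 1) (-x 2) (-x 3) (x 4) (x 5) (-x 6) (-x 7)
  map_add' x y := by apply Oct.ext8 <;> simp <;> ring
  map_smul' c x := by apply Oct.ext8 <;> simp
  left_inv x := by apply Oct.ext8 <;> simp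
  right_inv x := by apply Oct.ext8 <;> simp

/-- sign change along the third bit -/
def sgC : Oct K ≃ₗ[K] Oct K where
  toFun x := Oct.mk (x 0) (x 1) (x 2) (x 3) (-x 4) (-x 5) (-x 6) (-x 7)
  invFun x := Oct.mk (x 0) (x 1) (x 2) (x 3) (-x 4) (-x 5) (-x 6) (-x 7)
  map_add' x y := by apply Oct.ext8 <;> simp <;> ring
  map_smul' c x := by apply Oct.ext8 <;> simp
  left_inv x := by apply Oct.ext8 <;> simp
  right_inv x := by apply Oct.ext8 <;> simp

/-- cyclic permutation -/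
def cyc : Oct K ≃ₗ[K] Oct K where
  toFun x := Oct.mk (x 0) (x 3) (x 1) (x 2) (x 4) (x 7) (x 5) (x 6)
  invFun x := Oct.mk (x 0) (x 2) (x 3) (x 1) (x 4) (x 6) (x 7) (x 5)
  map_add' x y := by apply Oct.ext8 <;> simp
  map_smul' c x := by apply Oct.ext8 <;> simp
  left_inv x := by apply Oct.ext8 <;> simp
  right_inv x := by apply Oct.ext8 <;> simp

/-- hyperbolic rotation -/
def hyp (h2 : (2 : K) ≠ 0) : Oct K ≃ₗ[K] Oct K where
  toFun x := Oct.mk (x 0) (x 1) ((5 * x 2 + 3 * x 4) / 4) ((5 * x 3 + 3 * x 5) / 4)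
    ((3 * x 2 + 5 * x 4) / 4) ((3 * x 3 + 5 * x 5) / 4) (x 6) (x 7)
  invFun x := Oct.mk (x 0) (x 1) ((5 * x 2 - 3 * x 4) / 4) ((5 * x 3 - 3 * x 5) / 4)
    ((-3 * x 2 + 5 * x 4) / 4) ((-3 * x 3 + 5 * x 5) / 4) (x 6) (x 7)
  map_add' x y := by apply Oct.ext8 <;> simp <;> ring
  map_smul' c x := by apply Oct.ext8 <;> simp <;> ring
  left_inv x := by
    have h4 : (4 : K) ≠ 0 := by
      have : (4 : K) = 2 * 2 := by norm_num
      rw [this]; exact mul_ne_zero h2 h2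
    apply Oct.ext8 <;> simp <;> field_simp <;> ring
  right_inv x := by
    have h4 : (4 : K) ≠ 0 := by
      have : (4 : K) = 2 * 2 := by norm_num
      rw [this]; exact mul_ne_zero h2 h2
    apply Oct.ext8 <;> simp <;> field_simp <;> ring

theorem sgA_mem : (sgA : Oct K ≃ₗ[K] Oct K) ∈ G2 K := by
  rw [mem_AutAlg]
  intro x y
  apply Oct.ext8 <;> simp [sgA, Oct.mul_def] <;> ring

theorem sgB_mem : (sgB : Oct K ≃ₗ[K] Oct K) ∈ G2 K := by
  rw [mem_AutAlg]
  intro x y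
  apply Oct.ext8 <;> simp [sgB, Oct.mul_def] <;> ring

theorem sgC_mem : (sgC : Oct K ≃ₗ[K] Oct K) ∈ G2 K := by
  rw [mem_AutAlg]
  intro x y
  apply Oct.ext8 <;> simp [sgC, Oct.mul_def] <;> ring

theorem cyc_mem : (cyc : Oct K ≃ₗ[K] Oct K) ∈ G2 K := by
  rw [mem_AutAlg]
  intro x y
  apply Oct.ext8 <;> simp [cyc, Oct.mul_def] <;> ring

theorem hyp_mem (h2 : (2 : K) ≠ 0) : (hyp h2 : Oct K ≃ₗ[K] Oct K) ∈ G2 K := by
  have h4 : (4 : K) ≠ 0 := by
    have : (4 : K) = 2 * 2 := by norm_num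
    rw [this]; exact mul_ne_zero h2 h2
  rw [mem_AutAlg]
  intro x y
  apply Oct.ext8 <;> simp [hyp, Oct.mul_def] <;> field_simp <;> ring

theorem sgA_apply (x : Oct K) : sgA x = Oct.mk (x 0) (-x 1) (x 2) (-x 3) (x 4) (-x 5) (x 6) (-x 7) :=
  rfl
theorem sgB_apply (x : Oct K) : sgB x = Oct.mk (x 0) (x 1) (-x 2) (-x 3) (x 4) (x 5) (-x 6) (-x 7) :=
  rfl
theorem sgC_apply (x : Oct K) : sgC x = Oct.mk (x 0) (x 1) (x 2) (x 3) (-x 4) (-x 5) (-x 6) (-x 7) :=
  rfl
theorem cyc_apply (x : Oct K) : cyc x = Oct.mk (x 0) (x 3) (x 1) (x 2) (x 4) (x 7) (x 5) (x 6) :=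
  rfl
theorem hyp_apply (h2 : (2 : K) ≠ 0) (x : Oct K) : hyp h2 x =
    Oct.mk (x 0) (x 1) ((5 * x 2 + 3 * x 4) / 4) ((5 * x 3 + 3 * x 5) / 4)
    ((3 * x 2 + 5 * x 4) / 4) ((3 * x 3 + 5 * x 5) / 4) (x 6) (x 7) := rfl

/-- `G₂(K)` has trivial centre. -/
theorem center_G2 (h2 : (2 : K) ≠ 0) (h3 : (3 : K) ≠ 0) (z : G2 K)
    (hz : ∀ g : G2 K, g * z = z * g) : z = 1 := by
  have hc : ∀ g ∈ G2 K, ∀ x : Oct K, g ((z : Oct K ≃ₗ[K] Oct K) x) =
      (z : Oct K ≃ₗ[K] Oct K) (g x) := by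
    intro g hg x
    have := congrArg (fun f : G2 K => (f : Oct K ≃ₗ[K] Oct K) x) (hz ⟨g, hg⟩)
    exact this
  set f := (z : Oct K ≃ₗ[K] Oct K) with hf
  have hzz : ∀ x y : Oct K, f (x * y) = f x * f y := z.2
  have key : ∀ a : K, -a = a → a = 0 := by
    intro a ha
    have : 2 * a = 0 := by linear_combination -ha
    exact (mul_eq_zero.1 this).resolve_left h2
  have key' : ∀ a : K, a = -a → a = 0 := fun a ha => key a ha.symm
  -- `f` is diagonal
  have hneg : ∀ x : Oct K, f (-x) = - f x := fun x => map_neg f x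
  have d1 : f (Oct.e 1) = (f (Oct.e 1) 1) • Oct.e 1 := by
    have a := hc _ sgA_mem (Oct.e 1)
    have b := hc _ sgB_mem (Oct.e 1)
    have c := hc _ sgC_mem (Oct.e 1)
    have a' : sgA (Oct.e 1 : Oct K) = -Oct.e 1 := by rw [sgA_apply]; apply Oct.ext8 <;> simp [Oct.e1]
    have b' : sgB (Oct.e 1 : Oct K) = Oct.e 1 := by rw [sgB_apply]; apply Oct.ext8 <;> simp [Oct.e1]
    have c' : sgC (Oct.e 1 : Oct K) = Oct.e 1 := by rw [sgC_apply]; apply Oct.ext8 <;> simp [Oct.e1]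
    rw [a', hneg, sgA_apply] at a
    rw [b', sgB_apply] at b
    rw [c', sgC_apply] at c
    set y := f (Oct.e 1)
    have y0 : y 0 = 0 := key' _ (congrFun a 0)
    have y2 := key _ (congrFun b 2)
    have y3 := key _ (congrFun b 3)
    have y4 := key _ (congrFun c 4)
    have y5 := key _ (congrFun c 5)
    have y6 := key _ (congrFun c 6)
    have y7 := key _ (congrFun c 7)
    apply Oct.ext8 <;> simp [Oct.e1, *]
  have d2 : f (Oct.e 2) = (f (Oct.e 2) 2) • Oct.e 2 := by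
    have a := hc _ sgA_mem (Oct.e 2)
    have b := hc _ sgB_mem (Oct.e 2)
    have c := hc _ sgC_mem (Oct.e 2)
    have a' : sgA (Oct.e 2 : Oct K) = Oct.e 2 := by rw [sgA_apply]; apply Oct.ext8 <;> simp [Oct.e2]
    have b' : sgB (Oct.e 2 : Oct K) = -Oct.e 2 := by rw [sgB_apply]; apply Oct.ext8 <;> simp [Oct.e2]
    have c' : sgC (Oct.e 2 : Oct K) = Oct.e 2 := by rw [sgC_apply]; apply Oct.ext8 <;> simp [Oct.e2]
    rw [a', sgA_apply] at a
    rw [b', hneg, sgB_apply] at b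
    rw [c', sgC_apply] at c
    set y := f (Oct.e 2)
    have y0 : y 0 = 0 := key' _ (congrFun b 0)
    have y1 := key _ (congrFun a 1)
    have y3 := key _ (congrFun a 3)
    have y4 := key _ (congrFun c 4)
    have y5 := key _ (congrFun c 5)
    have y6 := key _ (congrFun c 6)
    have y7 := key _ (congrFun c 7)
    apply Oct.ext8 <;> simp [Oct.e2, *]
  have d4 : f (Oct.e 4) = (f (Oct.e 4) 4) • Oct.e 4 := by
    have a := hc _ sgA_mem (Oct.e 4)
    have b := hc _ sgB_mem (Oct.e 4)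
    have c := hc _ sgC_mem (Oct.e 4)
    have a' : sgA (Oct.e 4 : Oct K) = Oct.e 4 := by rw [sgA_apply]; apply Oct.ext8 <;> simp [Oct.e4]
    have b' : sgB (Oct.e 4 : Oct K) = Oct.e 4 := by rw [sgB_apply]; apply Oct.ext8 <;> simp [Oct.e4]
    have c' : sgC (Oct.e 4 : Oct K) = -Oct.e 4 := by rw [sgC_apply]; apply Oct.ext8 <;> simp [Oct.e4]
    rw [a', sgA_apply] at a
    rw [b', sgB_apply] at b
    rw [c', hneg, sgC_apply] at c
    set y := f (Oct.e 4)
    have y0 : y 0 = 0 := key' _ (congrFun c 0)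
    have y1 := key _ (congrFun a 1)
    have y2 := key _ (congrFun b 2)
    have y3 := key _ (congrFun a 3)
    have y5 := key _ (congrFun a 5)
    have y6 := key _ (congrFun b 6)
    have y7 := key _ (congrFun a 7)
    apply Oct.ext8 <;> simp [Oct.e4, *]
  set p := f (Oct.e 1) 1 with hp
  set q := f (Oct.e 2) 2 with hq
  set r := f (Oct.e 4) 4 with hr
  have e12 : (Oct.e 1 * Oct.e 2 : Oct K) = Oct.e 3 := by
    apply Oct.ext8 <;> simp [Oct.e1, Oct.e2, Oct.e3, Oct.mul_def]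
  have e14 : (Oct.e 1 * Oct.e 4 : Oct K) = Oct.e 5 := by
    apply Oct.ext8 <;> simp [Oct.e1, Oct.e4, Oct.e5, Oct.mul_def]
  have e24 : (Oct.e 2 * Oct.e 4 : Oct K) = Oct.e 6 := by
    apply Oct.ext8 <;> simp [Oct.e2, Oct.e4, Oct.e6, Oct.mul_def]
  have e34 : (Oct.e 3 * Oct.e 4 : Oct K) = Oct.e 7 := by
    apply Oct.ext8 <;> simp [Oct.e3, Oct.e4, Oct.e7, Oct.mul_def]
  have d3 : f (Oct.e 3) = (p * q) • Oct.e 3 := by
    rw [← e12, hzz, d1, d2, smul_mul_smul_comm]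
  -- `p = q` and `q = p q`
  have c1 : p = q := by
    have a := hc _ cyc_mem (Oct.e 1)
    have a' : cyc (Oct.e 1 : Oct K) = Oct.e 2 := by rw [cyc_apply]; apply Oct.ext8 <;> simp [Oct.e1, Oct.e2]
    rw [d1, map_smul, a', d2] at a
    have := congrFun a 2
    simpa [Oct.e2] using this
  have c2 : q = p * q := by
    have a := hc _ cyc_mem (Oct.e 2)
    have a' : cyc (Oct.e 2 : Oct K) = Oct.e 3 := by rw [cyc_apply]; apply Oct.ext8 <;> simp [Oct.e2, Oct.e3]
    rw [d2, map_smul, a', d3] at a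
    have := congrFun a 3
    simpa [Oct.e3] using this
  have hq0 : q ≠ 0 := by
    intro h
    rw [h, zero_smul] at d2
    have : (Oct.e 2 : Oct K) = 0 := by
      apply f.injective; rw [d2, map_zero]
    have := congrFun this 2
    simp [Oct.e2] at this
  have hp1 : p = 1 := by
    have : (p - 1) * q = 0 := by linear_combination -c2
    rcases mul_eq_zero.1 this with h | h
    · exact sub_eq_zero.1 h
    · exact absurd h hq0
  have hq1 : q = 1 := by rw [← c1, hp1]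
  have hr1 : r = 1 := by
    have a := hc _ (hyp_mem h2) (Oct.e 2)
    rw [d2, hq1, one_smul] at a
    have e : hyp h2 (Oct.e 2 : Oct K) = (5 / 4 : K) • Oct.e 2 + (3 / 4 : K) • Oct.e 4 := by
      rw [hyp_apply]; apply Oct.ext8 <;> simp [Oct.e2, Oct.e4]
    rw [e, map_add, map_smul, map_smul, d2, d4, hq1, one_smul] at a
    have b := congrFun a 4
    have h4 : (4 : K) ≠ 0 := by
      have : (4 : K) = 2 * 2 := by norm_num
      rw [this]; exact mul_ne_zero h2 h2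
    simp [Oct.e2, Oct.e4] at b
    have h34 : (3 / 4 : K) ≠ 0 := div_ne_zero h3 h4
    have : (3 / 4 : K) * (r - 1) = 0 := by linear_combination -b
    rcases mul_eq_zero.1 this with h | h
    · exact absurd h h34
    · exact sub_eq_zero.1 h
  rw [hp1, one_smul] at d1
  rw [hq1, one_smul] at d2
  rw [hr1, one_smul] at d4
  rw [hp1, hq1, one_mul, one_smul] at d3
  have d5 : f (Oct.e 5) = Oct.e 5 := by rw [← e14, hzz, d1, d4]
  have d6 : f (Oct.e 6) = Oct.e 6 := by rw [← e24, hzz, d2, d4]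
  have d7 : f (Oct.e 7) = Oct.e 7 := by rw [← e34, hzz, d3, d4]
  have d0 : f (Oct.e 0) = Oct.e 0 := by
    have : (Oct.e 0 : Oct K) = 1 := by
      apply Oct.ext8 <;> simp [Oct.e0, Oct.one_def]
    rw [this, g_one z.2]
  apply Subtype.ext
  apply LinearEquiv.ext
  intro x
  change f x = x
  have hde : ∀ i : Fin 8, f (Oct.e i) = Oct.e i := by
    intro i
    fin_cases i <;> assumption
  conv_lhs => rw [Oct.eq_sum x]
  rw [map_sum]
  conv_rhs => rw [Oct.eq_sum x]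
  apply Finset.sum_congr rfl
  intro i _
  rw [map_smul, hde]

theorem sgA_ne_one (h2 : (2 : K) ≠ 0) : (⟨sgA, sgA_mem⟩ : G2 K) ≠ 1 := by
  intro h
  have := congrArg (fun f : G2 K => (f : Oct K ≃ₗ[K] Oct K) (Oct.e 1) 1) h
  have e : (sgA (Oct.e 1 : Oct K)) 1 = (Oct.e 1 : Oct K) 1 := this
  rw [sgA_apply] at e
  simp [Oct.e1] at e
  have : (2 : K) = 0 := by linear_combination -e
  exact h2 this

end K3h69.OM
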