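import Mathlib

/-!
# The definitions used in the final statement
-/

open Matrix

namespace K3h69.OM

set_option linter.unusedSectionVars false

/-! ### Groups of matrices over `K` -/

section groups

variable {K : Type*} [Field K] {n : ℕ}

/-- The group of similitudes of the form `∑ xᵢ²`. -/
def GO (n : ℕ) (K : Type*) [Field K] : Subgroup (GL (Fin n) K) where
  carrier := {A | ∃ c : K, (A : Matrix (Fin n) (Fin n) K)ᵀ * A = c • 1}
  mul_mem' := by
    rintro A B ⟨c, hc⟩ ⟨d, hd⟩
    refine ⟨c * d, ?_⟩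
    rw [Units.val_mul, Matrix.transpose_mul]
    calc (B : Matrix (Fin n) (Fin n) K)ᵀ * (A : Matrix (Fin n) (Fin n) K)ᵀ * (A * B)
        = (B : Matrix (Fin n) (Fin n) K)ᵀ * ((A : Matrix (Fin n) (Fin n) K)ᵀ * A) * B := by
          simp only [Matrix.mul_assoc]
      _ = (c * d) • 1 := by
          rw [hc]; simp [hd, smul_smul]
  one_mem' := ⟨1, by simp⟩
  inv_mem' := by
    rintro A ⟨c, hc⟩
    have hA : (A : Matrix (Fin n) (Fin n) K) * (A⁻¹ : GL (Fin n) K) = 1 := by
      rw [← Units.val_mul]; simp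
    have hA' : ((A⁻¹ : GL (Fin n) K) : Matrix (Fin n) (Fin n) K) * A = 1 := by
      rw [← Units.val_mul]; simp
    set B : Matrix (Fin n) (Fin n) K := ((A⁻¹ : GL (Fin n) K) : Matrix (Fin n) (Fin n) K) with hB
    -- `Bᵀ Aᵀ A B = c Bᵀ B = 1`
    have h1 : c • (Bᵀ * B) = 1 := by
      have : Bᵀ * ((A : Matrix (Fin n) (Fin n) K)ᵀ * (A : Matrix (Fin n) (Fin n) K)) * B = 1 := by
        calc Bᵀ * ((A : Matrix (Fin n) (Fin n) K)ᵀ * (A : Matrix (Fin n) (Fin n) K)) * B
            = ((A : Matrix (Fin n) (Fin n) K) * B)ᵀ * ((A : Matrix (Fin n) (Fin n) K) * B) := by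
              rw [Matrix.transpose_mul]; simp only [Matrix.mul_assoc]
          _ = 1 := by rw [hA]; simp
      rw [hc] at this
      simpa using this
    rcases eq_or_ne c 0 with h0 | h0
    · rw [h0, zero_smul] at h1
      refine ⟨1, ?_⟩
      have hz : ∀ M : Matrix (Fin n) (Fin n) K, M = 0 := by
        intro M
        have : M * 1 = 0 := by rw [← h1]; simp
        simpa using this
      rw [hz (Bᵀ * B), hz (1 • 1)]
    · refine ⟨c⁻¹, ?_⟩
      rw [← h1, smul_smul, inv_mul_cancel₀ h0, one_smul]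

theorem mem_GO {A : GL (Fin n) K} :
    A ∈ GO n K ↔ ∃ c : K, (A : Matrix (Fin n) (Fin n) K)ᵀ * A = c • 1 := Iff.rfl

/-- The scalar matrices in `GO n K`. -/
def ScalarGO (n : ℕ) (K : Type*) [Field K] : Subgroup (GO n K) where
  carrier := {A | ∃ c : K, ((A : GL (Fin n) K) : Matrix (Fin n) (Fin n) K) = c • 1}
  mul_mem' := by
    rintro A B ⟨c, hc⟩ ⟨d, hd⟩
    exact ⟨d * c, by simp [hc, hd, smul_smul]⟩
  one_mem' := ⟨1, by simp⟩
  inv_mem' := by
    rintro A ⟨c, hc⟩
    have hA' : ((A⁻¹ : GL (Fin n) K) : Matrix (Fin n) (Fin n) K) *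
        ((A : GL (Fin n) K) : Matrix (Fin n) (Fin n) K) = 1 := by
      rw [← Units.val_mul]; simp
    rw [hc] at hA'
    have h1 : c • (((A⁻¹ : GL (Fin n) K) : Matrix (Fin n) (Fin n) K)) = 1 := by simpa using hA'
    rcases eq_or_ne c 0 with h0 | h0
    · rw [h0, zero_smul] at h1
      have hz : ∀ M : Matrix (Fin n) (Fin n) K, M = 0 := by
        intro M
        have : M * 1 = 0 := by rw [← h1]; simp
        simpa using this
      exact ⟨1, by rw [hz (1 • 1)]; exact hz _⟩
    · refine ⟨c⁻¹, ?_⟩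
      change ((A⁻¹ : GL (Fin n) K) : Matrix (Fin n) (Fin n) K) = c⁻¹ • 1
      rw [← h1, smul_smul, inv_mul_cancel₀ h0, one_smul]

instance : (ScalarGO n K).Normal where
  conj_mem := by
    rintro A ⟨c, hc⟩ g
    refine ⟨c, ?_⟩
    have : ((g * A * g⁻¹ : GO n K) : GL (Fin n) K) = g * A * (g : GL (Fin n) K)⁻¹ := rfl
    rw [this, Units.val_mul, Units.val_mul, hc]
    simp

/-- The projective group of similitudes. -/
abbrev PGO (n : ℕ) (K : Type*) [Field K] := GO n K ⧸ ScalarGO n K

/-- The special orthogonal group of the form `∑ xᵢ²`. -/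
def SO (n : ℕ) (K : Type*) [Field K] : Subgroup (GL (Fin n) K) where
  carrier := {A | (A : Matrix (Fin n) (Fin n) K)ᵀ * A = 1 ∧
    (A : Matrix (Fin n) (Fin n) K).det = 1}
  mul_mem' := by
    rintro A B ⟨hA, hA'⟩ ⟨hB, hB'⟩
    refine ⟨?_, by rw [Units.val_mul, Matrix.det_mul, hA', hB', one_mul]⟩
    rw [Units.val_mul, Matrix.transpose_mul]
    calc (B : Matrix (Fin n) (Fin n) K)ᵀ * (A : Matrix (Fin n) (Fin n) K)ᵀ * (A * B)
        = (B : Matrix (Fin n) (Fin n) K)ᵀ * ((A : Matrix (Fin n) (Fin n) K)ᵀ * A) * B := by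
          simp only [Matrix.mul_assoc]
      _ = 1 := by rw [hA, Matrix.mul_one, hB]
  one_mem' := ⟨by simp, by simp⟩
  inv_mem' := by
    rintro A ⟨hA, hA'⟩
    have hAA : (A : Matrix (Fin n) (Fin n) K) * ((A⁻¹ : GL (Fin n) K) : Matrix (Fin n) (Fin n) K) =
        1 := by
      rw [← Units.val_mul]; simp
    set B : Matrix (Fin n) (Fin n) K := ((A⁻¹ : GL (Fin n) K) : Matrix (Fin n) (Fin n) K) with hB
    have h1 : B = (A : Matrix (Fin n) (Fin n) K)ᵀ := by
      calc B = ((A : Matrix (Fin n) (Fin n) K)ᵀ * (A : Matrix (Fin n) (Fin n) K)) * B := by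
            rw [hA, one_mul]
        _ = (A : Matrix (Fin n) (Fin n) K)ᵀ := by rw [Matrix.mul_assoc, hAA, mul_one]
    refine ⟨?_, ?_⟩
    · change Bᵀ * B = 1
      have h3 : Bᵀ = (A : Matrix (Fin n) (Fin n) K) := by rw [h1, Matrix.transpose_transpose]
      rw [h3, hAA]
    · change B.det = 1
      rw [h1, Matrix.det_transpose, hA']

end groups

end K3h69.OM

namespace K3h69.OS

/-! ### Split octonions -/

/-- The space of the split octonion algebra over `K`: pairs of Hamilton quaternions over `K`. -/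
abbrev O (K : Type*) [Field K] := Quaternion K × Quaternion K

variable {K : Type*} [Field K] {n : ℕ}

/-- The product of split octonions: the Cayley–Dickson double, with parameter `+1`, of the
quaternions, `(a, b) (c, d) = (a c + d̄ b, d a + b c̄)`. -/
def omul (x y : O K) : O K := (x.1 * y.1 + star y.2 * x.2, y.2 * x.1 + x.2 * star y.1)

/-- The standard conjugation `(a, b) ↦ (ā, -b)` of the octonions. -/
def oconj (x : O K) : O K := (star x.1, -x.2)

/-- The norm form `N(a, b) = a ā - b b̄` of the octonions. -/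
def onorm (x : O K) : K := Quaternion.normSq x.1 - Quaternion.normSq x.2

/-! ### Matrices over the octonions -/

/-- `n × n` matrices over the octonions. -/
abbrev OM (n : ℕ) (K : Type*) [Field K] := Fin n → Fin n → O K

/-- The matrix product. -/
def mmul (X Y : OM n K) : OM n K := fun i j => ∑ k, omul (X i k) (Y k j)

/-- The involution `J`: transpose and conjugate every entry. -/
def mJ (X : OM n K) : OM n K := fun i j => oconj (X j i)

/-- The Hermitian matrices. -/
def Herm (n : ℕ) (K : Type*) [Field K] : Type _ := {X : OM n K // mJ X = X}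

/-- The skew-Hermitian matrices. -/
def Skew (n : ℕ) (K : Type*) [Field K] : Type _ := {X : OM n K // mJ X = -X}

theorem oconj_add (x y : O K) : oconj (x + y) = oconj x + oconj y := by
  simp [oconj, add_comm]

theorem oconj_sub (x y : O K) : oconj (x - y) = oconj x - oconj y := by
  simp [oconj, sub_eq_add_neg, add_comm]

theorem oconj_smul (c : K) (x : O K) : oconj (c • x) = c • oconj x := by
  ext <;> simp [oconj]

theorem oconj_sum {ι : Type*} (s : Finset ι) (f : ι → O K) :
    oconj (∑ i ∈ s, f i) = ∑ i ∈ s, oconj (f i) := by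
  classical
  induction s using Finset.induction_on with
  | empty => simp [oconj]
  | insert a s ha ih => rw [Finset.sum_insert ha, Finset.sum_insert ha, oconj_add, ih]

theorem oconj_mul (x y : O K) : oconj (omul x y) = omul (oconj y) (oconj x) := by
  simp [oconj, omul]

theorem mJ_add (X Y : OM n K) : mJ (X + Y) = mJ X + mJ Y := by
  funext i j; exact oconj_add _ _

theorem mJ_sub (X Y : OM n K) : mJ (X - Y) = mJ X - mJ Y := by
  funext i j; exact oconj_sub _ _

theorem mJ_smul (c : K) (X : OM n K) : mJ (c • X) = c • mJ X := by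
  funext i j; exact oconj_smul _ _

theorem mJ_mmul (X Y : OM n K) : mJ (mmul X Y) = mmul (mJ Y) (mJ X) := by
  funext i j
  simp only [mJ, mmul, oconj_sum, oconj_mul]

theorem mmul_neg_neg (X Y : OM n K) : mmul (-X) (-Y) = mmul X Y := by
  funext i j
  simp [mmul, omul]

instance : Add (Herm n K) := ⟨fun X Y => ⟨X.1 + Y.1, by rw [mJ_add, X.2, Y.2]⟩⟩
instance : SMul K (Herm n K) := ⟨fun c X => ⟨c • X.1, by rw [mJ_smul, X.2]⟩⟩
instance : Add (Skew n K) := ⟨fun X Y => ⟨X.1 + Y.1, by rw [mJ_add, X.2, Y.2, neg_add]⟩⟩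
instance : SMul K (Skew n K) := ⟨fun c X => ⟨c • X.1, by rw [mJ_smul, X.2, smul_neg]⟩⟩

/-- The product `X ∘ Y = ½ (XY + YX)` of Hermitian matrices. -/
def jord (X Y : Herm n K) : Herm n K :=
  ⟨(1 / 2 : K) • (mmul X.1 Y.1 + mmul Y.1 X.1), by
    rw [mJ_smul, mJ_add, mJ_mmul, mJ_mmul, X.2, Y.2, add_comm]⟩

/-- The product `[X, Y] = XY - YX` of skew-Hermitian matrices. -/
def brack (X Y : Skew n K) : Skew n K :=
  ⟨mmul X.1 Y.1 - mmul Y.1 X.1, by
    rw [mJ_sub, mJ_mmul, mJ_mmul, X.2, Y.2, mmul_neg_neg, mmul_neg_neg, neg_sub]⟩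

/-! ### Automorphism groups -/

/-- The automorphism group of the algebra `V` with product `m`: the bijections `f` of `V` that are
`K`-linear and satisfy `f (m x y) = m (f x) (f y)`. -/
def Aut (K : Type*) {V : Type*} [Add V] [SMul K V] (m : V → V → V) :
    Subgroup (Equiv.Perm V) where
  carrier := {f | (∀ x y, f (x + y) = f x + f y) ∧ (∀ (c : K) (x : V), f (c • x) = c • f x) ∧
    ∀ x y, f (m x y) = m (f x) (f y)}
  mul_mem' := by
    rintro f g ⟨hf1, hf2, hf3⟩ ⟨hg1, hg2, hg3⟩
    refine ⟨fun x y => ?_, fun c x => ?_, fun x y => ?_⟩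
    · change f (g (x + y)) = f (g x) + f (g y)
      rw [hg1, hf1]
    · change f (g (c • x)) = c • f (g x)
      rw [hg2, hf2]
    · change f (g (m x y)) = m (f (g x)) (f (g y))
      rw [hg3, hf3]
  one_mem' := ⟨fun x y => rfl, fun c x => rfl, fun x y => rfl⟩
  inv_mem' := by
    rintro f ⟨hf1, hf2, hf3⟩
    refine ⟨fun x y => ?_, fun c x => ?_, fun x y => ?_⟩
    · change f.symm (x + y) = f.symm x + f.symm y
      apply f.injective
      rw [hf1]; simp
    · change f.symm (c • x) = c • f.symm x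
      apply f.injective
      rw [hf2]; simp
    · change f.symm (m x y) = m (f.symm x) (f.symm y)
      apply f.injective
      rw [hf3]; simp

/-- `G₂(K)`: the automorphism group of the octonions. -/
def G2 (K : Type*) [Field K] : Type _ := Aut K (omul : O K → O K → O K)

instance : Group (G2 K) := Subgroup.toGroup _

/-- The automorphism group of the algebra of Hermitian matrices. -/
def AutHerm (n : ℕ) (K : Type*) [Field K] : Type _ := Aut K (jord : Herm n K → Herm n K → Herm n K)

instance : Group (AutHerm n K) := Subgroup.toGroup _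

/-- The automorphism group of the algebra of skew-Hermitian matrices. -/
def AutSkew (n : ℕ) (K : Type*) [Field K] : Type _ :=
  Aut K (brack : Skew n K → Skew n K → Skew n K)

instance : Group (AutSkew n K) := Subgroup.toGroup _

/-- The projective group of similitudes `PGO(n, K) = GO(n, K) / scalars`. -/
def PGO (n : ℕ) (K : Type*) [Field K] : Type _ := OM.GO n K ⧸ OM.ScalarGO n K

instance : Group (PGO n K) := QuotientGroup.Quotient.group _

/-- The class of a similitude in `PGO(n, K)`. -/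
def PGO.mk (A : OM.GO n K) : PGO n K := QuotientGroup.mk A

/-- The special orthogonal group `SO(n, K)` of the form `∑ xᵢ²`. -/
def SO (n : ℕ) (K : Type*) [Field K] : Type _ := OM.SO n K

instance : Group (SO n K) := Subgroup.toGroup _

/-- The nine-dimensional quadratic form `q(t, x) = t² + N(x)`. -/
def q9 (w : K × O K) : K := w.1 ^ 2 + onorm w.2

/-- Invariance of the form `q9`, for a `K`-linear bijection. -/
def Isom9 (f : Equiv.Perm (K × O K)) : Prop :=
  (∀ x y, f (x + y) = f x + f y) ∧ (∀ (c : K) (x : K × O K), f (c • x) = c • f x) ∧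
    ∀ x, q9 (f x) = q9 x

theorem Isom9.mul {f g : Equiv.Perm (K × O K)} (hf : Isom9 f) (hg : Isom9 g) : Isom9 (f * g) := by
  obtain ⟨hf1, hf2, hf3⟩ := hf
  obtain ⟨hg1, hg2, hg3⟩ := hg
  refine ⟨fun x y => ?_, fun c x => ?_, fun x => ?_⟩
  · change f (g (x + y)) = f (g x) + f (g y)
    rw [hg1, hf1]
  · change f (g (c • x)) = c • f (g x)
    rw [hg2, hf2]
  · change q9 (f (g x)) = q9 x
    rw [hf3, hg3]

theorem Isom9.one : Isom9 (1 : Equiv.Perm (K × O K)) :=
  ⟨fun _ _ => rfl, fun _ _ => rfl, fun _ => rfl⟩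

theorem Isom9.inv {f : Equiv.Perm (K × O K)} (hf : Isom9 f) : Isom9 f⁻¹ := by
  obtain ⟨hf1, hf2, hf3⟩ := hf
  refine ⟨fun x y => ?_, fun c x => ?_, fun x => ?_⟩
  · change f.symm (x + y) = f.symm x + f.symm y
    apply f.injective
    rw [hf1]; simp
  · change f.symm (c • x) = c • f.symm x
    apply f.injective
    rw [hf2]; simp
  · change q9 (f.symm x) = q9 x
    rw [← hf3 (f.symm x)]; simp

/-- The orthogonal group of the form `q9`, as a group of permutations. -/
def O9Sub (K : Type*) [Field K] : Subgroup (Equiv.Perm (K × O K)) where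
  carrier := {f | Isom9 f}
  mul_mem' := Isom9.mul
  one_mem' := Isom9.one
  inv_mem' := Isom9.inv

/-- The orthogonal group of the form `q9`. -/
def O9 (K : Type*) [Field K] : Type _ := O9Sub K

instance : Group (O9 K) := Subgroup.toGroup _

/-- The matrix `A g(X) A⁻¹`, where `g` is applied to every entry; its `(i, j)` entry is
`∑ₖ ∑ₗ Aᵢₖ (A⁻¹)ₗⱼ g(Xₖₗ)`. -/
def conjA (g : O K → O K) (A : GL (Fin n) K) (X : OM n K) : OM n K :=
  fun i j => ∑ k, ∑ l, ((A : Matrix (Fin n) (Fin n) K) i k *
    ((A⁻¹ : GL (Fin n) K) : Matrix (Fin n) (Fin n) K) l j) • g (X k l)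

/-- The map of the octonions given by an element of `G₂`. -/
def G2.map (g : G2 K) : O K → O K := (g : Subtype _).1

/-- The map of the Hermitian matrices given by an automorphism. -/
def AutHerm.map (f : AutHerm n K) : Herm n K → Herm n K := (f : Subtype _).1

/-- The map of the skew-Hermitian matrices given by an automorphism. -/
def AutSkew.map (f : AutSkew n K) : Skew n K → Skew n K := (f : Subtype _).1

/-- `e (g, [A])` is the automorphism `X ↦ A g(X) A⁻¹` of the Hermitian matrices. -/
def HermAction (e : G2 K × PGO n K → AutHerm n K) : Prop :=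
  ∀ (g : G2 K) (A : OM.GO n K) (X : Herm n K),
    ((e (g, PGO.mk A)).map X).1 = conjA g.map A.1 X.1

/-- `e (g, [A])` is the automorphism `X ↦ A g(X) A⁻¹` of the skew-Hermitian matrices. -/
def SkewAction (e : G2 K × PGO n K → AutSkew n K) : Prop :=
  ∀ (g : G2 K) (A : OM.GO n K) (X : Skew n K),
    ((e (g, PGO.mk A)).map X).1 = conjA g.map A.1 X.1

end K3h69.OS
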