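import Pool.Agent.K3h69.OM.Lines

/-!
# Entries of the Jordan-type expression
-/

namespace K3h69.OM

open Matrix

set_option linter.unusedSectionVars false
set_option maxHeartbeats 1000000

variable {K : Type*} [Field K] {n : ℕ}

/-- `XY + YX`. -/
def jo (X Y : OMat n K) : OMat n K := X * Y + Y * X

/-- The Jordan-type expression. -/
def QQ (a b y : OMat n K) : OMat n K :=
  jo (jo (jo a b) y) a - jo (jo a b) (jo y a) + jo (jo (a * a) y) b - jo (a * a) (jo y b)

/-- `x E_ij + x̄ E_ji` -/
def Xm (i j : Fin n) (x : Oct K) : OMat n K := Matrix.single i j x + Matrix.single j i (Oct.conj x)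

theorem mul_single' (M : OMat n K) (i j : Fin n) (x : Oct K) (r s : Fin n) :
    (M * Matrix.single i j x) r s = if s = j then M r i * x else 0 := by
  rw [Matrix.mul_apply]
  rcases eq_or_ne s j with rfl | h
  · simp [Matrix.single_apply]
  · simp [Matrix.single_apply, h, Ne.symm h]

theorem single_mul' (M : OMat n K) (i j : Fin n) (x : Oct K) (r s : Fin n) :
    (Matrix.single i j x * M) r s = if r = i then x * M j s else 0 := by
  rw [Matrix.mul_apply]
  rcases eq_or_ne r i with rfl | h
  · simp [Matrix.single_apply]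
  · simp [Matrix.single_apply, h, Ne.symm h]

theorem mul_Xm (M : OMat n K) (i j : Fin n) (x : Oct K) (r s : Fin n) :
    (M * Xm i j x) r s = (if s = j then M r i * x else 0) +
      (if s = i then M r j * Oct.conj x else 0) := by
  rw [Xm, Matrix.mul_add, Matrix.add_apply, mul_single', mul_single']

theorem Xm_mul (M : OMat n K) (i j : Fin n) (x : Oct K) (r s : Fin n) :
    (Xm i j x * M) r s = (if r = i then x * M j s else 0) +
      (if r = j then Oct.conj x * M i s else 0) := by
  rw [Xm, Matrix.add_mul, Matrix.add_apply, single_mul', single_mul']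

theorem Xm_apply (i j : Fin n) (x : Oct K) (r s : Fin n) :
    Xm i j x r s = (if r = i ∧ s = j then x else 0) + (if r = j ∧ s = i then Oct.conj x else 0) := by
  simp [Xm, Matrix.single_apply, eq_comm]

theorem Xm_memP {i j : Fin n} (x : Oct K) : Xm i j x ∈ SymP n K := by
  rw [mem_SymP]
  ext1 r s
  rw [J_apply, Xm_apply, Xm_apply, map_add]
  simp only [apply_ite Oct.conj, map_zero, Oct.conj_conj]
  rw [add_comm]
  congr 1 <;> · congr 1; rw [and_comm]

theorem entry_adj (a : OMat n K) {i j k : Fin n} (hij : i ≠ j) (hik : i ≠ k) (hjk : j ≠ k)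
    (γ η : Oct K) :
    QQ a (Xm i j γ) (Xm j k η) i k =
      ((a i i * γ + γ * a j j) * η) * a k k + ((γ * a j k) * Oct.conj η) * a j k +
      (∑ m, a i m * ((a m i * γ) * η)) + a i i * ((γ * a j j) * η) +
      a i j * ((Oct.conj γ * a i j) * η) + a i k * (Oct.conj η * (Oct.conj γ * a i k)) -
      ((a i i * γ) * (η * a k k + a j j * η) + (a i j * Oct.conj γ) * (a i j * η) +
        (γ * a j j) * (η * a k k) + (γ * a j k) * (Oct.conj η * a j k) +
        (∑ m, (γ * a j m) * (a m j * η)) + (a i k * Oct.conj η) * (Oct.conj γ * a i k)) +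
      (γ * ((a * a) j j * η + η * (a * a) k k)) -
      ((a * a) i i * (γ * η) + (γ * η) * (a * a) k k) := by
  have hji := Ne.symm hij
  have hki := Ne.symm hik
  have hkj := Ne.symm hjk
  set b := Xm i j γ with hb
  set y := Xm j k η with hy
  set P := jo a b with hP
  set N := jo y a with hN
  set W := a * a with hW
  have eP : ∀ r s, P r s = (if s = j then a r i * γ else 0) +
      (if s = i then a r j * Oct.conj γ else 0) +
      ((if r = i then γ * a j s else 0) + (if r = j then Oct.conj γ * a i s else 0)) := by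
    intro r s; rw [hP, jo, Matrix.add_apply, hb, mul_Xm, Xm_mul]
  have eN : ∀ r s, N r s = (if r = j then η * a k s else 0) +
      (if r = k then Oct.conj η * a j s else 0) +
      ((if s = k then a r j * η else 0) + (if s = j then a r k * Oct.conj η else 0)) := by
    intro r s; rw [hN, jo, Matrix.add_apply, hy, mul_Xm, Xm_mul]
  have e1 : jo (jo P y) a i k = ((P i j * η) * a k k + (P i k * Oct.conj η) * a j k) +
      ((∑ m, a i m * (P m j * η)) + (a i j * (η * P k k) + a i k * (Oct.conj η * P j k))) := by
    rw [jo, Matrix.add_apply, Matrix.mul_apply, Matrix.mul_apply]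
    have eY : ∀ r s, jo P y r s = (if s = k then P r j * η else 0) +
        (if s = j then P r k * Oct.conj η else 0) +
        ((if r = j then η * P k s else 0) + (if r = k then Oct.conj η * P j s else 0)) := by
      intro r s; rw [jo, Matrix.add_apply, hy, mul_Xm, Xm_mul]
    simp only [eY]
    simp [hij, hik, hkj, add_mul, mul_add, ite_mul, mul_ite, Finset.sum_add_distrib]
  have e2 : jo P N i k = (((a i i * γ) * N j k + (a i j * Oct.conj γ) * N i k) +
      ∑ m, (γ * a j m) * N m k) + ((a i j * η) * P k k + (a i k * Oct.conj η) * P j k) := by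
    rw [jo, Matrix.add_apply, Matrix.mul_apply, Matrix.mul_apply]
    have h1 : ∑ m, P i m * N m k = ((a i i * γ) * N j k + (a i j * Oct.conj γ) * N i k) +
      ∑ m, (γ * a j m) * N m k := by
      simp only [eP i]
      simp [hij, add_mul, ite_mul, Finset.sum_add_distrib]
    have h2 : ∑ m, N i m * P m k = (a i j * η) * P k k + (a i k * Oct.conj η) * P j k := by
      simp only [eN i]
      simp [hij, hik, add_mul, ite_mul, Finset.sum_add_distrib]
    rw [h1, h2]
  have e3 : jo (jo W y) b i k = γ * (W j j * η + η * W k k) := by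
    rw [jo, Matrix.add_apply, hb, mul_Xm, Xm_mul]
    simp only [hki, hkj, hij, if_true, if_false, jo, Matrix.add_apply]
    rw [hy, mul_Xm, Xm_mul]
    simp [hkj, hjk]
  have e4 : jo W (jo y b) i k = W i i * (γ * η) + (γ * η) * W k k := by
    have eyb : jo y b = Matrix.single i k (γ * η) +
        Matrix.single k i (Oct.conj η * Oct.conj γ) := by
      ext1 r s
      rw [jo, Matrix.add_apply, hb, mul_Xm, Xm_mul, hy, Xm_apply, Xm_apply, Xm_apply, Xm_apply,
        Matrix.add_apply, Matrix.single_apply, Matrix.single_apply]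
      by_cases hri : r = i
      · subst hri
        by_cases hsk : s = k
        · subst hsk
          simp [hij, hik, hjk, hki, hkj, hji]
        · simp [hij, hik, hjk, hki, hkj, hji, hsk, Ne.symm hsk]
      · by_cases hrk : r = k
        · subst hrk
          by_cases hsi : s = i
          · subst hsi; simp [hij, hik, hjk, hki, hkj, hji]
          · simp [hij, hik, hjk, hki, hkj, hji, hsi, Ne.symm hsi]
        · simp [hri, hrk, Ne.symm hri, Ne.symm hrk, hjk, hij, hkj, hji, hik]
    rw [jo, Matrix.add_apply, eyb, Matrix.mul_add, Matrix.add_mul, Matrix.add_apply,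
      Matrix.add_apply, mul_single', mul_single', single_mul', single_mul']
    simp [hik, hki]
  have pij : P i j = a i i * γ + γ * a j j := by rw [eP]; simp [hij, hji]
  have pik : P i k = γ * a j k := by rw [eP]; simp [hij, hki, hkj]
  have pkk : P k k = 0 := by rw [eP]; simp [hki, hkj]
  have pjk : P j k = Oct.conj γ * a i k := by rw [eP]; simp [hkj, hki, hji]
  have pmj : ∀ m, P m j = a m i * γ + ((if m = i then γ * a j j else 0) +
      (if m = j then Oct.conj γ * a i j else 0)) := by intro m; rw [eP]; simp [hji]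
  have njk : N j k = η * a k k + a j j * η := by rw [eN]; simp [hjk, hkj]
  have nik : N i k = a i j * η := by rw [eN]; simp [hij, hik, hkj]
  have nmk : ∀ m, N m k = (if m = j then η * a k k else 0) +
      (if m = k then Oct.conj η * a j k else 0) + a m j * η := by intro m; rw [eN]; simp [hkj]
  have s1 : ∑ m, a i m * (P m j * η) = (∑ m, a i m * ((a m i * γ) * η)) +
      (a i i * ((γ * a j j) * η) + a i j * ((Oct.conj γ * a i j) * η)) := by
    simp only [pmj]
    simp [add_mul, mul_add, ite_mul, mul_ite, Finset.sum_add_distrib]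
  have s2 : ∑ m, (γ * a j m) * N m k = ((γ * a j j) * (η * a k k) +
      (γ * a j k) * (Oct.conj η * a j k)) + ∑ m, (γ * a j m) * (a m j * η) := by
    simp only [nmk]
    simp [mul_add, mul_ite, Finset.sum_add_distrib]
  rw [QQ, Matrix.sub_apply, Matrix.add_apply, Matrix.sub_apply, ← hP, ← hN, ← hW, e1, e2, e3, e4,
    s1, s2, pij, pik, pkk, pjk, njk, nik]
  simp only [mul_zero, add_zero, zero_add]
  abel

theorem entry_dis (a : OMat n K) {i j k l : Fin n} (hij : i ≠ j) (hik : i ≠ k) (hil : i ≠ l)
    (hjk : j ≠ k) (hjl : j ≠ l) (hkl : k ≠ l) (γ η : Oct K) :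
    QQ a (Xm i j γ) (Xm k l η) i k =
      ((γ * a j k) * η) * a l k + ((γ * a j l) * Oct.conj η) * a k k +
      a i i * ((γ * a j l) * Oct.conj η) + a i j * ((Oct.conj γ * a i l) * Oct.conj η) -
      ((a i i * γ) * (a j l * Oct.conj η) + (a i j * Oct.conj γ) * (a i l * Oct.conj η) +
        (γ * a j k) * (η * a l k) + (γ * a j l) * (Oct.conj η * a k k) +
        ∑ m, (γ * a j m) * (a m l * Oct.conj η)) +
      γ * ((a * a) j l * Oct.conj η) := by
  have hji := Ne.symm hij
  have hki := Ne.symm hik
  have hkj := Ne.symm hjk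
  have hli := Ne.symm hil
  have hlj := Ne.symm hjl
  have hlk := Ne.symm hkl
  set b := Xm i j γ with hb
  set y := Xm k l η with hy
  set P := jo a b with hP
  set N := jo y a with hN
  set W := a * a with hW
  have eP : ∀ r s, P r s = (if s = j then a r i * γ else 0) +
      (if s = i then a r j * Oct.conj γ else 0) +
      ((if r = i then γ * a j s else 0) + (if r = j then Oct.conj γ * a i s else 0)) := by
    intro r s; rw [hP, jo, Matrix.add_apply, hb, mul_Xm, Xm_mul]
  have eN : ∀ r s, N r s = (if r = k then η * a l s else 0) +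
      (if r = l then Oct.conj η * a k s else 0) +
      ((if s = l then a r k * η else 0) + (if s = k then a r l * Oct.conj η else 0)) := by
    intro r s; rw [hN, jo, Matrix.add_apply, hy, mul_Xm, Xm_mul]
  have e1 : jo (jo P y) a i k = ((P i k * η) * a l k + (P i l * Oct.conj η) * a k k) +
      ((∑ m, a i m * (P m l * Oct.conj η)) +
        (a i k * (η * P l k) + a i l * (Oct.conj η * P k k))) := by
    rw [jo, Matrix.add_apply, Matrix.mul_apply, Matrix.mul_apply]
    have eY : ∀ r s, jo P y r s = (if s = l then P r k * η else 0) +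
        (if s = k then P r l * Oct.conj η else 0) +
        ((if r = k then η * P l s else 0) + (if r = l then Oct.conj η * P k s else 0)) := by
      intro r s; rw [jo, Matrix.add_apply, hy, mul_Xm, Xm_mul]
    simp only [eY]
    simp [hik, hil, hkl, add_mul, mul_add, ite_mul, mul_ite, Finset.sum_add_distrib]
  have e2 : jo P N i k = (((a i i * γ) * N j k + (a i j * Oct.conj γ) * N i k) +
      ∑ m, (γ * a j m) * N m k) + ((a i k * η) * P l k + (a i l * Oct.conj η) * P k k) := by
    rw [jo, Matrix.add_apply, Matrix.mul_apply, Matrix.mul_apply]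
    have h1 : ∑ m, P i m * N m k = ((a i i * γ) * N j k + (a i j * Oct.conj γ) * N i k) +
      ∑ m, (γ * a j m) * N m k := by
      simp only [eP i]
      simp [hij, add_mul, ite_mul, Finset.sum_add_distrib]
    have h2 : ∑ m, N i m * P m k = (a i k * η) * P l k + (a i l * Oct.conj η) * P k k := by
      simp only [eN i]
      simp [hil, hik, add_mul, ite_mul, Finset.sum_add_distrib]
    rw [h1, h2]
  have e3 : jo (jo W y) b i k = γ * (W j l * Oct.conj η) := by
    rw [jo, Matrix.add_apply, hb, mul_Xm, Xm_mul]
    simp only [hki, hkj, hij, if_true, if_false, jo, Matrix.add_apply]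
    rw [hy, mul_Xm, Xm_mul]
    simp [hkl, hjk, hjl]
  have e4 : jo W (jo y b) i k = 0 := by
    have eyb : jo y b = 0 := by
      ext1 r s
      rw [jo, Matrix.add_apply, hb, mul_Xm, Xm_mul, hy, Xm_apply, Xm_apply, Xm_apply, Xm_apply]
      simp [hik, hil, hjk, hjl, hki, hkj, hli, hlj]
    rw [jo, Matrix.add_apply, eyb, Matrix.mul_zero, Matrix.zero_mul]
    simp
  have pik : P i k = γ * a j k := by rw [eP]; simp [hij, hki, hkj]
  have pil : P i l = γ * a j l := by rw [eP]; simp [hij, hli, hlj]
  have pkk : P k k = 0 := by rw [eP]; simp [hki, hkj]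
  have plk : P l k = 0 := by rw [eP]; simp [hki, hkj, hli, hlj]
  have pml : ∀ m, P m l = ((if m = i then γ * a j l else 0) +
      (if m = j then Oct.conj γ * a i l else 0)) := by intro m; rw [eP]; simp [hli, hlj]
  have njk : N j k = a j l * Oct.conj η := by rw [eN]; simp [hjk, hjl, hkl]
  have nik : N i k = a i l * Oct.conj η := by rw [eN]; simp [hik, hil, hkl]
  have nmk : ∀ m, N m k = (if m = k then η * a l k else 0) +
      (if m = l then Oct.conj η * a k k else 0) + a m l * Oct.conj η := by
    intro m; rw [eN]; simp [hkl]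
  have s1 : ∑ m, a i m * (P m l * Oct.conj η) =
      (a i i * ((γ * a j l) * Oct.conj η) + a i j * ((Oct.conj γ * a i l) * Oct.conj η)) := by
    simp only [pml]
    simp [add_mul, mul_add, ite_mul, mul_ite, Finset.sum_add_distrib]
  have s2 : ∑ m, (γ * a j m) * N m k = ((γ * a j k) * (η * a l k) +
      (γ * a j l) * (Oct.conj η * a k k)) + ∑ m, (γ * a j m) * (a m l * Oct.conj η) := by
    simp only [nmk]
    simp [mul_add, mul_ite, Finset.sum_add_distrib]
  rw [QQ, Matrix.sub_apply, Matrix.add_apply, Matrix.sub_apply, ← hP, ← hN, ← hW, e1, e2, e3, e4,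
    s1, s2, pik, pil, pkk, plk, njk, nik]
  simp only [mul_zero, add_zero, zero_add, sub_zero]
  abel

end K3h69.OM
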