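import Pool.Agent.K3h69.OM.Two

/-!
# Transport to the definitions of the final statement
-/

open Matrix

namespace K3h69.OS

open K3h69.OM (Oct)

set_option linter.unusedSectionVars false

variable {K : Type*} [Field K] {n : ℕ}

/-- The coordinates of an octonion. -/
def toO (p : O K) : OM.Oct K :=
  Oct.mk p.1.re p.1.imI p.1.imJ p.1.imK p.2.re p.2.imI p.2.imJ p.2.imK

/-- The octonion with given coordinates. -/
def ofO (x : OM.Oct K) : O K := (⟨x 0, x 1, x 2, x 3⟩, ⟨x 4, x 5, x 6, x 7⟩)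

theorem ofO_toO (p : O K) : ofO (toO p) = p := by
  ext <;> simp [ofO, toO]

theorem toO_ofO (x : OM.Oct K) : toO (ofO x) = x := by
  apply Oct.ext8 <;> simp [ofO, toO]

theorem toO_add (x y : O K) : toO (x + y) = toO x + toO y := by
  apply Oct.ext8 <;> simp [toO]

theorem toO_smul (c : K) (x : O K) : toO (c • x) = c • toO x := by
  apply Oct.ext8 <;> simp [toO]

theorem toO_neg (x : O K) : toO (-x) = -toO x := by
  apply Oct.ext8 <;> simp [toO]

theorem toO_omul (x y : O K) : toO (omul x y) = toO x * toO y := by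
  apply Oct.ext8 <;> simp [toO, omul, Oct.mul_def] <;> ring

theorem toO_oconj (x : O K) : toO (oconj x) = Oct.conj (toO x) := by
  apply Oct.ext8 <;> simp [toO, oconj, Oct.conj_def]

theorem toO_norm (x : O K) : Oct.nrm (toO x) = onorm x := by
  simp [toO, Oct.nrm, onorm, Quaternion.normSq_def']
  ring

theorem toO_injective : Function.Injective (toO : O K → OM.Oct K) := fun x y h => by
  rw [← ofO_toO x, ← ofO_toO y, h]

theorem ofO_add (x y : OM.Oct K) : ofO (x + y) = ofO x + ofO y := by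
  apply toO_injective; rw [toO_add, toO_ofO, toO_ofO, toO_ofO]

theorem ofO_smul (c : K) (x : OM.Oct K) : ofO (c • x) = c • ofO x := by
  apply toO_injective; rw [toO_smul, toO_ofO, toO_ofO]

theorem ofO_neg (x : OM.Oct K) : ofO (-x) = -ofO x := by
  apply toO_injective; rw [toO_neg, toO_ofO, toO_ofO]

theorem ofO_mul (x y : OM.Oct K) : ofO (x * y) = omul (ofO x) (ofO y) := by
  apply toO_injective; rw [toO_omul, toO_ofO, toO_ofO, toO_ofO]

theorem ofO_conj (x : OM.Oct K) : ofO (Oct.conj x) = oconj (ofO x) := by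
  apply toO_injective; rw [toO_oconj, toO_ofO, toO_ofO]

theorem ofO_norm (x : OM.Oct K) : onorm (ofO x) = Oct.nrm x := by
  rw [← toO_norm, toO_ofO]

theorem ofO_sum {ι : Type*} (s : Finset ι) (f : ι → OM.Oct K) :
    ofO (∑ i ∈ s, f i) = ∑ i ∈ s, ofO (f i) := by
  classical
  induction s using Finset.induction_on with
  | empty =>
    rw [Finset.sum_empty, Finset.sum_empty]
    rfl
  | insert a s ha ih => rw [Finset.sum_insert ha, Finset.sum_insert ha, ofO_add, ih]

/-- The coordinate bijection. -/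
def eO : OM.Oct K ≃ O K where
  toFun := ofO
  invFun := toO
  left_inv := toO_ofO
  right_inv := ofO_toO

/-! ### Transport of automorphism groups -/

/-- Transport of an automorphism group. -/
def transp {V W : Type*} [AddCommGroup V] [Module K V] [Add W] [SMul K W]
    {m : V → V → V} {m' : W → W → W} (e : V ≃ W) (ha : ∀ x y, e (x + y) = e x + e y)
    (hs : ∀ (c : K) x, e (c • x) = c • e x) (hm : ∀ x y, e (m x y) = m' (e x) (e y)) :
    OM.AutAlg K m ≃* Aut K m' where
  toFun f := ⟨(e.symm.trans (f : V ≃ₗ[K] V).toEquiv).trans e, by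
    refine ⟨fun x y => ?_, fun c x => ?_, fun x y => ?_⟩
    · obtain ⟨x, rfl⟩ := e.surjective x
      obtain ⟨y, rfl⟩ := e.surjective y
      change e ((f : V ≃ₗ[K] V) (e.symm (e x + e y))) =
        e ((f : V ≃ₗ[K] V) (e.symm (e x))) + e ((f : V ≃ₗ[K] V) (e.symm (e y)))
      rw [← ha, e.symm_apply_apply, e.symm_apply_apply, e.symm_apply_apply, map_add, ha]
    · obtain ⟨x, rfl⟩ := e.surjective x
      change e ((f : V ≃ₗ[K] V) (e.symm (c • e x))) = c • e ((f : V ≃ₗ[K] V) (e.symm (e x)))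
      rw [← hs, e.symm_apply_apply, e.symm_apply_apply, map_smul, hs]
    · obtain ⟨x, rfl⟩ := e.surjective x
      obtain ⟨y, rfl⟩ := e.surjective y
      change e ((f : V ≃ₗ[K] V) (e.symm (m' (e x) (e y)))) =
        m' (e ((f : V ≃ₗ[K] V) (e.symm (e x)))) (e ((f : V ≃ₗ[K] V) (e.symm (e y))))
      rw [← hm, e.symm_apply_apply, e.symm_apply_apply, e.symm_apply_apply, f.2, hm]⟩
  invFun F := ⟨{ (e.trans (F : Equiv.Perm W)).trans e.symm with
      map_add' := by
        intro x y
        change e.symm ((F : Equiv.Perm W) (e (x + y))) =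
          e.symm ((F : Equiv.Perm W) (e x)) + e.symm ((F : Equiv.Perm W) (e y))
        apply e.injective
        rw [ha, ha]
        simp only [e.apply_symm_apply]
        exact F.2.1 _ _
      map_smul' := by
        intro c x
        change e.symm ((F : Equiv.Perm W) (e (c • x))) = c • e.symm ((F : Equiv.Perm W) (e x))
        apply e.injective
        rw [hs, hs]
        simp only [e.apply_symm_apply]
        exact F.2.2.1 _ _ }, by
    intro x y
    change e.symm ((F : Equiv.Perm W) (e (m x y))) =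
      m (e.symm ((F : Equiv.Perm W) (e x))) (e.symm ((F : Equiv.Perm W) (e y)))
    apply e.injective
    rw [hm, hm]
    simp only [e.apply_symm_apply]
    exact F.2.2.2 _ _⟩
  left_inv f := by
    apply Subtype.ext
    apply LinearEquiv.ext
    intro x
    change e.symm (e ((f : V ≃ₗ[K] V) (e.symm (e x)))) = (f : V ≃ₗ[K] V) x
    simp
  right_inv F := by
    apply Subtype.ext
    apply Equiv.ext
    intro x
    change e (e.symm ((F : Equiv.Perm W) (e (e.symm x)))) = (F : Equiv.Perm W) x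
    simp
  map_mul' f g := by
    apply Subtype.ext
    apply Equiv.ext
    intro x
    change e ((f : V ≃ₗ[K] V) ((g : V ≃ₗ[K] V) (e.symm x))) =
      e ((f : V ≃ₗ[K] V) (e.symm (e ((g : V ≃ₗ[K] V) (e.symm x)))))
    simp

theorem transp_apply {V W : Type*} [AddCommGroup V] [Module K V] [Add W] [SMul K W]
    {m : V → V → V} {m' : W → W → W} (e : V ≃ W) (ha : ∀ x y, e (x + y) = e x + e y)
    (hs : ∀ (c : K) x, e (c • x) = c • e x) (hm : ∀ x y, e (m x y) = m' (e x) (e y))
    (f : OM.AutAlg K m) (w : W) :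
    (transp e ha hs hm f : Equiv.Perm W) w = e ((f : V ≃ₗ[K] V) (e.symm w)) := rfl

/-- `G₂` in the two descriptions. -/
def g2E : OM.G2 K ≃* G2 K := transp eO ofO_add ofO_smul ofO_mul

theorem g2E_apply (g : OM.G2 K) (w : O K) :
    (g2E g).map w = ofO ((g : Oct K ≃ₗ[K] Oct K) (toO w)) := rfl

/-! ### Matrices -/

/-- Entrywise coordinates. -/
def ofM (X : OM.OMat n K) : OM n K := fun i j => ofO (X i j)

/-- Entrywise coordinates. -/
def toM (X : OM n K) : OM.OMat n K := fun i j => toO (X i j)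

theorem toM_ofM (X : OM.OMat n K) : toM (ofM X) = X := by
  ext1 i j; exact toO_ofO _

theorem ofM_toM (X : OM n K) : ofM (toM X) = X := by
  funext i j; exact ofO_toO _

theorem ofM_add (X Y : OM.OMat n K) : ofM (X + Y) = ofM X + ofM Y := by
  funext i j; exact ofO_add _ _

theorem ofM_neg (X : OM.OMat n K) : ofM (-X) = -ofM X := by
  funext i j; exact ofO_neg _

theorem ofM_sub (X Y : OM.OMat n K) : ofM (X - Y) = ofM X - ofM Y := by
  rw [sub_eq_add_neg, ofM_add, ofM_neg, sub_eq_add_neg]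

theorem ofM_smul (c : K) (X : OM.OMat n K) : ofM (c • X) = c • ofM X := by
  funext i j; exact ofO_smul _ _

theorem ofM_mul (X Y : OM.OMat n K) : ofM (X * Y) = mmul (ofM X) (ofM Y) := by
  funext i j
  simp only [ofM, mmul, Matrix.mul_apply, ofO_sum, ofO_mul]

theorem ofM_J (X : OM.OMat n K) : ofM (OM.J X) = mJ (ofM X) := by
  funext i j; exact ofO_conj _

theorem ofM_injective : Function.Injective (ofM : OM.OMat n K → OM n K) := fun X Y h => by
  rw [← toM_ofM X, ← toM_ofM Y, h]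

theorem toM_memP {X : OM n K} (h : mJ X = X) : toM X ∈ OM.SymP n K := by
  rw [OM.mem_SymP]
  apply ofM_injective
  rw [ofM_J, ofM_toM, h]

theorem toM_memM {X : OM n K} (h : mJ X = -X) : toM X ∈ OM.SymM n K := by
  rw [OM.mem_SymM]
  apply ofM_injective
  rw [ofM_J, ofM_neg, ofM_toM, h]

/-- Hermitian matrices in the two descriptions. -/
def eP : OM.SymP n K ≃ Herm n K where
  toFun X := ⟨ofM X, by rw [← ofM_J, OM.mem_SymP.1 X.2]⟩
  invFun X := ⟨toM X.1, toM_memP X.2⟩
  left_inv X := Subtype.ext (toM_ofM _)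
  right_inv X := Subtype.ext (ofM_toM _)

/-- Skew-Hermitian matrices in the two descriptions. -/
def eM : OM.SymM n K ≃ Skew n K where
  toFun X := ⟨ofM X, by rw [← ofM_J, OM.mem_SymM.1 X.2, ofM_neg]⟩
  invFun X := ⟨toM X.1, toM_memM X.2⟩
  left_inv X := Subtype.ext (toM_ofM _)
  right_inv X := Subtype.ext (ofM_toM _)

/-- The automorphism group of the Hermitian matrices in the two descriptions. -/
def autPE : OM.AutP n K ≃* AutHerm n K :=
  transp eP (fun X Y => Subtype.ext (ofM_add _ _)) (fun c X => Subtype.ext (ofM_smul _ _))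
    (fun X Y => Subtype.ext (by
      change ofM (OM.jmul X Y : OM.OMat n K) =
        (1 / 2 : K) • (mmul (ofM X) (ofM Y) + mmul (ofM Y) (ofM X))
      rw [OM.jmul_coe, ofM_smul, ofM_add, ofM_mul, ofM_mul]))

/-- The automorphism group of the skew-Hermitian matrices in the two descriptions. -/
def autME : OM.AutM n K ≃* AutSkew n K :=
  transp eM (fun X Y => Subtype.ext (ofM_add _ _)) (fun c X => Subtype.ext (ofM_smul _ _))
    (fun X Y => Subtype.ext (by
      change ofM (OM.lmul X Y : OM.OMat n K) = mmul (ofM X) (ofM Y) - mmul (ofM Y) (ofM X)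
      rw [OM.lmul_coe, ofM_sub, ofM_mul, ofM_mul]))

theorem act_eq (g : OM.G2 K) (A : GL (Fin n) K) (X : OM n K) :
    ofM (OM.act (g : Oct K ≃ₗ[K] Oct K) A (toM X)) = conjA (g2E g).map A X := by
  funext i j
  change ofO (OM.act (g : Oct K ≃ₗ[K] Oct K) A (toM X) i j) = _
  unfold OM.act conjA
  rw [Matrix.mul_apply, ofO_sum]
  conv_rhs => rw [Finset.sum_comm]
  refine Finset.sum_congr rfl fun l _ => ?_
  rw [OM.R_apply, Oct.mul_C, ofO_smul, Matrix.mul_apply, ofO_sum, Finset.smul_sum]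
  refine Finset.sum_congr rfl fun k _ => ?_
  rw [OM.R_apply, Oct.C_mul, ofO_smul, smul_smul, mul_comm]
  rfl

/-- A surjective homomorphism `G × H → P` with kernel `1 × N` gives `G × H/N ≅ P`. -/
theorem iso_of' {G H P : Type*} [Group G] [Group H] [Group P] (N : Subgroup H) [N.Normal]
    (h : G × H →* P) (hs : Function.Surjective h)
    (hk : ∀ g a, h (g, a) = 1 ↔ g = 1 ∧ a ∈ N) :
    ∃ e : G × (H ⧸ N) ≃* P, ∀ (g : G) (a : H), e (g, (a : H ⧸ N)) = h (g, a) := by
  let q : G × H →* G × (H ⧸ N) := MonoidHom.prodMap (MonoidHom.id G) (QuotientGroup.mk' N)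
  have hq : Function.Surjective q := by
    rintro ⟨g, a⟩
    obtain ⟨b, rfl⟩ := QuotientGroup.mk'_surjective N a
    exact ⟨(g, b), rfl⟩
  have hker : h.ker = q.ker := by
    ext ⟨g, a⟩
    rw [MonoidHom.mem_ker, MonoidHom.mem_ker, hk]
    simp only [q, MonoidHom.prodMap, MonoidHom.prod_apply, MonoidHom.comp_apply,
      MonoidHom.coe_fst, MonoidHom.coe_snd, MonoidHom.id_apply, Prod.mk_eq_one]
    rw [QuotientGroup.mk'_apply, QuotientGroup.eq_one_iff]
  refine ⟨(QuotientGroup.quotientKerEquivOfSurjective q hq).symm.trans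
    ((QuotientGroup.quotientMulEquivOfEq hker).symm.trans
      (QuotientGroup.quotientKerEquivOfSurjective h hs)), fun g a => ?_⟩
  have h1 : (QuotientGroup.quotientKerEquivOfSurjective q hq).symm (g, (a : H ⧸ N)) =
      (((g, a) : G × H) : (G × H) ⧸ q.ker) := by
    rw [MulEquiv.symm_apply_eq]
    rfl
  rw [MulEquiv.trans_apply, MulEquiv.trans_apply, h1]
  rfl

/-- `PGO` in the two forms. -/
def pgoE : PGO n K ≃* OM.PGO n K := MulEquiv.refl (OM.PGO n K)

/-- `SO` in the two forms. -/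
def soE : SO n K ≃* OM.SO n K := MulEquiv.refl (OM.SO n K)

theorem skew_iso (h2 : (2 : K) ≠ 0) (h3 : (3 : K) ≠ 0) (hn : 1 ≤ n) :
    ∃ e : G2 K × PGO n K ≃* AutSkew n K, SkewAction e := by
  obtain ⟨e0, he0⟩ := iso_of' (OM.ScalarGO n K) (OM.homM h2 n) (OM.homM_surj h2 h3 hn)
    (OM.homM_ker h2 h3 hn)
  refine ⟨(MulEquiv.prodCongr g2E.symm pgoE).trans (e0.trans autME), fun g A X => ?_⟩
  have h1 : ((MulEquiv.prodCongr g2E.symm pgoE).trans (e0.trans autME))
      (g, PGO.mk A) = autME (OM.homM h2 n (g2E.symm g, A)) := by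
    rw [← he0]; rfl
  rw [h1]
  have h2' := act_eq (g2E.symm g) (A : GL (Fin n) K) X.1
  rw [g2E.apply_symm_apply] at h2'
  exact h2'

theorem herm_iso (h2 : (2 : K) ≠ 0) (hn : 4 ≤ n) :
    ∃ e : G2 K × PGO n K ≃* AutHerm n K, HermAction e := by
  obtain ⟨e0, he0⟩ := iso_of' (OM.ScalarGO n K) (OM.homP h2 n) (OM.homP_surj h2 hn)
    (OM.homP_ker h2 (by omega))
  refine ⟨(MulEquiv.prodCongr g2E.symm pgoE).trans (e0.trans autPE), fun g A X => ?_⟩
  have h1 : ((MulEquiv.prodCongr g2E.symm pgoE).trans (e0.trans autPE))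
      (g, PGO.mk A) = autPE (OM.homP h2 n (g2E.symm g, A)) := by
    rw [← he0]; rfl
  rw [h1]
  have h2' := act_eq (g2E.symm g) (A : GL (Fin n) K) X.1
  rw [g2E.apply_symm_apply] at h2'
  exact h2'

/-! ### The nine-dimensional orthogonal group -/

/-- The coordinate bijection. -/
def e9 : K × OM.Oct K ≃ K × O K := Equiv.prodCongr (Equiv.refl K) eO

theorem e9_add (x y : K × OM.Oct K) : e9 (x + y) = e9 x + e9 y :=
  Prod.ext rfl (ofO_add _ _)

theorem e9_smul (c : K) (x : K × OM.Oct K) : e9 (c • x) = c • e9 x :=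
  Prod.ext rfl (ofO_smul _ _)

theorem e9_q (x : K × OM.Oct K) : q9 (e9 x) = OM.q9 x := by
  change x.1 ^ 2 + onorm (ofO x.2) = x.1 ^ 2 + Oct.nrm x.2
  rw [ofO_norm]

/-- `O₉` in the two descriptions. -/
def o9E : OM.O9 K ≃* O9Sub K where
  toFun f := ⟨(e9.symm.trans (f : (K × OM.Oct K) ≃ₗ[K] (K × OM.Oct K)).toEquiv).trans e9, by
    refine ⟨fun x y => ?_, fun c x => ?_, fun x => ?_⟩
    · obtain ⟨x, rfl⟩ := e9.surjective x
      obtain ⟨y, rfl⟩ := e9.surjective y
      change e9 ((f : (K × OM.Oct K) ≃ₗ[K] (K × OM.Oct K)) (e9.symm (e9 x + e9 y))) =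
        e9 ((f : (K × OM.Oct K) ≃ₗ[K] (K × OM.Oct K)) (e9.symm (e9 x))) +
        e9 ((f : (K × OM.Oct K) ≃ₗ[K] (K × OM.Oct K)) (e9.symm (e9 y)))
      rw [← e9_add, e9.symm_apply_apply, e9.symm_apply_apply, e9.symm_apply_apply, map_add,
        e9_add]
    · obtain ⟨x, rfl⟩ := e9.surjective x
      change e9 ((f : (K × OM.Oct K) ≃ₗ[K] (K × OM.Oct K)) (e9.symm (c • e9 x))) =
        c • e9 ((f : (K × OM.Oct K) ≃ₗ[K] (K × OM.Oct K)) (e9.symm (e9 x)))
      rw [← e9_smul, e9.symm_apply_apply, e9.symm_apply_apply, map_smul, e9_smul]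
    · obtain ⟨x, rfl⟩ := e9.surjective x
      change q9 (e9 ((f : (K × OM.Oct K) ≃ₗ[K] (K × OM.Oct K)) (e9.symm (e9 x)))) = q9 (e9 x)
      rw [e9.symm_apply_apply, e9_q, e9_q]
      exact f.2 x⟩
  invFun F := ⟨{ (e9.trans (F : Equiv.Perm (K × O K))).trans e9.symm with
      map_add' := by
        intro x y
        change e9.symm ((F : Equiv.Perm (K × O K)) (e9 (x + y))) =
          e9.symm ((F : Equiv.Perm (K × O K)) (e9 x)) + e9.symm ((F : Equiv.Perm (K × O K)) (e9 y))
        apply e9.injective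
        rw [e9_add, e9_add]
        simp only [e9.apply_symm_apply]
        exact F.2.1 _ _
      map_smul' := by
        intro c x
        change e9.symm ((F : Equiv.Perm (K × O K)) (e9 (c • x))) =
          c • e9.symm ((F : Equiv.Perm (K × O K)) (e9 x))
        apply e9.injective
        rw [e9_smul, e9_smul]
        simp only [e9.apply_symm_apply]
        exact F.2.2.1 _ _ }, by
    intro x
    change OM.q9 (e9.symm ((F : Equiv.Perm (K × O K)) (e9 x))) = OM.q9 x
    rw [← e9_q, e9.apply_symm_apply, ← e9_q]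
    exact F.2.2.2 _⟩
  left_inv f := by
    apply Subtype.ext
    apply LinearEquiv.ext
    intro x
    change e9.symm (e9 ((f : (K × OM.Oct K) ≃ₗ[K] (K × OM.Oct K)) (e9.symm (e9 x)))) =
      (f : (K × OM.Oct K) ≃ₗ[K] (K × OM.Oct K)) x
    rw [e9.symm_apply_apply, e9.symm_apply_apply]
  right_inv F := by
    apply Subtype.ext
    apply Equiv.ext
    intro x
    change e9 (e9.symm ((F : Equiv.Perm (K × O K)) (e9 (e9.symm x)))) =
      (F : Equiv.Perm (K × O K)) x
    rw [e9.apply_symm_apply, e9.apply_symm_apply]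
  map_mul' f g := by
    apply Subtype.ext
    apply Equiv.ext
    intro x
    change e9 ((f : (K × OM.Oct K) ≃ₗ[K] (K × OM.Oct K))
      ((g : (K × OM.Oct K) ≃ₗ[K] (K × OM.Oct K)) (e9.symm x))) =
      e9 ((f : (K × OM.Oct K) ≃ₗ[K] (K × OM.Oct K)) (e9.symm (e9
        ((g : (K × OM.Oct K) ≃ₗ[K] (K × OM.Oct K)) (e9.symm x)))))
    rw [e9.symm_apply_apply]

/-- `O₉` in the two forms. -/
def o9E' : O9Sub K ≃* O9 K := MulEquiv.refl (O9Sub K)

theorem odd_iso (hn : Odd n) : Nonempty (PGO n K ≃* SO n K) := by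
  obtain ⟨e⟩ := OM.odd_iso (K := K) hn
  exact ⟨(pgoE.trans e).trans soE.symm⟩

theorem herm_one (h2 : (2 : K) ≠ 0) : Subsingleton (AutHerm 1 K) :=
  haveI := OM.autP_one (K := K) h2
  autPE.symm.toEquiv.subsingleton

theorem herm_two (h2 : (2 : K) ≠ 0) : Nonempty (AutHerm 2 K ≃* O9 K) := by
  obtain ⟨e⟩ := OM.autP_two (K := K) h2
  exact ⟨((autPE.symm.trans e).trans o9E).trans o9E'⟩

theorem skew_SO_iff (h2 : (2 : K) ≠ 0) (h3 : (3 : K) ≠ 0) (hn : 1 ≤ n) :
    Nonempty (AutSkew n K ≃* G2 K × SO n K) ↔ Odd n := by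
  have key : G2 K × SO n K ≃* OM.G2 K × OM.SO n K := MulEquiv.prodCongr g2E.symm soE
  constructor
  · rintro ⟨e⟩
    by_contra hodd
    have hev : Even n := Nat.not_odd_iff_even.1 hodd
    obtain ⟨e'⟩ := OM.autM_iso (K := K) h2 h3 hn
    rcases Nat.lt_or_ge n 4 with h4 | h4
    · have hn2 : n = 2 := by
        rcases hev with ⟨m, hm⟩
        omega
      subst hn2
      exact (OM.no_iso_even_two h2 h3).false ((e'.symm.trans (autME.trans e)).trans key)
    · exact (OM.no_iso_even h2 h3 hev h4).false ((e'.symm.trans (autME.trans e)).trans key)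
  · intro hodd
    obtain ⟨e', -⟩ := skew_iso (K := K) h2 h3 hn
    obtain ⟨e⟩ := odd_iso (K := K) hodd
    exact ⟨e'.symm.trans (MulEquiv.prodCongr (MulEquiv.refl _) e)⟩

theorem herm_SO_iff (h2 : (2 : K) ≠ 0) (h3 : (3 : K) ≠ 0) (hn : 1 ≤ n) (hn3 : n ≠ 3) :
    Nonempty (AutHerm n K ≃* G2 K × SO n K) ↔ Odd n ∧ 5 ≤ n := by
  have key : G2 K × SO n K ≃* OM.G2 K × OM.SO n K := MulEquiv.prodCongr g2E.symm soE
  constructor
  · rintro ⟨e⟩
    rcases Nat.lt_or_ge n 4 with h4 | h4
    · have hn12 : n = 1 ∨ n = 2 := by omega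
      rcases hn12 with rfl | rfl
      · exact ((OM.no_iso_one h2).false ((autPE.trans e).trans key)).elim
      · exact ((OM.no_iso_P2 h2).false ((autPE.trans e).trans key)).elim
    · have hodd : Odd n := by
        by_contra hodd
        obtain ⟨e'⟩ := OM.autP_iso (K := K) h2 h4
        exact (OM.no_iso_even h2 h3 (Nat.not_odd_iff_even.1 hodd) h4).false
          ((e'.symm.trans (autPE.trans e)).trans key)
      refine ⟨hodd, ?_⟩
      rcases hodd with ⟨m, hm⟩
      omega
  · rintro ⟨hodd, h5⟩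
    obtain ⟨e', -⟩ := herm_iso (K := K) h2 (by omega : 4 ≤ n)
    obtain ⟨e⟩ := odd_iso (K := K) hodd
    exact ⟨e'.symm.trans (MulEquiv.prodCongr (MulEquiv.refl _) e)⟩

end K3h69.OS
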