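import Pool.Agent.K3h69.OM.Mat

/-!
# Jordan automorphisms of the symmetric matrices
-/

namespace K3h69.OM

open Matrix

variable {K : Type*} [Field K] {n : ℕ}

section comm

/-- A matrix commuting with all symmetric matrices is scalar. -/
theorem scalar_of_comm (i0 : Fin n) (B : Matrix (Fin n) (Fin n) K)
    (h : ∀ X : Matrix (Fin n) (Fin n) K, Xᵀ = X → B * X = X * B) :
    B = (B i0 i0) • 1 := by
  have hd : ∀ i j, i ≠ j → B i j = 0 := by
    intro i j hij
    have h1 := h (Matrix.single j j 1) (by simp)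
    have h2 := congrFun (congrFun h1 i) j
    simpa [Matrix.mul_apply, Matrix.single_apply, hij, Ne.symm hij] using h2
  have hdd : ∀ j, B j j = B i0 i0 := by
    intro j
    rcases eq_or_ne j i0 with rfl | hj
    · rfl
    have h1 := h (Matrix.single i0 j 1 + Matrix.single j i0 1) (by simp [add_comm])
    have h2 := congrFun (congrFun h1 i0) j
    simp only [Matrix.mul_add, Matrix.add_mul, Matrix.add_apply] at h2
    simp [Matrix.mul_apply, Matrix.single_apply, hj, Ne.symm hj] at h2
    exact h2.symm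
  ext i j
  rcases eq_or_ne i j with rfl | hij
  · simp [hdd]
  · simp [hd i j hij, hij]

end comm

/-- Every Jordan automorphism of the space of symmetric matrices is `X ↦ A X A⁻¹` with `A` a
similitude. -/
theorem jordan_conj (i0 : Fin n)
    (θ : Matrix (Fin n) (Fin n) K →ₗ[K] Matrix (Fin n) (Fin n) K) (h2 : (2 : K) ≠ 0)
    (hs : ∀ X, Xᵀ = X → (θ X)ᵀ = θ X)
    (hj : ∀ X Y, Xᵀ = X → Yᵀ = Y → θ (X * Y + Y * X) = θ X * θ Y + θ Y * θ X)
    (hi : ∀ X, Xᵀ = X → θ X = 0 → X = 0) :
    ∃ A : GL (Fin n) K, A ∈ GO n K ∧ ∀ X, Xᵀ = X →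
      θ X * (A : Matrix (Fin n) (Fin n) K) = A * X := by
  classical
  set E : Fin n → Matrix (Fin n) (Fin n) K := fun i => Matrix.single i i 1 with hE
  set S : Fin n → Matrix (Fin n) (Fin n) K :=
    fun j => Matrix.single i0 j 1 + Matrix.single j i0 1 with hS
  have hEs : ∀ i, (E i)ᵀ = E i := by intro i; simp [hE]
  have hSs : ∀ j, (S j)ᵀ = S j := by intro j; simp [hS, add_comm]
  have half : ∀ M N : Matrix (Fin n) (Fin n) K, M + M = N + N → M = N := by
    intro M N h
    have : (2 : K) • M = (2 : K) • N := by rw [two_smul, two_smul, h]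
    exact smul_right_injective _ h2 this
  have anti : ∀ P Q : Matrix (Fin n) (Fin n) K, P * P = P → P * Q + Q * P = 0 → P * Q = 0 := by
    intro P Q hP h
    have e1 : P * Q = -(Q * P) := eq_neg_of_add_eq_zero_left h
    have e2 : P * Q = -(P * Q * P) := by
      calc P * Q = P * (P * Q) := by rw [← Matrix.mul_assoc, hP]
        _ = P * (-(Q * P)) := by rw [e1]
        _ = -(P * Q * P) := by rw [Matrix.mul_neg, ← Matrix.mul_assoc]
    have e3 : P * Q * P = P * Q := by
      calc P * Q * P = (-(Q * P)) * P := by rw [e1]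
        _ = -(Q * P) := by rw [Matrix.neg_mul, Matrix.mul_assoc, hP]
        _ = P * Q := e1.symm
    apply half
    rw [e3] at e2
    rw [add_zero]
    calc P * Q + P * Q = -(P * Q) + P * Q := by rw [← e2]
      _ = 0 := by simp
  -- relations in the source
  have rEE : ∀ i, E i * E i + E i * E i = E i + E i := by
    intro i; simp [hE]
  have rEE' : ∀ i j, i ≠ j → E i * E j + E j * E i = 0 := by
    intro i j hij
    simp [hE, hij, Ne.symm hij]
  have rE0S : ∀ j, j ≠ i0 → E i0 * S j + S j * E i0 = S j := by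
    intro j hj
    simp [hE, hS, Matrix.mul_add, Matrix.add_mul, hj, Ne.symm hj]
  have rEjS : ∀ j, j ≠ i0 → E j * S j + S j * E j = S j := by
    intro j hj
    simp [hE, hS, Matrix.mul_add, Matrix.add_mul, hj, Ne.symm hj, add_comm]
  have rEiS : ∀ i j, i ≠ i0 → i ≠ j → E i * S j + S j * E i = 0 := by
    intro i j hi0 hij
    simp [hE, hS, Matrix.mul_add, Matrix.add_mul, hi0, Ne.symm hi0, hij, Ne.symm hij]
  have rSS : ∀ j, j ≠ i0 → S j * S j + S j * S j = (E i0 + E j) + (E i0 + E j) := by
    intro j hj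
    simp [hE, hS, Matrix.mul_add, Matrix.add_mul, hj, Ne.symm hj]
    abel
  have rSS' : ∀ j k, j ≠ i0 → k ≠ i0 → j ≠ k → S j * S k + S k * S j =
      Matrix.single j k 1 + Matrix.single k j 1 := by
    intro j k hj hk hjk
    simp [hS, Matrix.mul_add, Matrix.add_mul, hj, hk, Ne.symm hj, Ne.symm hk, hjk, Ne.symm hjk]
  -- images
  set F : Fin n → Matrix (Fin n) (Fin n) K := fun i => θ (E i) with hF
  set G : Fin n → Matrix (Fin n) (Fin n) K := fun i => θ (S i) with hG
  have hFF : ∀ i, F i * F i = F i := by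
    intro i
    have := hj (E i) (E i) (hEs i) (hEs i)
    rw [rEE, map_add] at this
    exact (half _ _ this).symm
  have hFF' : ∀ i j, i ≠ j → F i * F j = 0 := by
    intro i j hij
    have := hj (E i) (E j) (hEs i) (hEs j)
    rw [rEE' i j hij, map_zero] at this
    exact anti _ _ (hFF i) this.symm
  have hF0G : ∀ j, j ≠ i0 → F i0 * G j + G j * F i0 = G j := by
    intro j hj'
    have := hj (E i0) (S j) (hEs i0) (hSs j)
    rw [rE0S j hj'] at this
    exact this.symm
  have hFjG : ∀ j, j ≠ i0 → F j * G j + G j * F j = G j := by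
    intro j hj'
    have := hj (E j) (S j) (hEs j) (hSs j)
    rw [rEjS j hj'] at this
    exact this.symm
  have hFiG : ∀ i j, i ≠ i0 → i ≠ j → F i * G j + G j * F i = 0 := by
    intro i j h1 h3
    have := hj (E i) (S j) (hEs i) (hSs j)
    rw [rEiS i j h1 h3, map_zero] at this
    exact this.symm
  have hGG : ∀ j, j ≠ i0 → G j * G j = F i0 + F j := by
    intro j hj'
    have := hj (S j) (S j) (hSs j) (hSs j)
    rw [rSS j hj', map_add, map_add] at this
    exact (half _ _ this).symm
  -- a vector in the range of `F i0`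
  have hF0 : F i0 ≠ 0 := by
    intro h
    have := hi (E i0) (hEs i0) h
    have h3 := congrFun (congrFun this i0) i0
    simp [hE] at h3
  obtain ⟨c, hc⟩ : ∃ c, (fun r => F i0 r c) ≠ 0 := by
    by_contra hcon
    push Not at hcon
    apply hF0
    ext r c
    exact congrFun (hcon c) r
  set v : Fin n → K := fun r => F i0 r c with hv
  have hFv : F i0 *ᵥ v = v := by
    have : v = F i0 *ᵥ (Pi.single c 1) := by
      ext r; simp [hv]
    rw [this, Matrix.mulVec_mulVec, hFF]
  set w : Fin n → (Fin n → K) := fun j => if j = i0 then v else G j *ᵥ v with hw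
  have w0 : w i0 = v := by simp [hw]
  have wj : ∀ j, j ≠ i0 → w j = G j *ᵥ v := by intro j hj'; simp [hw, hj']
  have hFiv : ∀ i, i ≠ i0 → F i *ᵥ v = 0 := by
    intro i hi0
    rw [← hFv, Matrix.mulVec_mulVec, hFF' i i0 hi0, Matrix.zero_mulVec]
  -- (1)
  have hFw : ∀ i, F i *ᵥ w i = w i := by
    intro i
    rcases eq_or_ne i i0 with rfl | hi0
    · rw [w0, hFv]
    · rw [wj i hi0, Matrix.mulVec_mulVec]
      have : F i * G i = G i - G i * F i := eq_sub_of_add_eq (hFjG i hi0)
      rw [this, Matrix.sub_mulVec, ← Matrix.mulVec_mulVec, hFiv i hi0]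
      simp
  have hFw' : ∀ i j, i ≠ j → F i *ᵥ w j = 0 := by
    intro i j hij
    rcases eq_or_ne j i0 with rfl | hj0
    · rw [w0, hFiv i hij]
    · rw [wj j hj0, Matrix.mulVec_mulVec]
      rcases eq_or_ne i i0 with rfl | hi0
      · have : F i * G j = G j - G j * F i := eq_sub_of_add_eq (hF0G j hj0)
        rw [this, Matrix.sub_mulVec, ← Matrix.mulVec_mulVec, hFv]
        simp
      · have : F i * G j = -(G j * F i) := eq_neg_of_add_eq_zero_left (hFiG i j hi0 hij)
        rw [this, Matrix.neg_mulVec, ← Matrix.mulVec_mulVec, hFiv i hi0]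
        simp
  -- (2)
  have hGw0 : ∀ j, j ≠ i0 → G j *ᵥ w i0 = w j := by
    intro j hj0; rw [w0, wj j hj0]
  have hGwj : ∀ j, j ≠ i0 → G j *ᵥ w j = w i0 := by
    intro j hj0
    rw [wj j hj0, Matrix.mulVec_mulVec, hGG j hj0, Matrix.add_mulVec, hFv, hFiv j hj0, w0]
    simp
  have hGwk : ∀ j k, j ≠ i0 → k ≠ i0 → k ≠ j → G j *ᵥ w k = 0 := by
    intro j k hj0 hk0 hkj
    have a1 : G j *ᵥ w k = F i0 *ᵥ (G j *ᵥ w k) := by
      have : F i0 * G j = G j - G j * F i0 := eq_sub_of_add_eq (hF0G j hj0)
      rw [Matrix.mulVec_mulVec, this, Matrix.sub_mulVec, ← Matrix.mulVec_mulVec (w k) (G j) (F i0),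
        hFw' i0 k (Ne.symm hk0)]
      simp
    have a2 : G j *ᵥ w k = -(F k *ᵥ (G j *ᵥ w k)) := by
      have : G j * F k = -(F k * G j) :=
        eq_neg_of_add_eq_zero_right (hFiG k j hk0 hkj)
      calc G j *ᵥ w k = G j *ᵥ (F k *ᵥ w k) := by rw [hFw]
        _ = -(F k *ᵥ (G j *ᵥ w k)) := by
          rw [Matrix.mulVec_mulVec, this, Matrix.neg_mulVec, Matrix.mulVec_mulVec]
    rw [a2, a1, Matrix.mulVec_mulVec, hFF' k i0 hk0]
    simp
  set A : Matrix (Fin n) (Fin n) K := Matrix.of fun r j => w j r with hA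
  -- column criterion
  have hcol : ∀ (M N : Matrix (Fin n) (Fin n) K),
      (∀ j, M *ᵥ w j = A *ᵥ (fun k => N k j)) → M * A = A * N := by
    intro M N h
    ext r j
    have := congrFun (h j) r
    simpa [Matrix.mulVec, Matrix.mul_apply, dotProduct, hA] using this
  have hAe : ∀ j, A *ᵥ (Pi.single j 1) = w j := by
    intro j; ext r; simp [hA]
  have pE : ∀ i, F i * A = A * E i := by
    intro i
    apply hcol
    intro j
    rcases eq_or_ne i j with rfl | hij
    · rw [hFw]
      have : (fun k => E i k i) = Pi.single i (1 : K) := by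
        ext k; simp [hE, Matrix.single_apply, Pi.single_apply, eq_comm]
      rw [this, hAe]
    · rw [hFw' i j hij]
      have : (fun k => E i k j) = 0 := by
        ext k; simp [hE, Matrix.single_apply, hij]
      rw [this]; simp
  have pS : ∀ i, i ≠ i0 → G i * A = A * S i := by
    intro i hi0
    apply hcol
    intro j
    rcases eq_or_ne j i0 with rfl | hj0
    · rw [hGw0 i hi0]
      have : (fun k => S i k j) = Pi.single i (1 : K) := by
        ext k
        simp [hS, Matrix.single_apply, Pi.single_apply, hi0, eq_comm]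
      rw [this, hAe]
    · rcases eq_or_ne j i with rfl | hji
      · rw [hGwj j hj0]
        have : (fun k => S j k j) = Pi.single i0 (1 : K) := by
          ext k
          simp [hS, Matrix.single_apply, Pi.single_apply, Ne.symm hi0, eq_comm]
        rw [this, hAe]
      · rw [hGwk i j hi0 hj0 hji]
        have : (fun k => S i k j) = 0 := by
          ext k
          simp [hS, Matrix.single_apply, Ne.symm hji, Ne.symm hj0]
        rw [this]; simp
  have pJ : ∀ X Y, Xᵀ = X → Yᵀ = Y → θ X * A = A * X → θ Y * A = A * Y →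
      θ (X * Y + Y * X) * A = A * (X * Y + Y * X) := by
    intro X Y hX hY h1 h3
    rw [hj X Y hX hY, Matrix.add_mul, Matrix.mul_add, Matrix.mul_assoc, h3, ← Matrix.mul_assoc, h1,
      Matrix.mul_assoc, Matrix.mul_assoc (θ Y), h1, ← Matrix.mul_assoc (θ Y), h3, Matrix.mul_assoc]
  have pAll : ∀ i j, θ (Matrix.single i j 1 + Matrix.single j i 1) * A =
      A * (Matrix.single i j 1 + Matrix.single j i 1) := by
    intro i j
    rcases eq_or_ne i j with rfl | hij
    · rw [map_add, Matrix.add_mul, Matrix.mul_add]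
      have := pE i
      simp only [hF, hE] at this
      rw [this]
    · rcases eq_or_ne i i0 with rfl | hi0
      · exact pS j (Ne.symm hij)
      · rcases eq_or_ne j i0 with rfl | hj0
        · have := pS i hi0
          simp only [hG, hS] at this
          rw [add_comm (Matrix.single i j (1 : K))]
          exact this
        · rw [← rSS' i j hi0 hj0 hij]
          exact pJ _ _ (hSs i) (hSs j) (pS i hi0) (pS j hj0)
  have hX : ∀ X, Xᵀ = X → θ X * A = A * X := by
    intro X hXs
    have hsum : X + X = ∑ i, ∑ j, X i j • (Matrix.single i j (1 : K) + Matrix.single j i 1) := by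
      have e1 : X = ∑ i, ∑ j, X i j • Matrix.single i j (1 : K) := by
        conv_lhs => rw [Matrix.matrix_eq_sum_single X]
        simp [Matrix.smul_single]
      have e2 : X = ∑ i, ∑ j, X i j • Matrix.single j i (1 : K) := by
        conv_lhs => rw [← hXs, e1]
        simp only [Matrix.transpose_sum, Matrix.transpose_smul, Matrix.transpose_single]
      calc X + X = (∑ i, ∑ j, X i j • Matrix.single i j (1 : K)) +
            ∑ i, ∑ j, X i j • Matrix.single j i (1 : K) := by rw [← e1, ← e2]
        _ = _ := by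
          simp only [← Finset.sum_add_distrib, ← smul_add]
    have h4 : θ (X + X) * A = A * (X + X) := by
      rw [hsum]
      simp only [map_sum, map_smul, Matrix.sum_mul, Matrix.mul_sum, Matrix.smul_mul,
        Matrix.mul_smul, pAll]
    rw [map_add, Matrix.add_mul, Matrix.mul_add] at h4
    exact half _ _ h4
  have hwne : ∀ i, w i ≠ 0 := by
    intro i h
    rcases eq_or_ne i i0 with rfl | hi0
    · rw [w0] at h; exact hc h
    · have := hGwj i hi0
      rw [h, Matrix.mulVec_zero, w0] at this
      exact hc this.symm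
  have hdet : A.det ≠ 0 := by
    intro h
    obtain ⟨x, hx0, hx⟩ := Matrix.exists_mulVec_eq_zero_iff.2 h
    obtain ⟨i, hxi⟩ : ∃ i, x i ≠ 0 := by
      by_contra hcon
      push Not at hcon
      exact hx0 (funext hcon)
    have h5 : (F i * A) *ᵥ x = 0 := by rw [← Matrix.mulVec_mulVec, hx, Matrix.mulVec_zero]
    rw [pE i, ← Matrix.mulVec_mulVec] at h5
    have h6 : E i *ᵥ x = x i • Pi.single i (1 : K) := by
      ext k
      rcases eq_or_ne k i with rfl | hk
      · simp [hE, Matrix.mulVec, dotProduct, Matrix.single_apply]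
      · simp [hE, Matrix.mulVec, dotProduct, Matrix.single_apply, hk, Ne.symm hk]
    rw [h6, Matrix.mulVec_smul, hAe] at h5
    exact (smul_ne_zero hxi (hwne i)) h5
  have hU : IsUnit A.det := isUnit_iff_ne_zero.2 hdet
  refine ⟨Matrix.GeneralLinearGroup.mk'' A hU, ?_, ?_⟩
  · refine mem_GO.2 ⟨(Aᵀ * A) i0 i0, ?_⟩
    change Aᵀ * A = _
    apply scalar_of_comm
    intro X hXs
    have e1 : Aᵀ * A * X = Aᵀ * θ X * A := by
      rw [Matrix.mul_assoc, ← hX X hXs, ← Matrix.mul_assoc]
    have e2 : (Aᵀ * A * X)ᵀ = Aᵀ * A * X := by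
      rw [e1, Matrix.transpose_mul, Matrix.transpose_mul, hs X hXs, Matrix.transpose_transpose,
        ← Matrix.mul_assoc]
    rw [← e2, Matrix.transpose_mul, Matrix.transpose_mul, Matrix.transpose_transpose, hXs]
  · intro X hXs
    exact hX X hXs

end K3h69.OM
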