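import Pool.Agent.K3h69.OM.Act

/-!
# Coordinate identities along the seven lines of the Fano plane
-/

namespace K3h69.OM

open Matrix

set_option linter.unusedSectionVars false
set_option maxHeartbeats 400000

variable {K : Type*} [Field K] {n : ℕ}

/-- first unit of the line -/
def l1 : Fin 7 → Fin 8 := ![1, 1, 1, 2, 2, 3, 3]
/-- second unit of the line -/
def l2 : Fin 7 → Fin 8 := ![2, 4, 6, 4, 5, 4, 5]
/-- third unit of the line -/
def l3 : Fin 7 → Fin 8 := ![3, 5, 7, 6, 7, 7, 6]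
/-- sign of the line -/
def sg : Fin 7 → K := ![1, 1, -1, 1, 1, 1, -1]

/-- The seven linear forms. -/
def L : Fin 7 → (Fin 8 → K) → K :=
  ![fun v => -v 4 - v 5 - v 6 - v 7, fun v => v 2 + v 3 - v 6 - v 7,
    fun v => v 2 + v 3 - v 4 - v 5, fun v => v 1 + v 3 - v 5 - v 7,
    fun v => v 1 + v 3 - v 4 - v 6, fun v => v 1 + v 2 - v 5 - v 6,
    fun v => v 1 + v 2 - v 4 - v 7]

theorem L_inv (h2 : (2 : K) ≠ 0) {v : Fin 8 → K} (h : ∀ t, L t v = 0) {k : Fin 8} (hk : k ≠ 0) :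
    v k = 0 := by
  have h0 : -v 4 - v 5 - v 6 - v 7 = 0 := h 0
  have h1 : v 2 + v 3 - v 6 - v 7 = 0 := h 1
  have h2' : v 2 + v 3 - v 4 - v 5 = 0 := h 2
  have h3 : v 1 + v 3 - v 5 - v 7 = 0 := h 3
  have h4 : v 1 + v 3 - v 4 - v 6 = 0 := h 4
  have h5 : v 1 + v 2 - v 5 - v 6 = 0 := h 5
  have h6 : v 1 + v 2 - v 4 - v 7 = 0 := h 6
  have h4' : (4 : K) ≠ 0 := by
    have : (4 : K) = 2 * 2 := by norm_num
    rw [this]; exact mul_ne_zero h2 h2
  have key : ∀ a : K, 4 * a = 0 → a = 0 := fun a ha => (mul_eq_zero.1 ha).resolve_left h4'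
  have c1 : v 1 = 0 := key _ (by linear_combination -h0 - h1 - h2' + h3 + h4 + h5 + h6)
  have c2 : v 2 = 0 := key _ (by linear_combination -h0 + h1 + h2' - h3 - h4 + h5 + h6)
  have c3 : v 3 = 0 := key _ (by linear_combination -h0 + h1 + h2' + h3 + h4 - h5 - h6)
  have c4 : v 4 = 0 := key _ (by linear_combination -h0 + h1 - h2' + h3 - h4 + h5 - h6)
  have c5 : v 5 = 0 := key _ (by linear_combination -h0 + h1 - h2' - h3 + h4 - h5 + h6)
  have c6 : v 6 = 0 := key _ (by linear_combination -h0 - h1 + h2' + h3 - h4 - h5 + h6)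
  have c7 : v 7 = 0 := key _ (by linear_combination -h0 - h1 + h2' - h3 + h4 + h5 - h6)
  fin_cases k
  · exact absurd rfl hk
  all_goals assumption

/-- pointwise product -/
def pw (x z : Oct K) : Fin 8 → K := fun k => x k * z k

theorem lnF (t : Fin 7) (x : Oct K) :
    (x * ((Oct.conj x * Oct.e (l1 t)) * Oct.e (l2 t)) -
      (x * Oct.conj x) * (Oct.e (l1 t) * Oct.e (l2 t)) : Oct K) (l3 t) = -2 * sg t * L t (pw x x) := by
  fin_cases t <;>
    simp [l1, l2, l3, sg, L, pw, Oct.e1, Oct.e2, Oct.e3, Oct.e4, Oct.e5, Oct.e6, Oct.mul_def,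
      Oct.conj_def] <;> ring

theorem lnG (t : Fin 7) (x : Oct K) :
    (Oct.e (l1 t) * ((x * Oct.conj x) * Oct.e (l2 t)) -
      (Oct.e (l1 t) * x) * (Oct.conj x * Oct.e (l2 t)) : Oct K) (l3 t) = 2 * sg t * L t (pw x x) := by
  fin_cases t <;>
    simp [l1, l2, l3, sg, L, pw, Oct.e1, Oct.e2, Oct.e3, Oct.e4, Oct.e5, Oct.e6, Oct.mul_def,
      Oct.conj_def] <;> ring

theorem lnH1 (t : Fin 7) (x : Oct K) :
    (((Oct.e (l1 t) * x) * Oct.conj (Oct.e (l2 t))) * x -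
      (Oct.e (l1 t) * x) * (Oct.conj (Oct.e (l2 t)) * x) : Oct K) (l3 t) =
      -2 * sg t * L t (pw x x) := by
  fin_cases t <;>
    simp [l1, l2, l3, sg, L, pw, Oct.e1, Oct.e2, Oct.e3, Oct.e4, Oct.e5, Oct.e6, Oct.mul_def,
      Oct.conj_def] <;> ring

theorem lnH2 (t : Fin 7) (x : Oct K) :
    (x * ((Oct.conj (Oct.e (l1 t)) * x) * Oct.e (l2 t)) -
      (x * Oct.conj (Oct.e (l1 t))) * (x * Oct.e (l2 t)) : Oct K) (l3 t) = 0 := by
  fin_cases t <;>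
    simp [l1, l2, l3, Oct.e1, Oct.e2, Oct.e3, Oct.e4, Oct.e5, Oct.e6, Oct.mul_def,
      Oct.conj_def] <;> ring

theorem lnH3 (t : Fin 7) (x : Oct K) :
    (x * (Oct.conj (Oct.e (l2 t)) * (Oct.conj (Oct.e (l1 t)) * x)) -
      (x * Oct.conj (Oct.e (l2 t))) * (Oct.conj (Oct.e (l1 t)) * x) : Oct K) (l3 t) =
      2 * sg t * L t (pw x x) := by
  fin_cases t <;>
    simp [l1, l2, l3, sg, L, pw, Oct.e1, Oct.e2, Oct.e3, Oct.e4, Oct.e5, Oct.e6, Oct.mul_def,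
      Oct.conj_def] <;> ring

theorem lnD (t : Fin 7) (x z : Oct K) :
    (Oct.e (l1 t) * ((x * z) * Oct.conj (Oct.e (l2 t))) -
      (Oct.e (l1 t) * x) * (z * Oct.conj (Oct.e (l2 t))) : Oct K) (l3 t) =
      2 * sg t * L t (pw x z) := by
  fin_cases t <;>
    simp [l1, l2, l3, sg, L, pw, Oct.e1, Oct.e2, Oct.e3, Oct.e4, Oct.e5, Oct.e6, Oct.mul_def,
      Oct.conj_def] <;> ring

theorem lnA (t : Fin 7) (x z : Oct K) :
    (((Oct.e (l1 t) * x) * Oct.e (l2 t)) * z -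
      (Oct.e (l1 t) * x) * (Oct.e (l2 t) * z) : Oct K) (l3 t) =
      2 * sg t * L t (pw x z) := by
  fin_cases t <;>
    simp [l1, l2, l3, sg, L, pw, Oct.e1, Oct.e2, Oct.e3, Oct.e4, Oct.e5, Oct.e6, Oct.mul_def,
      Oct.conj_def] <;> ring

theorem lnC (t : Fin 7) (x z : Oct K) :
    (x * ((Oct.conj (Oct.e (l1 t)) * z) * Oct.conj (Oct.e (l2 t))) -
      (x * Oct.conj (Oct.e (l1 t))) * (z * Oct.conj (Oct.e (l2 t))) : Oct K) (l3 t) = 0 := by
  fin_cases t <;>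
    simp [l1, l2, l3, Oct.e1, Oct.e2, Oct.e3, Oct.e4, Oct.e5, Oct.e6, Oct.mul_def,
      Oct.conj_def] <;> ring

theorem lnB (t : Fin 7) (r : K) (x : Oct K) :
    (Oct.C r * ((Oct.e (l1 t) * x) * Oct.conj (Oct.e (l2 t))) -
      (Oct.C r * Oct.e (l1 t)) * (x * Oct.conj (Oct.e (l2 t))) : Oct K) (l3 t) = 0 := by
  fin_cases t <;>
    simp [l1, l2, l3, Oct.e1, Oct.e2, Oct.e3, Oct.e4, Oct.e5, Oct.e6, Oct.mul_def,
      Oct.conj_def] <;> ring

end K3h69.OM
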