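import Pool.Agent.K3h69.OM.Oct
import Pool.Agent.K3h69.OM.Defs

/-!
# Matrices over the split octonions, and their automorphism groups
-/

namespace K3h69.OM

set_option linter.unusedSectionVars false

open Matrix

variable {K : Type*} [Field K] {n : ℕ}

/-- `n × n` matrices over the octonions. -/
abbrev OMat (n : ℕ) (K : Type*) := Matrix (Fin n) (Fin n) (Oct K)

/-- The involution `J`: transpose and conjugate every entry. -/
def J (X : OMat n K) : OMat n K := fun i j => Oct.conj (X j i)

theorem J_apply (X : OMat n K) (i j : Fin n) : J X i j = Oct.conj (X j i) := rfl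

theorem J_add (X Y : OMat n K) : J (X + Y) = J X + J Y := by
  ext i j; simp [J]

theorem J_sub (X Y : OMat n K) : J (X - Y) = J X - J Y := by
  ext i j; simp [J]

theorem J_smul (c : K) (X : OMat n K) : J (c • X) = c • J X := by
  ext i j; simp [J]

theorem J_mul (X Y : OMat n K) : J (X * Y) = J Y * J X := by
  ext1 i j
  simp only [J, Matrix.mul_apply, map_sum, Oct.conj_mul]

/-- Hermitian octonion matrices. -/
def SymP (n : ℕ) (K : Type*) [Field K] : Submodule K (OMat n K) where
  carrier := {X | J X = X}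
  add_mem' := by
    intro X Y hX hY
    simp only [Set.mem_setOf_eq] at *
    rw [J_add, hX, hY]
  zero_mem' := by
    simp only [Set.mem_setOf_eq]
    ext i j; simp [J]
  smul_mem' := by
    intro c X hX
    simp only [Set.mem_setOf_eq] at *
    rw [J_smul, hX]

/-- Skew-Hermitian octonion matrices. -/
def SymM (n : ℕ) (K : Type*) [Field K] : Submodule K (OMat n K) where
  carrier := {X | J X = -X}
  add_mem' := by
    intro X Y hX hY
    simp only [Set.mem_setOf_eq] at *
    rw [J_add, hX, hY]; abel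
  zero_mem' := by
    simp only [Set.mem_setOf_eq]
    ext i j; simp [J]
  smul_mem' := by
    intro c X hX
    simp only [Set.mem_setOf_eq] at *
    rw [J_smul, hX]; simp

theorem mem_SymP {X : OMat n K} : X ∈ SymP n K ↔ J X = X := Iff.rfl
theorem mem_SymM {X : OMat n K} : X ∈ SymM n K ↔ J X = -X := Iff.rfl

/-- The product `X ∘ Y = ½ (XY + YX)` on Hermitian matrices. -/
def jmul (X Y : SymP n K) : SymP n K :=
  ⟨(1 / 2 : K) • ((X : OMat n K) * Y + Y * X), by
    rw [mem_SymP, J_smul, J_add, J_mul, J_mul, mem_SymP.1 X.2, mem_SymP.1 Y.2, add_comm]⟩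

/-- The product `[X, Y] = XY - YX` on skew-Hermitian matrices. -/
def lmul (X Y : SymM n K) : SymM n K :=
  ⟨(X : OMat n K) * Y - Y * X, by
    rw [mem_SymM, J_sub, J_mul, J_mul, mem_SymM.1 X.2, mem_SymM.1 Y.2]
    simp [Matrix.neg_mul, Matrix.mul_neg]⟩

theorem jmul_coe (X Y : SymP n K) :
    ((jmul X Y : SymP n K) : OMat n K) = (1 / 2 : K) • ((X : OMat n K) * Y + Y * X) := rfl

theorem lmul_coe (X Y : SymM n K) :
    ((lmul X Y : SymM n K) : OMat n K) = (X : OMat n K) * Y - Y * X := rfl

/-- The group of `K`-linear bijections of `V` that preserve the product `m`. -/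
def AutAlg (K : Type*) [Field K] {V : Type*} [AddCommGroup V] [Module K V] (m : V → V → V) :
    Subgroup (V ≃ₗ[K] V) where
  carrier := {f | ∀ x y, f (m x y) = m (f x) (f y)}
  mul_mem' := by
    intro f g hf hg x y
    simp only [Set.mem_setOf_eq] at hf hg
    change f (g (m x y)) = m (f (g x)) (f (g y))
    rw [hg, hf]
  one_mem' := by intro x y; rfl
  inv_mem' := by
    intro f hf x y
    simp only [Set.mem_setOf_eq] at hf
    change f.symm (m x y) = m (f.symm x) (f.symm y)
    apply f.injective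
    rw [hf]; simp

theorem mem_AutAlg {V : Type*} [AddCommGroup V] [Module K V] {m : V → V → V} {f : V ≃ₗ[K] V} :
    f ∈ AutAlg K m ↔ ∀ x y, f (m x y) = m (f x) (f y) := Iff.rfl

/-- `G₂(K)`: the automorphism group of the split octonion algebra. -/
abbrev G2 (K : Type*) [Field K] := AutAlg K (fun x y : Oct K => x * y)

/-- The automorphism group of the algebra of Hermitian matrices. -/
abbrev AutP (n : ℕ) (K : Type*) [Field K] := AutAlg K (jmul : SymP n K → SymP n K → SymP n K)

/-- The automorphism group of the algebra of skew-Hermitian matrices. -/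
abbrev AutM (n : ℕ) (K : Type*) [Field K] := AutAlg K (lmul : SymM n K → SymM n K → SymM n K)

/-! ### Real matrices inside `M_n(𝕆)` -/

/-- Embedding of `M_n(K)` into `M_n(𝕆)`. -/
def R (A : Matrix (Fin n) (Fin n) K) : OMat n K := fun i j => Oct.C (A i j)

theorem R_apply (A : Matrix (Fin n) (Fin n) K) (i j : Fin n) : R A i j = Oct.C (A i j) := rfl

theorem mul_assoc_of {X Y Z : OMat n K}
    (h : ∀ i k l j, (X i k * Y k l) * Z l j = X i k * (Y k l * Z l j)) :
    X * Y * Z = X * (Y * Z) := by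
  ext1 i j
  simp only [Matrix.mul_apply, Finset.sum_mul, Finset.mul_sum]
  rw [Finset.sum_comm]
  exact Finset.sum_congr rfl fun k _ => Finset.sum_congr rfl fun l _ => h _ _ _ _

theorem R_mul_mul (A : Matrix (Fin n) (Fin n) K) (X Y : OMat n K) :
    R A * X * Y = R A * (X * Y) :=
  mul_assoc_of fun i k l j => by simp [R_apply, smul_mul_assoc]

theorem mul_R_mul (A : Matrix (Fin n) (Fin n) K) (X Y : OMat n K) :
    X * R A * Y = X * (R A * Y) :=
  mul_assoc_of fun i k l j => by simp [R_apply, smul_mul_assoc, mul_smul_comm]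

theorem mul_mul_R (A : Matrix (Fin n) (Fin n) K) (X Y : OMat n K) :
    X * Y * R A = X * (Y * R A) :=
  mul_assoc_of fun i k l j => by simp [R_apply, mul_smul_comm]

theorem R_mul (A B : Matrix (Fin n) (Fin n) K) : R (A * B) = R A * R B := by
  ext1 i j
  simp only [R_apply, Matrix.mul_apply, Oct.C_mul]
  simp only [Oct.C_eq_smul, Finset.sum_smul, smul_smul]

@[simp] theorem R_one : R (1 : Matrix (Fin n) (Fin n) K) = 1 := by
  ext1 i j
  by_cases h : i = j
  · subst h; simp [R_apply]
  · simp [R_apply, h]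

theorem R_add (A B : Matrix (Fin n) (Fin n) K) : R (A + B) = R A + R B := by
  ext1 i j; simp [R_apply, Oct.C_add]

theorem R_smul (c : K) (A : Matrix (Fin n) (Fin n) K) : R (c • A) = c • R A := by
  ext1 i j; simp [R_apply, Oct.C_eq_smul, smul_smul]

theorem J_R (A : Matrix (Fin n) (Fin n) K) : J (R A) = R Aᵀ := by
  ext1 i j; simp [R_apply, J_apply]

theorem R_injective : Function.Injective (R : Matrix (Fin n) (Fin n) K → OMat n K) := by
  intro A B h
  ext i j
  have := congrFun (congrFun h i) j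
  have h2 := congrFun this 0
  simpa [R_apply] using h2

/-! ### The action of `(g, A)` -/

/-- The map `X ↦ A g(X) A⁻¹`. -/
def act (g : Oct K ≃ₗ[K] Oct K) (A : GL (Fin n) K) (X : OMat n K) : OMat n K :=
  R (A : Matrix (Fin n) (Fin n) K) * X.map g * R ((A⁻¹ : GL (Fin n) K) : Matrix (Fin n) (Fin n) K)

theorem map_mul_of {g : Oct K ≃ₗ[K] Oct K} (hg : g ∈ G2 K) (X Y : OMat n K) :
    (X * Y).map g = X.map g * Y.map g := by
  ext1 i j
  simp only [Matrix.map_apply, Matrix.mul_apply, map_sum]
  exact Finset.sum_congr rfl fun k _ => hg _ _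

theorem g_one {g : Oct K ≃ₗ[K] Oct K} (hg : g ∈ G2 K) : g 1 = 1 := by
  have h := fun y => hg 1 y
  -- `g y = g 1 * g y` for all `y`; take `g y = 1`
  have h1 := h (g.symm 1)
  simp only [one_mul] at h1
  simpa using h1.symm

theorem g_C {g : Oct K ≃ₗ[K] Oct K} (hg : g ∈ G2 K) (r : K) : g (Oct.C r) = Oct.C r := by
  rw [Oct.C_eq_smul, map_smul, g_one hg]

theorem map_R {g : Oct K ≃ₗ[K] Oct K} (hg : g ∈ G2 K) (A : Matrix (Fin n) (Fin n) K) :
    (R A).map g = R A := by
  ext1 i j; simp [R_apply, g_C hg]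

theorem R_mul_inv (A : GL (Fin n) K) :
    R (A : Matrix (Fin n) (Fin n) K) * R ((A⁻¹ : GL (Fin n) K) : Matrix (Fin n) (Fin n) K) = 1 := by
  rw [← R_mul, ← Units.val_mul]; simp

theorem R_inv_mul (A : GL (Fin n) K) :
    R ((A⁻¹ : GL (Fin n) K) : Matrix (Fin n) (Fin n) K) * R (A : Matrix (Fin n) (Fin n) K) = 1 := by
  rw [← R_mul, ← Units.val_mul]; simp

theorem act_mul {g : Oct K ≃ₗ[K] Oct K} (hg : g ∈ G2 K) (A : GL (Fin n) K) (X Y : OMat n K) :
    act g A (X * Y) = act g A X * act g A Y := by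
  unfold act
  rw [map_mul_of hg]
  have hQP := R_inv_mul A
  rw [mul_mul_R, mul_mul_R, mul_mul_R, mul_mul_R, R_mul_mul, mul_R_mul, ← R_mul_mul (A⁻¹ : GL _ _).1,
    hQP, one_mul]

theorem act_act (g g' : Oct K ≃ₗ[K] Oct K) (hg : g ∈ G2 K) (A A' : GL (Fin n) K)
    (X : OMat n K) :
    act g A (act g' A' X) = act (g * g') (A * A') X := by
  unfold act
  rw [map_mul_of hg, map_mul_of hg, map_R hg, map_R hg]
  have hm : (X.map g').map g = X.map (g * g' : Oct K ≃ₗ[K] Oct K) := by
    ext1 i j; rfl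
  rw [hm, _root_.mul_inv_rev, Units.val_mul, Units.val_mul, R_mul, R_mul]
  set Y := X.map (g * g' : Oct K ≃ₗ[K] Oct K)
  rw [R_mul_mul, R_mul_mul, R_mul_mul]
  simp only [mul_R_mul, R_mul_mul, mul_mul_R]

theorem act_one_one (X : OMat n K) : act 1 1 X = X := by
  unfold act
  have : X.map (1 : Oct K ≃ₗ[K] Oct K) = X := by ext1 i j; rfl
  rw [this]; simp

theorem act_add (g : Oct K ≃ₗ[K] Oct K) (A : GL (Fin n) K) (X Y : OMat n K) :
    act g A (X + Y) = act g A X + act g A Y := by
  unfold act
  have : (X + Y).map g = X.map g + Y.map g := by ext1 i j; simp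
  rw [this, Matrix.mul_add, Matrix.add_mul]

theorem act_sub (g : Oct K ≃ₗ[K] Oct K) (A : GL (Fin n) K) (X Y : OMat n K) :
    act g A (X - Y) = act g A X - act g A Y := by
  unfold act
  have : (X - Y).map g = X.map g - Y.map g := by ext1 i j; simp
  rw [this, Matrix.mul_sub, Matrix.sub_mul]

theorem act_smul (g : Oct K ≃ₗ[K] Oct K) (A : GL (Fin n) K) (c : K) (X : OMat n K) :
    act g A (c • X) = c • act g A X := by
  unfold act
  have : (c • X).map g = c • X.map g := by ext1 i j; simp
  rw [this, Matrix.mul_smul, Matrix.smul_mul]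

end K3h69.OM
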