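import Pool.Agent.K3h69.OM.Act

/-!
# Automorphisms of the skew-Hermitian octonion matrices
-/

namespace K3h69.OM

open Matrix

set_option linter.unusedSectionVars false
set_option maxHeartbeats 400000

variable {K : Type*} [Field K] {n : ℕ}

/-- Commutator. -/
def br (X Y : OMat n K) : OMat n K := X * Y - Y * X

/-- Jacobian. -/
def Jac (X Y Z : OMat n K) : OMat n K := br (br X Y) Z + br (br Y Z) X + br (br Z X) Y

/-- `t ⊗ x`. -/
def tn (t : Matrix (Fin n) (Fin n) K) (x : Oct K) : OMat n K := fun i j => t i j • x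

/-- `x · I`. -/
def sc (n : ℕ) (x : Oct K) : OMat n K := tn (1 : Matrix (Fin n) (Fin n) K) x

/-- The coordinate matrices. -/
def co (k : Fin 8) (X : OMat n K) : Matrix (Fin n) (Fin n) K := fun i j => X i j k

theorem tn_apply (t : Matrix (Fin n) (Fin n) K) (x : Oct K) (i j : Fin n) :
    tn t x i j = t i j • x := rfl

theorem tn_mul (s t : Matrix (Fin n) (Fin n) K) (x y : Oct K) :
    tn s x * tn t y = tn (s * t) (x * y) := by
  ext1 i j
  simp only [Matrix.mul_apply, tn_apply, Finset.sum_smul, smul_mul_smul_comm]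

theorem tn_add_left (s t : Matrix (Fin n) (Fin n) K) (x : Oct K) :
    tn (s + t) x = tn s x + tn t x := by
  ext1 i j; simp [tn_apply, add_smul]

theorem tn_add_right (s : Matrix (Fin n) (Fin n) K) (x y : Oct K) :
    tn s (x + y) = tn s x + tn s y := by
  ext1 i j; simp [tn_apply]

theorem tn_sub_left (s t : Matrix (Fin n) (Fin n) K) (x : Oct K) :
    tn (s - t) x = tn s x - tn t x := by
  ext1 i j; simp [tn_apply, sub_smul]

theorem tn_neg_right (s : Matrix (Fin n) (Fin n) K) (x : Oct K) :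
    tn s (-x) = - tn s x := by
  ext1 i j; simp [tn_apply]

theorem tn_smul_right (c : K) (s : Matrix (Fin n) (Fin n) K) (x : Oct K) :
    tn s (c • x) = c • tn s x := by
  ext1 i j; simp [tn_apply, smul_smul, mul_comm]

theorem tn_smul_left (c : K) (s : Matrix (Fin n) (Fin n) K) (x : Oct K) :
    tn (c • s) x = c • tn s x := by
  ext1 i j; simp [tn_apply, smul_smul]

theorem tn_one_right (s : Matrix (Fin n) (Fin n) K) : tn s (1 : Oct K) = R s := by
  ext1 i j; simp [tn_apply, R_apply, Oct.C_eq_smul]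

theorem sc_mul (x : Oct K) (X : OMat n K) (i j : Fin n) : (sc n x * X) i j = x * X i j := by
  simp [sc, Matrix.mul_apply, tn_apply, Matrix.one_apply, ite_smul, ite_mul]

theorem mul_sc (x : Oct K) (X : OMat n K) (i j : Fin n) : (X * sc n x) i j = X i j * x := by
  simp [sc, Matrix.mul_apply, tn_apply, Matrix.one_apply, ite_smul, mul_ite]

theorem J_tn (t : Matrix (Fin n) (Fin n) K) (x : Oct K) : J (tn t x) = tn tᵀ (Oct.conj x) := by
  ext1 i j; simp [J_apply, tn_apply]

theorem conj_im {x : Oct K} (hx : x 0 = 0) : Oct.conj x = -x := by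
  rw [Oct.conj_eq, hx]; simp

theorem tn_memM {t : Matrix (Fin n) (Fin n) K} (ht : tᵀ = t) {x : Oct K} (hx : x 0 = 0) :
    tn t x ∈ SymM n K := by
  rw [mem_SymM, J_tn, ht, conj_im hx, tn_neg_right]

theorem sc_memM {x : Oct K} (hx : x 0 = 0) : sc n x ∈ SymM n K := tn_memM (by simp) hx

theorem br_memM {X Y : OMat n K} (hX : X ∈ SymM n K) (hY : Y ∈ SymM n K) : br X Y ∈ SymM n K := by
  rw [mem_SymM] at *
  unfold br
  rw [J_sub, J_mul, J_mul, hX, hY]; simp

theorem R_memM {s : Matrix (Fin n) (Fin n) K} (hs : sᵀ = -s) : R s ∈ SymM n K := by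
  rw [mem_SymM, J_R, hs]
  ext1 i j; simp [R_apply, Oct.C_eq_smul]

/-- A real matrix has vanishing Jacobian with everything. -/
theorem Jac_R (s : Matrix (Fin n) (Fin n) K) (Y Z : OMat n K) : Jac (R s) Y Z = 0 := by
  unfold Jac br
  simp only [Matrix.sub_mul, Matrix.mul_sub, R_mul_mul, mul_R_mul, mul_mul_R]
  abel

theorem re_mul_mul (X Y Z : OMat n K) : co 0 (X * Y * Z) = co 0 (X * (Y * Z)) := by
  ext i j
  have h : ∀ (s : Finset (Fin n)) (y : Fin n → Oct K), (∑ i ∈ s, y i) 0 = ∑ i ∈ s, y i 0 := by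
    intro s y
    induction s using Finset.induction_on with
    | empty => simp
    | insert a s ha ih => rw [Finset.sum_insert ha, Finset.sum_insert ha, Oct.add_apply, ih]
  simp only [co, Matrix.mul_apply, Finset.sum_mul, Finset.mul_sum, h]
  rw [Finset.sum_comm]
  exact Finset.sum_congr rfl fun k _ => Finset.sum_congr rfl fun l _ => Oct.re_assoc _ _ _

theorem co_add (k : Fin 8) (X Y : OMat n K) : co k (X + Y) = co k X + co k Y := rfl
theorem co_sub (k : Fin 8) (X Y : OMat n K) : co k (X - Y) = co k X - co k Y := rfl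
theorem co_smul (k : Fin 8) (c : K) (X : OMat n K) : co k (c • X) = c • co k X := rfl

theorem re_Jac (X Y Z : OMat n K) : co 0 (Jac X Y Z) = 0 := by
  unfold Jac br
  simp only [Matrix.sub_mul, Matrix.mul_sub, co_add, co_sub, re_mul_mul]
  abel

theorem Jac_sc (X : OMat n K) (y z : Oct K) (i j : Fin n) :
    Jac X (sc n y) (sc n z) i j =
      ((X i j * y - y * X i j) * z - z * (X i j * y - y * X i j)) +
      ((y * z - z * y) * X i j - X i j * (y * z - z * y)) +
      ((z * X i j - X i j * z) * y - y * (z * X i j - X i j * z)) := by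
  have h : br (sc n y) (sc n z) = sc n (y * z - z * y) := by
    unfold br sc
    rw [tn_mul, tn_mul, one_mul, sub_eq_add_neg, ← tn_neg_right, ← tn_add_right, ← sub_eq_add_neg]
  unfold Jac
  rw [h]
  simp only [br, Matrix.add_apply, Matrix.sub_apply, sc_mul, mul_sc]

end K3h69.OM
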