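import Pool.Agent.K3h69.OM.Minus

/-!
# Automorphisms of the skew-Hermitian octonion matrices, II
-/

namespace K3h69.OM

open Matrix

set_option linter.unusedSectionVars false
set_option maxHeartbeats 400000

variable {K : Type*} [Field K] {n : ℕ}

/-- A pair of mutually inverse automorphisms of `Sym⁻`, given by linear maps on all matrices. -/
structure TotM (Φ Ψ : OMat n K →ₗ[K] OMat n K) : Prop where
  mem : ∀ X ∈ SymM n K, Φ X ∈ SymM n K
  mem' : ∀ X ∈ SymM n K, Ψ X ∈ SymM n K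
  mul : ∀ X ∈ SymM n K, ∀ Y ∈ SymM n K, Φ (br X Y) = br (Φ X) (Φ Y)
  mul' : ∀ X ∈ SymM n K, ∀ Y ∈ SymM n K, Ψ (br X Y) = br (Ψ X) (Ψ Y)
  lr : ∀ X ∈ SymM n K, Ψ (Φ X) = X
  rl : ∀ X ∈ SymM n K, Φ (Ψ X) = X

theorem TotM.symm {Φ Ψ : OMat n K →ₗ[K] OMat n K} (h : TotM Φ Ψ) : TotM Ψ Φ :=
  ⟨h.mem', h.mem, h.mul', h.mul, h.rl, h.lr⟩

/-- The octonion Jacobian. -/
def JO (x y z : Oct K) : Oct K :=
  ((x * y - y * x) * z - z * (x * y - y * x)) +
  ((y * z - z * y) * x - x * (y * z - z * y)) +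
  ((z * x - x * z) * y - y * (z * x - x * z))

theorem Jac_sc' (X : OMat n K) (y z : Oct K) (i j : Fin n) :
    Jac X (sc n y) (sc n z) i j = JO (X i j) y z := Jac_sc X y z i j

theorem JO_12 (x : Oct K) : JO x (Oct.e 1) (Oct.e 2) =
    Oct.mk 0 0 0 0 (-12 * x 7) (12 * x 6) (-12 * x 5) (12 * x 4) := by
  apply Oct.ext8 <;> simp [JO, Oct.e1, Oct.e2, Oct.mul_def] <;> ring

theorem JO_14 (x : Oct K) : JO x (Oct.e 1) (Oct.e 4) =
    Oct.mk 0 0 (-12 * x 7) (12 * x 6) 0 0 (12 * x 3) (-12 * x 2) := by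
  apply Oct.ext8 <;> simp [JO, Oct.e1, Oct.e4, Oct.mul_def] <;> ring

theorem JO_24 (x : Oct K) : JO x (Oct.e 2) (Oct.e 4) =
    Oct.mk 0 (12 * x 7) 0 (-12 * x 5) 0 (-12 * x 3) 0 (12 * x 1) := by
  apply Oct.ext8 <;> simp [JO, Oct.e2, Oct.e4, Oct.mul_def] <;> ring

theorem twelve_ne (h2 : (2 : K) ≠ 0) (h3 : (3 : K) ≠ 0) : (12 : K) ≠ 0 := by
  have : (12 : K) = 2 * 2 * 3 := by norm_num
  rw [this]
  exact mul_ne_zero (mul_ne_zero h2 h2) h3

/-- the basis octonions `e₁, …, e₇` are imaginary -/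
theorem e_im {i : Fin 8} (hi : i ≠ 0) : (Oct.e i : Oct K) 0 = 0 := Oct.e_apply_ne (Ne.symm hi)

theorem real_of_Jac (h2 : (2 : K) ≠ 0) (h3 : (3 : K) ≠ 0) {X : OMat n K}
    (h : ∀ y z : Oct K, y 0 = 0 → z 0 = 0 → Jac X (sc n y) (sc n z) = 0) : X = R (co 0 X) := by
  have h12 := twelve_ne h2 h3
  ext1 i j
  have a := congrFun (congrFun (h (Oct.e 1) (Oct.e 2) (e_im (by decide)) (e_im (by decide))) i) j
  have b := congrFun (congrFun (h (Oct.e 1) (Oct.e 4) (e_im (by decide)) (e_im (by decide))) i) j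
  have c := congrFun (congrFun (h (Oct.e 2) (Oct.e 4) (e_im (by decide)) (e_im (by decide))) i) j
  rw [Jac_sc', JO_12] at a
  rw [Jac_sc', JO_14] at b
  rw [Jac_sc', JO_24] at c
  have a4 := congrFun a 7
  have a5 := congrFun a 6
  have a6 := congrFun a 5
  have a7 := congrFun a 4
  have b2 := congrFun b 7
  have b3 := congrFun b 6
  have c1 := congrFun c 7
  simp [h12] at a4 a5 a6 a7 b2 b3 c1
  apply Oct.ext8 <;> simp [R_apply, co, Oct.C, *]

theorem Jac_tn (t : Matrix (Fin n) (Fin n) K) (x y z : Oct K) :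
    Jac (tn t x) (sc n y) (sc n z) = tn t (JO x y z) := by
  ext1 i j
  rw [Jac_sc', tn_apply, tn_apply]
  simp only [JO, smul_mul_assoc, mul_smul_comm, ← smul_sub, ← smul_add]

theorem co_symm {X : OMat n K} (hX : X ∈ SymM n K) {k : Fin 8} (hk : k ≠ 0) :
    (co k X)ᵀ = co k X := by
  ext i j
  have h := congrFun (congrFun (congrFun (mem_SymM.1 hX) i) j) k
  simp only [J_apply] at h
  simp only [Matrix.transpose_apply, co]
  have h' : (Oct.conj (X j i)) k = - X i j k := h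
  have h4 : (Oct.conj (X j i)) k = - X j i k := by
    rw [Oct.conj_def]
    fin_cases k <;> simp_all
  rw [h4] at h'
  exact neg_injective h'

theorem eq_sum_tn {X : OMat n K} : X = ∑ k, tn (co k X) (Oct.e k) := by
  ext1 i j
  rw [Matrix.sum_apply]
  simp only [tn_apply, co]
  exact Oct.eq_sum _

theorem TotM.JacΦ {Φ Ψ : OMat n K →ₗ[K] OMat n K} (h : TotM Φ Ψ) {X Y Z : OMat n K}
    (hX : X ∈ SymM n K) (hY : Y ∈ SymM n K) (hZ : Z ∈ SymM n K) :
    Φ (Jac X Y Z) = Jac (Φ X) (Φ Y) (Φ Z) := by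
  unfold Jac
  rw [map_add, map_add, h.mul _ (br_memM hX hY) _ hZ, h.mul _ (br_memM hY hZ) _ hX,
    h.mul _ (br_memM hZ hX) _ hY, h.mul _ hX _ hY, h.mul _ hY _ hZ, h.mul _ hZ _ hX]

theorem TotM.re_tn_e {Φ Ψ : OMat n K →ₗ[K] OMat n K} (h : TotM Φ Ψ) (h2 : (2 : K) ≠ 0)
    (h3 : (3 : K) ≠ 0) {t : Matrix (Fin n) (Fin n) K} (ht : tᵀ = t) {k : Fin 8} (hk : k ≠ 0) :
    co 0 (Φ (tn t (Oct.e k))) = 0 := by
  have h12 := twelve_ne h2 h3
  have key : ∀ (c : K) (l a b : Fin 8), l ≠ 0 → a ≠ 0 → b ≠ 0 →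
      (Oct.e k : Oct K) = c • JO (Oct.e l) (Oct.e a) (Oct.e b) →
      co 0 (Φ (tn t (Oct.e k))) = 0 := by
    intro c l a b hl ha hb hc
    rw [hc, tn_smul_right, map_smul, ← Jac_tn,
      h.JacΦ (tn_memM ht (e_im hl)) (sc_memM (e_im ha)) (sc_memM (e_im hb)), co_smul, re_Jac,
      smul_zero]
  fin_cases k
  · exact absurd rfl hk
  · refine key (12)⁻¹ 7 2 4 (by decide) (by decide) (by decide) ?_
    rw [JO_24]; apply Oct.ext8 <;> simp [Oct.e1, Oct.e7, h12]
  · refine key (-12)⁻¹ 7 1 4 (by decide) (by decide) (by decide) ?_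
    rw [JO_14]; apply Oct.ext8 <;> simp [Oct.e2, Oct.e7, h12]
  · refine key (12)⁻¹ 6 1 4 (by decide) (by decide) (by decide) ?_
    rw [JO_14]; apply Oct.ext8 <;> simp [Oct.e3, Oct.e6, h12]
  · refine key (-12)⁻¹ 7 1 2 (by decide) (by decide) (by decide) ?_
    rw [JO_12]; apply Oct.ext8 <;> simp [Oct.e4, Oct.e7, h12]
  · refine key (12)⁻¹ 6 1 2 (by decide) (by decide) (by decide) ?_
    rw [JO_12]; apply Oct.ext8 <;> simp [Oct.e5, Oct.e6, h12]
  · refine key (-12)⁻¹ 5 1 2 (by decide) (by decide) (by decide) ?_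
    rw [JO_12]; apply Oct.ext8 <;> simp [Oct.e6, Oct.e5, h12]
  · refine key (12)⁻¹ 4 1 2 (by decide) (by decide) (by decide) ?_
    rw [JO_12]; apply Oct.ext8 <;> simp [Oct.e7, Oct.e4, h12]

theorem TotM.re_im {Φ Ψ : OMat n K →ₗ[K] OMat n K} (h : TotM Φ Ψ) (h2 : (2 : K) ≠ 0)
    (h3 : (3 : K) ≠ 0) {X : OMat n K} (hX : X ∈ SymM n K) (h0 : co 0 X = 0) :
    co 0 (Φ X) = 0 := by
  rw [eq_sum_tn (X := X), map_sum]
  have hs : ∀ (s : Finset (Fin 8)) (y : Fin 8 → OMat n K), co 0 (∑ i ∈ s, y i) =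
      ∑ i ∈ s, co 0 (y i) := by
    intro s y
    induction s using Finset.induction_on with
    | empty => rfl
    | insert a s ha ih => rw [Finset.sum_insert ha, Finset.sum_insert ha, co_add, ih]
  rw [hs]
  apply Finset.sum_eq_zero
  intro k _
  rcases eq_or_ne k 0 with rfl | hk
  · rw [h0]
    have : tn (0 : Matrix (Fin n) (Fin n) K) (Oct.e 0) = 0 := by
      ext1 i j; simp [tn_apply]
    rw [this, map_zero]; rfl
  · exact h.re_tn_e h2 h3 (co_symm hX hk) hk

theorem TotM.real {Φ Ψ : OMat n K →ₗ[K] OMat n K} (h : TotM Φ Ψ) (h2 : (2 : K) ≠ 0)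
    (h3 : (3 : K) ≠ 0) {s : Matrix (Fin n) (Fin n) K} (hs : sᵀ = -s) :
    Φ (R s) = R (co 0 (Φ (R s))) := by
  apply real_of_Jac h2 h3
  intro y z hy hz
  rw [← h.rl _ (sc_memM hy), ← h.rl _ (sc_memM hz),
    ← h.JacΦ (R_memM hs) (h.mem' _ (sc_memM hy)) (h.mem' _ (sc_memM hz)), Jac_R, map_zero]

theorem real_skew {X : OMat n K} (hX : X ∈ SymM n K) : (co 0 X)ᵀ = -(co 0 X) := by
  ext i j
  have h := congrFun (congrFun (congrFun (mem_SymM.1 hX) i) j) 0
  simp only [J_apply] at h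
  exact h

theorem br_R_sc (s : Matrix (Fin n) (Fin n) K) (x : Oct K) : br (R s) (sc n x) = 0 := by
  unfold br
  rw [← tn_one_right, sc, tn_mul, tn_mul]; simp

theorem br_R_tn (s t : Matrix (Fin n) (Fin n) K) (x : Oct K) :
    br (R s) (tn t x) = tn (s * t - t * s) x := by
  unfold br
  rw [← tn_one_right, tn_mul, tn_mul, tn_sub_left]; simp

/-- Centraliser of the real skew matrices. -/
theorem centr (h2 : (2 : K) ≠ 0) (i0 : Fin n) {Y : OMat n K} (hY : Y ∈ SymM n K)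
    (h0 : co 0 Y = 0) (h : ∀ s : Matrix (Fin n) (Fin n) K, sᵀ = -s → br (R s) Y = 0) :
    Y = sc n (Y i0 i0) := by
  have hsym : ∀ i j, Y j i = Y i j := by
    intro i j
    have h1 := congrFun (congrFun (mem_SymM.1 hY) i) j
    simp only [J_apply, Matrix.neg_apply] at h1
    rw [conj_im (congrFun (congrFun h0 j) i)] at h1
    exact neg_injective h1
  have key : ∀ i j, i ≠ j → Y i j = 0 ∧ Y j j = Y i i := by
    intro i j hij
    have h1 := h (Matrix.single i j 1 - Matrix.single j i 1) (by simp)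
    have hR : ∀ r c, br (R (Matrix.single i j (1 : K) - Matrix.single j i 1)) Y r c =
        ((if r = i then Y j c else 0) - (if r = j then Y i c else 0)) -
        ((if c = j then Y r i else 0) - (if c = i then Y r j else 0)) := by
      intro r c
      simp only [br, Matrix.sub_apply, Matrix.mul_apply, R_apply, Oct.C_mul, Oct.mul_C, sub_smul,
        Finset.sum_sub_distrib, Matrix.single_apply]
      congr 1
      · congr 1
        · rcases eq_or_ne r i with rfl | hr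
          · simp [ite_smul]
          · simp [hr, Ne.symm hr]
        · rcases eq_or_ne r j with rfl | hr
          · simp [ite_smul]
          · simp [hr, Ne.symm hr]
      · congr 1
        · rcases eq_or_ne c j with rfl | hr
          · simp [ite_smul]
          · simp [hr, Ne.symm hr]
        · rcases eq_or_ne c i with rfl | hr
          · simp [ite_smul]
          · simp [hr, Ne.symm hr]
    constructor
    · have h4 := congrFun (congrFun h1 i) i
      rw [hR] at h4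
      simp [hij, Ne.symm hij, hsym] at h4
      have h5 : (2 : K) • Y i j = 0 := by
        rw [two_smul]; exact h4
      exact (smul_eq_zero.1 h5).resolve_left h2
    · have h4 := congrFun (congrFun h1 i) j
      rw [hR] at h4
      simp [hij, Ne.symm hij] at h4
      exact sub_eq_zero.1 h4
  ext1 i j
  rcases eq_or_ne i j with rfl | hij
  · rw [sc, tn_apply, Matrix.one_apply_eq, one_smul]
    rcases eq_or_ne i0 i with rfl | h0i
    · rfl
    · exact (key i0 i h0i).2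
  · rw [sc, tn_apply, Matrix.one_apply_ne hij, zero_smul]
    exact (key i j hij).1

theorem co_sc {x : Oct K} (hx : x 0 = 0) : co 0 (sc n x) = 0 := by
  ext i j; simp [co, sc, tn_apply, hx]

theorem TotM.sc_sc {Φ Ψ : OMat n K →ₗ[K] OMat n K} (h : TotM Φ Ψ) (h2 : (2 : K) ≠ 0)
    (h3 : (3 : K) ≠ 0) (i0 : Fin n) {x : Oct K} (hx : x 0 = 0) :
    Φ (sc n x) = sc n (Φ (sc n x) i0 i0) := by
  apply centr h2 i0 (h.mem _ (sc_memM hx)) (h.re_im h2 h3 (sc_memM hx) (co_sc hx))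
  intro s hs
  rw [← h.rl _ (R_memM hs), ← h.mul _ (h.mem' _ (R_memM hs)) _ (sc_memM hx),
    h.symm.real h2 h3 hs, br_R_sc, map_zero]

end K3h69.OM
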