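import Pool.Agent.K3h69.OM.Minus2

/-!
# Automorphisms of the skew-Hermitian octonion matrices, III
-/

namespace K3h69.OM

open Matrix

set_option linter.unusedSectionVars false
set_option maxHeartbeats 400000

variable {K : Type*} [Field K] {n : ℕ}

/-- The imaginary part. -/
def Oct.im (x : Oct K) : Oct K := x - Oct.C (x 0)

theorem Oct.im_re (x : Oct K) : (Oct.im x) 0 = 0 := by simp [Oct.im]

theorem Oct.im_of {x : Oct K} (hx : x 0 = 0) : Oct.im x = x := by simp [Oct.im, hx]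

theorem Oct.C_add_im (x : Oct K) : Oct.C (x 0) + Oct.im x = x := by simp [Oct.im]

theorem Oct.im_add (x y : Oct K) : Oct.im (x + y) = Oct.im x + Oct.im y := by
  apply Oct.ext8 <;> simp [Oct.im, Oct.C]

theorem Oct.im_smul (c : K) (x : Oct K) : Oct.im (c • x) = c • Oct.im x := by
  apply Oct.ext8 <;> simp [Oct.im, Oct.C]

/-- The linear map on octonions induced by the action on `𝕆₀ I`. -/
def gl (i0 : Fin n) (Φ : OMat n K →ₗ[K] OMat n K) : Oct K →ₗ[K] Oct K where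
  toFun x := Oct.C (x 0) + Φ (sc n (Oct.im x)) i0 i0
  map_add' x y := by
    rw [Oct.im_add, Oct.add_apply, Oct.C_add, sc, tn_add_right, map_add, Matrix.add_apply]
    simp only [sc]
    abel
  map_smul' c x := by
    rw [Oct.im_smul, Oct.smul_apply, sc, tn_smul_right, map_smul, Matrix.smul_apply]
    simp only [sc, RingHom.id_apply, smul_add]
    congr 1
    rw [Oct.C_eq_smul, Oct.C_eq_smul, smul_smul]

theorem gl_apply (i0 : Fin n) (Φ : OMat n K →ₗ[K] OMat n K) (x : Oct K) :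
    gl i0 Φ x = Oct.C (x 0) + Φ (sc n (Oct.im x)) i0 i0 := rfl

theorem gl_im (i0 : Fin n) (Φ : OMat n K →ₗ[K] OMat n K) {x : Oct K} (hx : x 0 = 0) :
    gl i0 Φ x = Φ (sc n x) i0 i0 := by
  rw [gl_apply, Oct.im_of hx, hx]; simp

theorem gl_C (i0 : Fin n) (Φ : OMat n K →ₗ[K] OMat n K) (r : K) :
    gl i0 Φ (Oct.C r) = Oct.C r := by
  rw [gl_apply]
  have : Oct.im (Oct.C r : Oct K) = 0 := by simp [Oct.im]
  have h0 : sc n (0 : Oct K) = 0 := by ext1 i j; simp [sc, tn_apply]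
  rw [this, h0, map_zero]; simp

variable {Φ Ψ : OMat n K →ₗ[K] OMat n K}

theorem gl_re (h : TotM Φ Ψ) (h2 : (2 : K) ≠ 0) (h3 : (3 : K) ≠ 0) (i0 : Fin n) {x : Oct K}
    (hx : x 0 = 0) : (gl i0 Φ x) 0 = 0 := by
  rw [gl_im i0 Φ hx]
  exact congrFun (congrFun (h.re_im h2 h3 (sc_memM hx) (co_sc hx)) i0) i0

theorem Φ_sc (h : TotM Φ Ψ) (h2 : (2 : K) ≠ 0) (h3 : (3 : K) ≠ 0) (i0 : Fin n) {x : Oct K}
    (hx : x 0 = 0) : Φ (sc n x) = sc n (gl i0 Φ x) := by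
  rw [gl_im i0 Φ hx]; exact h.sc_sc h2 h3 i0 hx

theorem sc_inj (i0 : Fin n) {x y : Oct K} (h : sc n x = sc n y) : x = y := by
  have := congrFun (congrFun h i0) i0
  simpa [sc, tn_apply] using this

theorem gl_gl (h : TotM Φ Ψ) (h2 : (2 : K) ≠ 0) (h3 : (3 : K) ≠ 0) (i0 : Fin n) (x : Oct K) :
    gl i0 Ψ (gl i0 Φ x) = x := by
  have him : ∀ y : Oct K, y 0 = 0 → gl i0 Ψ (gl i0 Φ y) = y := by
    intro y hy
    rw [gl_im i0 Ψ (gl_re h h2 h3 i0 hy), ← Φ_sc h h2 h3 i0 hy, h.lr _ (sc_memM hy)]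
    simp [sc, tn_apply]
  rw [← Oct.C_add_im x, map_add, map_add, gl_C, gl_C, him _ (Oct.im_re x)]

theorem sc_br (x y : Oct K) : br (sc n x) (sc n y) = sc n (x * y - y * x) := by
  unfold br sc
  rw [tn_mul, tn_mul, one_mul, sub_eq_add_neg, ← tn_neg_right, ← tn_add_right, ← sub_eq_add_neg]

theorem gl_br (h : TotM Φ Ψ) (h2 : (2 : K) ≠ 0) (h3 : (3 : K) ≠ 0) (i0 : Fin n) {x y : Oct K}
    (hx : x 0 = 0) (hy : y 0 = 0) :
    gl i0 Φ (x * y - y * x) = gl i0 Φ x * gl i0 Φ y - gl i0 Φ y * gl i0 Φ x := by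
  have h0 : (x * y - y * x : Oct K) 0 = 0 := by
    simp [Oct.mul_def, hx, hy]; ring
  apply sc_inj i0 (n := n)
  rw [← Φ_sc h h2 h3 i0 h0, ← sc_br, h.mul _ (sc_memM hx) _ (sc_memM hy), Φ_sc h h2 h3 i0 hx,
    Φ_sc h h2 h3 i0 hy, sc_br]

theorem Oct.brbr {u v : Oct K} (hu : u 0 = 0) (hv : v 0 = 0) :
    u * (u * v - v * u) - (u * v - v * u) * u = (4 * (u * u) 0) • v - (4 * (u * v) 0) • u := by
  apply Oct.ext8 <;> simp [Oct.mul_def, hu, hv] <;> ring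

theorem Oct.mul_im {u v : Oct K} (hu : u 0 = 0) (hv : v 0 = 0) :
    (2 : K) • (u * v) = (u * v - v * u) + Oct.C (2 * (u * v) 0) := by
  apply Oct.ext8 <;> simp [Oct.mul_def, Oct.C, hu, hv] <;> ring

theorem gl_mul (h : TotM Φ Ψ) (h2 : (2 : K) ≠ 0) (h3 : (3 : K) ≠ 0) (i0 : Fin n)
    (x y : Oct K) : gl i0 Φ (x * y) = gl i0 Φ x * gl i0 Φ y := by
  set g := gl i0 Φ with hg
  have ginj : ∀ u : Oct K, g u = 0 → u = 0 := by
    intro u hu
    have := gl_gl h h2 h3 i0 u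
    rw [← hg, hu, map_zero] at this
    exact this.symm
  have gsurj : ∀ w : Oct K, w 0 = 0 → ∃ v : Oct K, v 0 = 0 ∧ g v = w := by
    intro w hw
    exact ⟨gl i0 Ψ w, gl_re h.symm h2 h3 i0 hw, gl_gl h.symm h2 h3 i0 w⟩
  have h4 : (4 : K) ≠ 0 := by
    have : (4 : K) = 2 * 2 := by norm_num
    rw [this]; exact mul_ne_zero h2 h2
  -- the key identity
  have key : ∀ u v : Oct K, u 0 = 0 → v 0 = 0 →
      ((u * u) 0 - (g u * g u) 0) • g v = ((u * v) 0 - (g u * g v) 0) • g u := by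
    intro u v hu hv
    have hc0 : (u * v - v * u : Oct K) 0 = 0 := by simp [Oct.mul_def, hu, hv]; ring
    have e1 := congrArg g (Oct.brbr hu hv)
    rw [hg, gl_br h h2 h3 i0 hu hc0, gl_br h h2 h3 i0 hu hv, ← hg,
      Oct.brbr (gl_re h h2 h3 i0 hu) (gl_re h h2 h3 i0 hv), map_sub, map_smul, map_smul] at e1
    have e2 : (4 : K) • (((u * u) 0 - (g u * g u) 0) • g v) =
        (4 : K) • (((u * v) 0 - (g u * g v) 0) • g u) := by
      rw [smul_smul, smul_smul, mul_sub, mul_sub, sub_smul, sub_smul]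
      have e3 := sub_eq_zero.2 e1
      rw [← sub_eq_zero]
      rw [← neg_eq_zero, ← e3]
      abel
    exact smul_right_injective _ h4 e2
  have hnorm : ∀ u : Oct K, u 0 = 0 → (u * u) 0 = (g u * g u) 0 := by
    intro u hu
    by_contra hcon
    have hc : (u * u) 0 - (g u * g u) 0 ≠ 0 := sub_ne_zero.2 hcon
    obtain ⟨v1, hv1, e1⟩ := gsurj (Oct.e 1) (e_im (by decide))
    obtain ⟨v2, hv2, e2⟩ := gsurj (Oct.e 2) (e_im (by decide))
    have k1 := key u v1 hu hv1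
    have k2 := key u v2 hu hv2
    rw [e1] at k1
    rw [e2] at k2
    have a1 := congrFun k1 1
    have a2 := congrFun k2 1
    have a3 := congrFun k2 2
    rw [Oct.smul_apply, Oct.smul_apply] at a1 a2 a3
    simp only [Oct.e1, Oct.e2, Oct.mk_1, Oct.mk_2, mul_one, mul_zero] at a1 a2 a3
    rw [a1] at hc
    have g1 : g u 1 ≠ 0 := right_ne_zero_of_mul hc
    have b0 := (mul_eq_zero.1 a2.symm).resolve_right g1
    rw [b0, zero_mul] at a3
    exact hcon (sub_eq_zero.1 a3)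
  have hbil : ∀ u v : Oct K, u 0 = 0 → v 0 = 0 → (u * v) 0 = (g u * g v) 0 := by
    intro u v hu hv
    have k := key u v hu hv
    rw [hnorm u hu, sub_self, zero_smul] at k
    rcases smul_eq_zero.1 k.symm with h5 | h5
    · exact sub_eq_zero.1 h5
    · rw [ginj u h5]; simp
  have him : ∀ u v : Oct K, u 0 = 0 → v 0 = 0 → g (u * v) = g u * g v := by
    intro u v hu hv
    apply smul_right_injective _ h2
    change (2 : K) • g (u * v) = (2 : K) • (g u * g v)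
    rw [← map_smul, Oct.mul_im hu hv, Oct.mul_im (gl_re h h2 h3 i0 hu) (gl_re h h2 h3 i0 hv),
      map_add, hg, gl_br h h2 h3 i0 hu hv, gl_C, ← hg, ← hbil u v hu hv]
  conv_lhs => rw [← Oct.C_add_im x, ← Oct.C_add_im y]
  conv_rhs => rw [← Oct.C_add_im x, ← Oct.C_add_im y]
  simp only [map_add, add_mul, mul_add, Oct.C_mul, Oct.mul_C, map_smul,
    him _ _ (Oct.im_re x) (Oct.im_re y)]
  rw [hg, gl_C, gl_C]
  simp only [Oct.C_mul, Oct.mul_C]

/-- The automorphism of the octonions induced by an automorphism of `Sym⁻`. -/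
def gEquiv (h : TotM Φ Ψ) (h2 : (2 : K) ≠ 0) (h3 : (3 : K) ≠ 0) (i0 : Fin n) :
    Oct K ≃ₗ[K] Oct K :=
  LinearEquiv.ofLinear (gl i0 Φ) (gl i0 Ψ)
    (LinearMap.ext fun x => gl_gl h.symm h2 h3 i0 x) (LinearMap.ext fun x => gl_gl h h2 h3 i0 x)

theorem gEquiv_apply (h : TotM Φ Ψ) (h2 : (2 : K) ≠ 0) (h3 : (3 : K) ≠ 0) (i0 : Fin n)
    (x : Oct K) : gEquiv h h2 h3 i0 x = gl i0 Φ x := rfl

theorem gEquiv_mem (h : TotM Φ Ψ) (h2 : (2 : K) ≠ 0) (h3 : (3 : K) ≠ 0) (i0 : Fin n) :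
    gEquiv h h2 h3 i0 ∈ G2 K := fun x y => gl_mul h h2 h3 i0 x y

end K3h69.OM
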