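import Pool.Agent.K3h69.OM.Minus3

/-!
# Automorphisms of the skew-Hermitian octonion matrices, IV
-/

namespace K3h69.OM

open Matrix

set_option linter.unusedSectionVars false
set_option maxHeartbeats 400000

variable {K : Type*} [Field K] {n : ℕ}

/-- The action as a linear map. -/
def actL (g : Oct K ≃ₗ[K] Oct K) (A : GL (Fin n) K) : OMat n K →ₗ[K] OMat n K where
  toFun := act g A
  map_add' := act_add g A
  map_smul' := act_smul g A

theorem actL_apply (g : Oct K ≃ₗ[K] Oct K) (A : GL (Fin n) K) (X : OMat n K) :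
    actL g A X = act g A X := rfl

theorem act_cancel {g : Oct K ≃ₗ[K] Oct K} (hg : g ∈ G2 K) (A : GL (Fin n) K) (X : OMat n K) :
    act g⁻¹ A⁻¹ (act g A X) = X := by
  rw [act_act _ _ ((AutAlg K _).inv_mem hg), inv_mul_cancel, inv_mul_cancel, act_one_one]

theorem act_cancel' {g : Oct K ≃ₗ[K] Oct K} (hg : g ∈ G2 K) (A : GL (Fin n) K) (X : OMat n K) :
    act g A (act g⁻¹ A⁻¹ X) = X := by
  rw [act_act _ _ hg, mul_inv_cancel, mul_inv_cancel, act_one_one]

theorem totM_act (h2 : (2 : K) ≠ 0) {g : Oct K ≃ₗ[K] Oct K} (hg : g ∈ G2 K) {A : GL (Fin n) K}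
    (hA : A ∈ GO n K) : TotM (actL g A) (actL g⁻¹ A⁻¹) where
  mem X hX := act_memM h2 hg hA hX
  mem' X hX := act_memM h2 ((AutAlg K _).inv_mem hg) ((GO n K).inv_mem hA) hX
  mul X _ Y _ := by
    simp only [actL_apply, br, act_sub, act_mul hg]
  mul' X _ Y _ := by
    simp only [actL_apply, br, act_sub, act_mul ((AutAlg K _).inv_mem hg)]
  lr X _ := act_cancel hg A X
  rl X _ := act_cancel' hg A X

theorem TotM.comp {Φ Ψ Φ' Ψ' : OMat n K →ₗ[K] OMat n K} (h' : TotM Φ' Ψ') (h : TotM Φ Ψ) :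
    TotM (Φ' ∘ₗ Φ) (Ψ ∘ₗ Ψ') where
  mem X hX := h'.mem _ (h.mem _ hX)
  mem' X hX := h.mem' _ (h'.mem' _ hX)
  mul X hX Y hY := by
    simp only [LinearMap.comp_apply]
    rw [h.mul _ hX _ hY, h'.mul _ (h.mem _ hX) _ (h.mem _ hY)]
  mul' X hX Y hY := by
    simp only [LinearMap.comp_apply]
    rw [h'.mul' _ hX _ hY, h.mul' _ (h'.mem' _ hX) _ (h'.mem' _ hY)]
  lr X hX := by
    simp only [LinearMap.comp_apply]
    rw [h'.lr _ (h.mem _ hX), h.lr _ hX]
  rl X hX := by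
    simp only [LinearMap.comp_apply]
    rw [h.rl _ (h'.mem' _ hX), h'.rl _ hX]

theorem act_tn (g : Oct K ≃ₗ[K] Oct K) (A : GL (Fin n) K) (t : Matrix (Fin n) (Fin n) K)
    (x : Oct K) : act g A (tn t x) =
      tn ((A : Matrix (Fin n) (Fin n) K) * t * ((A⁻¹ : GL (Fin n) K) : Matrix (Fin n) (Fin n) K))
        (g x) := by
  unfold act
  have : (tn t x).map g = tn t (g x) := by ext1 i j; simp [tn_apply]
  rw [this, ← tn_one_right, ← tn_one_right, tn_mul, tn_mul]; simp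

theorem br_sc_tn (x y : Oct K) (t : Matrix (Fin n) (Fin n) K) :
    br (sc n x) (tn t y) = tn t (x * y - y * x) := by
  unfold br sc
  rw [tn_mul, tn_mul, one_mul, mul_one, sub_eq_add_neg, ← tn_neg_right, ← tn_add_right,
    ← sub_eq_add_neg]

theorem comm_e1 (h2 : (2 : K) ≠ 0) {y : Oct K} (h0 : y 0 = 0)
    (h : Oct.e 1 * y - y * Oct.e 1 = 0) : y = y 1 • Oct.e 1 := by
  have h4 : (4 : K) ≠ 0 := by
    have : (4 : K) = 2 * 2 := by norm_num
    rw [this]; exact mul_ne_zero h2 h2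
  have key : ∀ a : K, 2 * a = 0 → a = 0 := fun a ha => (mul_eq_zero.1 ha).resolve_left h2
  have c2 := congrFun h 2
  have c3 := congrFun h 3
  have c4 := congrFun h 4
  have c5 := congrFun h 5
  have c6 := congrFun h 6
  have c7 := congrFun h 7
  rw [Oct.sub_apply, Oct.mul_def, Oct.mul_def] at c2 c3 c4 c5 c6 c7
  simp only [Oct.e1, Oct.mk_0, Oct.mk_1, Oct.mk_2, Oct.mk_3, Oct.mk_4, Oct.mk_5, Oct.mk_6,
    Oct.mk_7, Oct.zero_apply] at c2 c3 c4 c5 c6 c7
  have d3 : y 3 = 0 := key _ (by linear_combination -c2)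
  have d2 : y 2 = 0 := key _ (by linear_combination c3)
  have d5 : y 5 = 0 := key _ (by linear_combination -c4)
  have d4 : y 4 = 0 := key _ (by linear_combination c5)
  have d7 : y 7 = 0 := key _ (by linear_combination c6)
  have d6 : y 6 = 0 := key _ (by linear_combination -c7)
  apply Oct.ext8 <;> simp [Oct.e1, *]

theorem TotM.main {Φ Ψ : OMat n K →ₗ[K] OMat n K} (h : TotM Φ Ψ) (h2 : (2 : K) ≠ 0)
    (h3 : (3 : K) ≠ 0) (i0 : Fin n) :
    ∃ g ∈ G2 K, ∃ A ∈ GO n K, ∀ X ∈ SymM n K, Φ X = act g A X := by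
  set g := gEquiv h h2 h3 i0 with hgdef
  have hg : g ∈ G2 K := gEquiv_mem h h2 h3 i0
  have hg' : g⁻¹ ∈ G2 K := (AutAlg K _).inv_mem hg
  have hone : (1 : GL (Fin n) K) ∈ GO n K := (GO n K).one_mem
  have hone' : (1 : Oct K ≃ₗ[K] Oct K) ∈ G2 K := (AutAlg K _).one_mem
  set Φ1 : OMat n K →ₗ[K] OMat n K := actL g⁻¹ (1 : GL (Fin n) K) ∘ₗ Φ with hΦ1
  obtain ⟨Ψ1, h1⟩ : ∃ Ψ1, TotM Φ1 Ψ1 := ⟨_, (totM_act h2 hg' hone).comp h⟩
  have f1 : ∀ x : Oct K, x 0 = 0 → Φ1 (sc n x) = sc n x := by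
    intro x hx
    rw [hΦ1, LinearMap.comp_apply, Φ_sc h h2 h3 i0 hx, actL_apply, sc, act_tn]
    have : g⁻¹ (gl i0 Φ x) = x := g.symm_apply_apply x
    rw [this]; simp [sc]
  set θ : Matrix (Fin n) (Fin n) K →ₗ[K] Matrix (Fin n) (Fin n) K :=
    { toFun := fun t => co 1 (Φ1 (tn t (Oct.e 1)))
      map_add' := by intro s t; rw [tn_add_left, map_add, co_add]
      map_smul' := by intro c t; rw [tn_smul_left, map_smul, co_smul]; rfl } with hθ
  have θa : ∀ t, θ t = co 1 (Φ1 (tn t (Oct.e 1))) := fun t => rfl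
  have f2 : ∀ t : Matrix (Fin n) (Fin n) K, tᵀ = t →
      Φ1 (tn t (Oct.e 1)) = tn (θ t) (Oct.e 1) := by
    intro t ht
    have hm : tn t (Oct.e 1) ∈ SymM n K := tn_memM ht (e_im (by decide))
    have a0 : co 0 (Φ1 (tn t (Oct.e 1))) = 0 := h1.re_tn_e h2 h3 ht (by decide)
    have a1 : br (sc n (Oct.e 1)) (Φ1 (tn t (Oct.e 1))) = 0 := by
      rw [← f1 _ (e_im (by decide)), ← h1.mul _ (sc_memM (e_im (by decide))) _ hm, br_sc_tn]
      have : tn t (Oct.e 1 * Oct.e 1 - Oct.e 1 * Oct.e 1 : Oct K) = 0 := by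
        ext1 i j; simp [tn_apply]
      rw [this, map_zero]
    ext1 i j
    have a2 := congrFun (congrFun a1 i) j
    simp only [br, Matrix.sub_apply, sc_mul, mul_sc, Matrix.zero_apply] at a2
    exact comm_e1 h2 (congrFun (congrFun a0 i) j) a2
  have f3 : ∀ (t : Matrix (Fin n) (Fin n) K), tᵀ = t → ∀ k : Fin 8, k ≠ 0 →
      Φ1 (tn t (Oct.e k)) = tn (θ t) (Oct.e k) := by
    intro t ht k hk
    have key : ∀ (c : K) (m : Fin 8), m ≠ 0 →
        (Oct.e k : Oct K) = c • (Oct.e m * Oct.e 1 - Oct.e 1 * Oct.e m) →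
        Φ1 (tn t (Oct.e k)) = tn (θ t) (Oct.e k) := by
      intro c m hm hc
      rw [hc, tn_smul_right, ← br_sc_tn, map_smul,
        h1.mul _ (sc_memM (e_im hm)) _ (tn_memM ht (e_im (by decide))), f1 _ (e_im hm), f2 t ht,
        br_sc_tn, ← tn_smul_right]
    fin_cases k
    · exact absurd rfl hk
    · exact f2 t ht
    · refine key (2)⁻¹ 3 (by decide) ?_
      apply Oct.ext8 <;> simp [Oct.e1, Oct.e2, Oct.e3, Oct.mul_def]
      · field_simp; norm_num
    · refine key (-2)⁻¹ 2 (by decide) ?_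
      apply Oct.ext8 <;> simp [Oct.e1, Oct.e2, Oct.e3, Oct.mul_def]
      · field_simp; norm_num
    · refine key (2)⁻¹ 5 (by decide) ?_
      apply Oct.ext8 <;> simp [Oct.e1, Oct.e4, Oct.e5, Oct.mul_def]
      · field_simp; norm_num
    · refine key (-2)⁻¹ 4 (by decide) ?_
      apply Oct.ext8 <;> simp [Oct.e1, Oct.e4, Oct.e5, Oct.mul_def]
      · field_simp; norm_num
    · refine key (-2)⁻¹ 7 (by decide) ?_
      apply Oct.ext8 <;> simp [Oct.e1, Oct.e6, Oct.e7, Oct.mul_def]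
      · field_simp; norm_num
    · refine key (2)⁻¹ 6 (by decide) ?_
      apply Oct.ext8 <;> simp [Oct.e1, Oct.e6, Oct.e7, Oct.mul_def]
      · field_simp; norm_num
  have θs : ∀ X, Xᵀ = X → (θ X)ᵀ = θ X := by
    intro X hX
    exact co_symm (h1.mem _ (tn_memM hX (e_im (by decide)))) (by decide)
  have tn_inj : ∀ (s t : Matrix (Fin n) (Fin n) K) (k : Fin 8),
      tn s (Oct.e k) = tn t (Oct.e k) → s = t := by
    intro s t k hst
    ext i j
    have := congrFun (congrFun (congrFun hst i) j) k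
    simpa [tn_apply, Oct.e_apply_self] using this
  have br12 : ∀ X Y : Matrix (Fin n) (Fin n) K,
      br (tn X (Oct.e 1)) (tn Y (Oct.e 2)) = tn (X * Y + Y * X) (Oct.e 3) := by
    intro X Y
    have e12 : (Oct.e 1 * Oct.e 2 : Oct K) = Oct.e 3 := by
      apply Oct.ext8 <;> simp [Oct.e1, Oct.e2, Oct.e3, Oct.mul_def]
    have e21 : (Oct.e 2 * Oct.e 1 : Oct K) = -Oct.e 3 := by
      apply Oct.ext8 <;> simp [Oct.e1, Oct.e2, Oct.e3, Oct.mul_def]
    unfold br
    rw [tn_mul, tn_mul, e12, e21, tn_neg_right, tn_add_left]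
    abel
  have θj : ∀ X Y, Xᵀ = X → Yᵀ = Y → θ (X * Y + Y * X) = θ X * θ Y + θ Y * θ X := by
    intro X Y hX hY
    have hXY : (X * Y + Y * X)ᵀ = X * Y + Y * X := by
      rw [Matrix.transpose_add, Matrix.transpose_mul, Matrix.transpose_mul, hX, hY, add_comm]
    apply tn_inj _ _ 3
    rw [← f3 _ hXY 3 (by decide), ← br12, h1.mul _ (tn_memM hX (e_im (by decide))) _
      (tn_memM hY (e_im (by decide))), f3 _ hX 1 (by decide), f3 _ hY 2 (by decide), br12]
  have θi : ∀ X, Xᵀ = X → θ X = 0 → X = 0 := by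
    intro X hX h0
    apply tn_inj _ _ 1
    have hz : tn (0 : Matrix (Fin n) (Fin n) K) (Oct.e 1) = 0 := by ext1 i j; simp [tn_apply]
    have a1 := f3 X hX 1 (by decide)
    rw [h0, hz] at a1
    have a2 := h1.lr _ (tn_memM hX (e_im (i := 1) (by decide)))
    rw [a1, map_zero] at a2
    rw [hz, ← a2]
  obtain ⟨A, hA, hθA⟩ := jordan_conj i0 θ h2 θs θj θi
  have hA' : A⁻¹ ∈ GO n K := (GO n K).inv_mem hA
  have hAA : ((A⁻¹ : GL (Fin n) K) : Matrix (Fin n) (Fin n) K) * (A : Matrix (Fin n) (Fin n) K) = 1 := by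
    rw [← Units.val_mul]; simp
  set Φ2 : OMat n K →ₗ[K] OMat n K := actL (1 : Oct K ≃ₗ[K] Oct K) A⁻¹ ∘ₗ Φ1 with hΦ2
  obtain ⟨Ψ2, h4⟩ : ∃ Ψ2, TotM Φ2 Ψ2 := ⟨_, (totM_act h2 hone' hA').comp h1⟩
  have f4 : ∀ (t : Matrix (Fin n) (Fin n) K), tᵀ = t → ∀ k : Fin 8, k ≠ 0 →
      Φ2 (tn t (Oct.e k)) = tn t (Oct.e k) := by
    intro t ht k hk
    rw [hΦ2, LinearMap.comp_apply, f3 t ht k hk, actL_apply, act_tn, inv_inv, Matrix.mul_assoc,
      hθA t ht, ← Matrix.mul_assoc, hAA]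
    simp
  have f5 : ∀ s : Matrix (Fin n) (Fin n) K, sᵀ = -s → Φ2 (R s) = R s := by
    intro s hs
    rw [h4.real h2 h3 hs]
    set s' := co 0 (Φ2 (R s)) with hs'
    have hs'' : s'ᵀ = -s' := real_skew (h4.mem _ (R_memM hs))
    have hc : ∀ t : Matrix (Fin n) (Fin n) K, tᵀ = t → (s - s') * t = t * (s - s') := by
      intro t ht
      have hst : (s * t - t * s)ᵀ = s * t - t * s := by
        rw [Matrix.transpose_sub, Matrix.transpose_mul, Matrix.transpose_mul, hs, ht,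
          Matrix.mul_neg, Matrix.neg_mul]
        abel
      have a1 := h4.mul _ (R_memM hs) _ (tn_memM ht (e_im (i := 1) (by decide)))
      rw [br_R_tn, f4 _ hst 1 (by decide), f4 _ ht 1 (by decide), h4.real h2 h3 hs, ← hs',
        br_R_tn] at a1
      have a2 := tn_inj _ _ 1 a1
      rw [Matrix.sub_mul, Matrix.mul_sub]
      have a3 : s * t - s' * t = t * s - t * s' := by
        have this : s * t - t * s + t * s - s' * t = s' * t - t * s' + t * s - s' * t :=
          congrArg (fun M => M + t * s - s' * t) a2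
        calc s * t - s' * t = s * t - t * s + t * s - s' * t := by abel
          _ = s' * t - t * s' + t * s - s' * t := this
          _ = t * s - t * s' := by abel
      exact a3
    have hsc := scalar_of_comm i0 (s - s') hc
    have hz : (s - s') i0 i0 = 0 := by
      have b1 := congrFun (congrFun hs i0) i0
      have b2 := congrFun (congrFun hs'' i0) i0
      simp only [Matrix.transpose_apply, Matrix.neg_apply] at b1 b2
      have b3 : 2 * s i0 i0 = 0 := by linear_combination b1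
      have b4 : 2 * s' i0 i0 = 0 := by linear_combination b2
      rw [Matrix.sub_apply, (mul_eq_zero.1 b3).resolve_left h2,
        (mul_eq_zero.1 b4).resolve_left h2, sub_zero]
    rw [hz, zero_smul] at hsc
    rw [sub_eq_zero.1 hsc]
  have f6 : ∀ X ∈ SymM n K, Φ2 X = X := by
    intro X hX
    conv_lhs => rw [eq_sum_tn (X := X)]
    conv_rhs => rw [eq_sum_tn (X := X)]
    rw [map_sum]
    apply Finset.sum_congr rfl
    intro k _
    rcases eq_or_ne k 0 with rfl | hk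
    · have : (Oct.e 0 : Oct K) = 1 := by
        apply Oct.ext8 <;> simp [Oct.e0, Oct.one_def]
      rw [this, tn_one_right]
      exact f5 _ (real_skew hX)
    · exact f4 _ (co_symm hX hk) k hk
  refine ⟨g, hg, A, hA, ?_⟩
  intro X hX
  have e1 := f6 X hX
  rw [hΦ2, LinearMap.comp_apply, hΦ1, LinearMap.comp_apply, actL_apply, actL_apply] at e1
  calc Φ X = act g 1 (act 1 A (act 1 A⁻¹ (act g⁻¹ 1 (Φ X)))) := by
        have c1 := act_cancel' (n := n) hone' A (act g⁻¹ 1 (Φ X))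
        rw [inv_one] at c1
        rw [c1]
        have c2 := act_cancel' (n := n) hg 1 (Φ X)
        rw [inv_one] at c2
        rw [c2]
    _ = act g 1 (act 1 A X) := by rw [e1]
    _ = act g A X := by rw [act_act _ _ hg, mul_one, one_mul]

end K3h69.OM
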