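import Pool.Agent.K3h69.OM.Minus4

/-!
# `Aut(Sym⁻) ≅ G₂ × PGO(n)`
-/

namespace K3h69.OM

open Matrix

set_option linter.unusedSectionVars false
set_option maxHeartbeats 400000

variable {K : Type*} [Field K] {n : ℕ}

theorem J_J (X : OMat n K) : J (J X) = X := by
  ext1 i j; simp [J_apply]

/-- Projection onto the skew-Hermitian matrices. -/
def projM (h2 : (2 : K) ≠ 0) : OMat n K →ₗ[K] SymM n K where
  toFun X := ⟨(2 : K)⁻¹ • (X - J X), by
    rw [mem_SymM, J_smul, J_sub, J_J, ← smul_neg, neg_sub]⟩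
  map_add' X Y := by
    apply Subtype.ext
    simp only [J_add, Submodule.coe_add, ← smul_add]
    congr 1; abel
  map_smul' c X := by
    apply Subtype.ext
    simp only [J_smul, RingHom.id_apply, Submodule.coe_smul, ← smul_sub, smul_smul, mul_comm]

theorem projM_coe (h2 : (2 : K) ≠ 0) {X : OMat n K} (hX : X ∈ SymM n K) :
    projM h2 X = ⟨X, hX⟩ := by
  apply Subtype.ext
  change (2 : K)⁻¹ • (X - J X) = X
  rw [mem_SymM.1 hX, sub_neg_eq_add, ← two_smul K X, smul_smul, inv_mul_cancel₀ h2, one_smul]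

theorem projM_coe' (h2 : (2 : K) ≠ 0) (X : SymM n K) : projM h2 (X : OMat n K) = X :=
  projM_coe h2 X.2

/-- Extend an automorphism to all matrices. -/
def extM (h2 : (2 : K) ≠ 0) (φ : SymM n K ≃ₗ[K] SymM n K) : OMat n K →ₗ[K] OMat n K :=
  (SymM n K).subtype ∘ₗ (φ : SymM n K →ₗ[K] SymM n K) ∘ₗ projM h2

theorem extM_apply (h2 : (2 : K) ≠ 0) (φ : SymM n K ≃ₗ[K] SymM n K) {X : OMat n K}
    (hX : X ∈ SymM n K) : extM h2 φ X = φ ⟨X, hX⟩ := by
  change ((φ (projM h2 X) : SymM n K) : OMat n K) = _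
  rw [projM_coe h2 hX]

theorem totM_ext (h2 : (2 : K) ≠ 0) (φ : AutM n K) :
    TotM (extM h2 (φ : SymM n K ≃ₗ[K] SymM n K)) (extM h2 (φ : SymM n K ≃ₗ[K] SymM n K).symm) where
  mem X hX := by rw [extM_apply h2 _ hX]; exact Subtype.property _
  mem' X hX := by rw [extM_apply h2 _ hX]; exact Subtype.property _
  mul X hX Y hY := by
    rw [extM_apply h2 _ hX, extM_apply h2 _ hY, extM_apply h2 _ (br_memM hX hY)]
    have := φ.2 ⟨X, hX⟩ ⟨Y, hY⟩
    exact congrArg Subtype.val this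
  mul' X hX Y hY := by
    rw [extM_apply h2 _ hX, extM_apply h2 _ hY, extM_apply h2 _ (br_memM hX hY)]
    have := ((AutAlg K _).inv_mem φ.2) ⟨X, hX⟩ ⟨Y, hY⟩
    exact congrArg Subtype.val this
  lr X hX := by
    rw [extM_apply h2 _ hX, extM_apply h2 _ (Subtype.property _)]; simp
  rl X hX := by
    rw [extM_apply h2 _ hX, extM_apply h2 _ (Subtype.property _)]; simp

theorem homM_surj (h2 : (2 : K) ≠ 0) (h3 : (3 : K) ≠ 0) (hn : 1 ≤ n) :
    Function.Surjective (homM (K := K) h2 n) := by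
  intro φ
  obtain ⟨g, hg, A, hA, hgA⟩ := (totM_ext h2 φ).main h2 h3 ⟨0, hn⟩
  refine ⟨(⟨g, hg⟩, ⟨A, hA⟩), ?_⟩
  apply Subtype.ext
  apply LinearEquiv.ext
  intro X
  apply Subtype.ext
  have := hgA X X.2
  rw [extM_apply h2 _ X.2] at this
  exact this.symm

theorem act_scalar {g : Oct K ≃ₗ[K] Oct K} {A : GL (Fin n) K} (hg : g = 1)
    (hA : ∃ c : K, (A : Matrix (Fin n) (Fin n) K) = c • 1) (X : OMat n K) : act g A X = X := by
  obtain ⟨c, hc⟩ := hA
  unfold act
  have h1 : X.map g = X := by rw [hg]; ext1 i j; rfl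
  have h2 : R (A : Matrix (Fin n) (Fin n) K) * X = X * R (A : Matrix (Fin n) (Fin n) K) := by
    rw [hc, R_smul, R_one]; simp
  rw [h1, h2, mul_R_mul, R_mul_inv, mul_one]

theorem g_eq_one {g : Oct K ≃ₗ[K] Oct K} (hg : g ∈ G2 K)
    (h : ∀ x : Oct K, x 0 = 0 → g x = x) : g = 1 := by
  apply LinearEquiv.ext
  intro x
  change g x = x
  rw [← Oct.C_add_im x, map_add, g_C hg, h _ (Oct.im_re x)]

theorem homM_ker (h2 : (2 : K) ≠ 0) (h3 : (3 : K) ≠ 0) (hn : 1 ≤ n) (g : G2 K) (A : GO n K) :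
    homM (K := K) h2 n (g, A) = 1 ↔ g = 1 ∧ A ∈ ScalarGO n K := by
  constructor
  · intro h
    have h' : ∀ X ∈ SymM n K, act (g : Oct K ≃ₗ[K] Oct K) (A : GL (Fin n) K) X = X := by
      intro X hX
      have := congrArg (fun f : AutM n K => ((f : SymM n K ≃ₗ[K] SymM n K) ⟨X, hX⟩ : OMat n K)) h
      exact this
    have hAA' : ((A : GL (Fin n) K) : Matrix (Fin n) (Fin n) K) *
        (((A : GL (Fin n) K)⁻¹ : GL (Fin n) K) : Matrix (Fin n) (Fin n) K) = 1 := by
      rw [← Units.val_mul]; simp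
    have hA'A : (((A : GL (Fin n) K)⁻¹ : GL (Fin n) K) : Matrix (Fin n) (Fin n) K) *
        ((A : GL (Fin n) K) : Matrix (Fin n) (Fin n) K) = 1 := by
      rw [← Units.val_mul]; simp
    have hg1 : (g : Oct K ≃ₗ[K] Oct K) = 1 := by
      apply g_eq_one g.2
      intro x hx
      have := h' _ (sc_memM (n := n) hx)
      rw [sc, act_tn, mul_one, hAA'] at this
      exact sc_inj ⟨0, hn⟩ this
    refine ⟨Subtype.ext hg1, ?_⟩
    refine ⟨_, scalar_of_comm ⟨0, hn⟩ _ ?_⟩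
    intro t ht
    have h4 := h' _ (tn_memM ht (e_im (i := 1) (by decide)))
    rw [act_tn, hg1] at h4
    have h5 : ((A : GL (Fin n) K) : Matrix (Fin n) (Fin n) K) * t *
        (((A : GL (Fin n) K)⁻¹ : GL (Fin n) K) : Matrix (Fin n) (Fin n) K) = t := by
      ext i j
      have := congrFun (congrFun (congrFun h4 i) j) 1
      simpa [tn_apply, Oct.e_apply_self] using this
    calc ((A : GL (Fin n) K) : Matrix (Fin n) (Fin n) K) * t
        = ((A : GL (Fin n) K) : Matrix (Fin n) (Fin n) K) * t *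
          ((((A : GL (Fin n) K)⁻¹ : GL (Fin n) K) : Matrix (Fin n) (Fin n) K) *
            ((A : GL (Fin n) K) : Matrix (Fin n) (Fin n) K)) := by rw [hA'A, mul_one]
      _ = t * ((A : GL (Fin n) K) : Matrix (Fin n) (Fin n) K) := by
          rw [← Matrix.mul_assoc, h5]
  · rintro ⟨hg, hA⟩
    apply Subtype.ext
    apply LinearEquiv.ext
    intro X
    apply Subtype.ext
    exact act_scalar (by rw [hg]; rfl) hA _

/-- **Theorem.** The automorphism group of the skew-Hermitian `n × n` octonion matrices is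
`G₂ × PGO(n)`, for every `n ≥ 1`. -/
theorem autM_iso (h2 : (2 : K) ≠ 0) (h3 : (3 : K) ≠ 0) (hn : 1 ≤ n) :
    Nonempty (AutM n K ≃* G2 K × PGO n K) :=
  iso_of (ScalarGO n K) (homM h2 n) (homM_surj h2 h3 hn) (homM_ker h2 h3 hn)

end K3h69.OM
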