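import Pool.Agent.K3h69.OM.PGOSO

/-!
# Comparison with `G₂ × SO(n)`
-/

namespace K3h69.OM

open Matrix

set_option linter.unusedSectionVars false
set_option maxHeartbeats 1000000

variable {K : Type*} [Field K] {n : ℕ}

/-- `-1` in `GL`. -/
def negI (n : ℕ) (K : Type*) [Field K] : GL (Fin n) K := invU (-1) (by simp)

theorem negI_coe : ((negI n K : GL (Fin n) K) : Matrix (Fin n) (Fin n) K) = -1 := rfl

theorem negI_SO (hn : Even n) : negI n K ∈ SO n K := by
  rw [mem_SO, negI_coe]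
  refine ⟨by simp, ?_⟩
  rw [Matrix.det_neg, Matrix.det_one, mul_one, Fintype.card_fin]
  exact hn.neg_one_pow

theorem negI_ne (h2 : (2 : K) ≠ 0) (hn : 1 ≤ n) : negI n K ≠ 1 := by
  intro h
  have := congrArg (fun A : GL (Fin n) K => (A : Matrix (Fin n) (Fin n) K) ⟨0, hn⟩ ⟨0, hn⟩) h
  simp only [negI_coe] at this
  simp at this
  have h3 : (2 : K) = 0 := by linear_combination -this
  exact h2 h3

theorem no_iso_even (h2 : (2 : K) ≠ 0) (h3 : (3 : K) ≠ 0) (hn : Even n) (hn4 : 4 ≤ n) :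
    IsEmpty (G2 K × PGO n K ≃* G2 K × SO n K) := by
  constructor
  intro e
  set w : G2 K × SO n K := (1, ⟨negI n K, negI_SO hn⟩) with hw
  have hwc : ∀ x, x * w = w * x := by
    rintro ⟨a, b⟩
    rw [hw, Prod.mk_mul_mk, Prod.mk_mul_mk, mul_one, one_mul]
    congr 1
    apply Subtype.ext
    apply Units.ext
    change ((b : GL (Fin n) K) : Matrix (Fin n) (Fin n) K) * (-1) =
      (-1) * ((b : GL (Fin n) K) : Matrix (Fin n) (Fin n) K)
    simp
  have hw1 : w ≠ 1 := by
    intro h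
    have h4 : (⟨negI n K, negI_SO hn⟩ : SO n K) = 1 := congrArg Prod.snd h
    exact negI_ne h2 (by omega) (congrArg Subtype.val h4)
  set u := e.symm w with hu
  have huc : ∀ x, x * u = u * x := by
    intro x
    apply e.injective
    rw [map_mul, map_mul, hu, e.apply_symm_apply, hwc]
  have h1 : u.1 = 1 := center_G2 h2 h3 u.1 fun g => by
    have := congrArg Prod.fst (huc (g, 1)); exact this
  have h5 : u.2 = 1 := center_PGO h2 (by omega) u.2 fun g => by
    have := congrArg Prod.snd (huc (1, g)); exact this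
  have hu1 : u = 1 := Prod.ext h1 h5
  apply hw1
  rw [← e.apply_symm_apply w, ← hu, hu1, map_one]

/-- the rotation by a right angle -/
def rotJ (K : Type*) [Field K] : Matrix (Fin 2) (Fin 2) K := !![0, 1; -1, 0]

theorem rotJ_mul : rotJ K * rotJ K = -1 := by
  ext r s
  fin_cases r <;> fin_cases s <;> simp [rotJ, Matrix.mul_apply, Fin.sum_univ_two]

/-- the rotation as a unit -/
def rotU (K : Type*) [Field K] : GL (Fin 2) K :=
  ⟨rotJ K, -rotJ K, by rw [Matrix.mul_neg, rotJ_mul, neg_neg],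
    by rw [Matrix.neg_mul, rotJ_mul, neg_neg]⟩

theorem rotU_SO : rotU K ∈ SO 2 K := by
  rw [mem_SO]
  change (rotJ K)ᵀ * rotJ K = 1 ∧ (rotJ K).det = 1
  constructor
  · ext r s
    fin_cases r <;> fin_cases s <;> simp [rotJ, Matrix.mul_apply, Fin.sum_univ_two]
  · simp [rotJ, Matrix.det_fin_two]

theorem rot_comm (b : SO 2 K) : b * ⟨rotU K, rotU_SO⟩ = ⟨rotU K, rotU_SO⟩ * b := by
  obtain ⟨B, hB1, hB2⟩ := b
  apply Subtype.ext
  apply Units.ext
  change (B : Matrix (Fin 2) (Fin 2) K) * rotJ K = rotJ K * (B : Matrix (Fin 2) (Fin 2) K)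
  set M : Matrix (Fin 2) (Fin 2) K := (B : Matrix (Fin 2) (Fin 2) K) with hM
  have e00 := congrFun (congrFun hB1 0) 0
  have e01 := congrFun (congrFun hB1 0) 1
  have e10 := congrFun (congrFun hB1 1) 0
  have e11 := congrFun (congrFun hB1 1) 1
  rw [Matrix.mul_apply, Fin.sum_univ_two] at e00 e01 e10 e11
  simp only [Matrix.transpose_apply, Matrix.one_apply_eq] at e00 e11
  rw [Matrix.one_apply_ne (by decide)] at e01 e10
  simp only [Matrix.transpose_apply] at e01 e10
  rw [Matrix.det_fin_two] at hB2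
  -- M = [[a,b],[c,d]], a²+c²=1, ab+cd=0, b²+d²=1, ad-bc=1 : then d = a, c = -b
  have hd : M 1 1 = M 0 0 := by
    linear_combination (-(M 1 1)) * e00 + (M 0 0) * hB2 + (M 1 0) * e01
  have hc : M 1 0 = -M 0 1 := by
    linear_combination (-(M 0 1)) * e00 + (M 0 0) * e01 - (M 1 0) * hB2
  ext r s
  fin_cases r <;> fin_cases s <;>
    simp [rotJ, Matrix.mul_apply, Fin.sum_univ_two, hd, hc]

theorem rot_sq_ne (h2 : (2 : K) ≠ 0) : (⟨rotU K, rotU_SO⟩ : SO 2 K) * ⟨rotU K, rotU_SO⟩ ≠ 1 := by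
  intro h
  have h1 : rotU K * rotU K = 1 := congrArg Subtype.val h
  have h3 : rotJ K * rotJ K = 1 := congrArg Units.val h1
  rw [rotJ_mul] at h3
  have := congrFun (congrFun h3 0) 0
  simp at this
  have h4 : (2 : K) = 0 := by linear_combination -this
  exact h2 h4

/-- If all central elements of `G` have square one then `G ≇ G₂ × SO(2)`. -/
theorem no_iso_two (h2 : (2 : K) ≠ 0) {G : Type*} [Group G]
    (hG : ∀ z : G, (∀ x, x * z = z * x) → z * z = 1) : IsEmpty (G ≃* G2 K × SO 2 K) := by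
  constructor
  intro e
  set w : G2 K × SO 2 K := (1, ⟨rotU K, rotU_SO⟩) with hw
  have hwc : ∀ x, x * w = w * x := by
    rintro ⟨a, b⟩
    rw [hw, Prod.mk_mul_mk, Prod.mk_mul_mk, mul_one, one_mul, rot_comm]
  have hu := hG (e.symm w) (by
    intro x
    apply e.injective
    rw [map_mul, map_mul, e.apply_symm_apply, hwc])
  have h1 := congrArg e hu
  rw [map_mul, e.apply_symm_apply, map_one] at h1
  exact rot_sq_ne h2 (congrArg Prod.snd h1)

theorem no_iso_even_two (h2 : (2 : K) ≠ 0) (h3 : (3 : K) ≠ 0) :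
    IsEmpty (G2 K × PGO 2 K ≃* G2 K × SO 2 K) := by
  apply no_iso_two h2
  intro z hz
  have h1 : z.1 = 1 := center_G2 h2 h3 z.1 fun g => by
    have := congrArg Prod.fst (hz (g, 1)); exact this
  have h5 : z.2 * z.2 = 1 := center_PGO2 h2 z.2 fun g => by
    have := congrArg Prod.snd (hz (1, g)); exact this
  apply Prod.ext
  · change z.1 * z.1 = 1; rw [h1, mul_one]
  · exact h5

/-! ### `n = 1` for Hermitian matrices -/

theorem jmul_self_one (h2 : (2 : K) ≠ 0) (X : SymP n K) (h1 : (1 : OMat n K) ∈ SymP n K) :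
    jmul (⟨1, h1⟩ : SymP n K) X = X := by
  apply Subtype.ext
  rw [jmul_coe]
  change (1 / 2 : K) • ((1 : OMat n K) * (X : OMat n K) + (X : OMat n K) * 1) = X
  rw [one_mul, mul_one, ← two_smul K (X : OMat n K), smul_smul, one_div, inv_mul_cancel₀ h2,
    one_smul]

theorem jmul_comm' (X Y : SymP n K) : jmul X Y = jmul Y X := by
  apply Subtype.ext
  rw [jmul_coe, jmul_coe, add_comm]

theorem one_memP : (1 : OMat n K) ∈ SymP n K := by
  rw [← R_one]; exact R_memP (by simp)

theorem aut_one (h2 : (2 : K) ≠ 0) {φ : SymP n K ≃ₗ[K] SymP n K} (hφ : φ ∈ AutP n K) :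
    φ ⟨1, one_memP⟩ = ⟨1, one_memP⟩ := by
  have h := hφ ⟨1, one_memP⟩ (φ.symm ⟨1, one_memP⟩)
  rw [jmul_self_one h2, φ.apply_symm_apply, jmul_comm', jmul_self_one h2] at h
  exact h.symm

theorem autP_one (h2 : (2 : K) ≠ 0) : Subsingleton (AutP 1 K) := by
  constructor
  have key : ∀ φ : AutP 1 K, φ = 1 := by
    intro φ
    apply Subtype.ext
    apply LinearEquiv.ext
    intro X
    have hX : X = (X.1 0 0 0) • (⟨1, one_memP⟩ : SymP 1 K) := by
      apply Subtype.ext
      rw [Submodule.coe_smul]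
      ext1 i j
      have hi : i = 0 := Subsingleton.elim _ _
      have hj : j = 0 := Subsingleton.elim _ _
      subst hi; subst hj
      change (X : OMat 1 K) 0 0 = (X.1 0 0 0) • (1 : OMat 1 K) 0 0
      rw [Matrix.one_apply_eq, ← Oct.C_eq_smul]
      exact diag_real h2 X.2 0
    change φ.1 X = X
    rw [hX, map_smul, aut_one h2 φ.2]
  intro a b
  rw [key a, key b]

theorem no_iso_one (h2 : (2 : K) ≠ 0) {H : Type*} [Group H] : IsEmpty (AutP 1 K ≃* G2 K × H) := by
  constructor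
  intro e
  have := autP_one (K := K) h2
  have h1 : ((⟨sgA, sgA_mem⟩ : G2 K), (1 : H)) = (1, 1) := by
    apply e.symm.injective
    exact Subsingleton.elim _ _
  exact sgA_ne_one h2 (congrArg Prod.fst h1)

end K3h69.OM
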