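import Mathlib

/-!
# Split octonions by coordinates
-/

namespace K3h69.OM

set_option linter.unusedSectionVars false

open Matrix

/-- The split octonion algebra over `K`, in the coordinates of the basis `1 = e₀, e₁, …, e₇`.
It is the Cayley–Dickson double, with parameter `+1`, of the Hamilton quaternions over `K`. -/
def Oct (K : Type*) : Type _ := Fin 8 → K

variable {K : Type*} [Field K]

instance : AddCommGroup (Oct K) := inferInstanceAs (AddCommGroup (Fin 8 → K))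
instance : Module K (Oct K) := inferInstanceAs (Module K (Fin 8 → K))

@[ext] theorem Oct.ext {x y : Oct K} (h : ∀ i, x i = y i) : x = y := funext h

@[simp] theorem Oct.add_apply (x y : Oct K) (i : Fin 8) : (x + y) i = x i + y i := rfl
@[simp] theorem Oct.sub_apply (x y : Oct K) (i : Fin 8) : (x - y) i = x i - y i := rfl
@[simp] theorem Oct.neg_apply (x : Oct K) (i : Fin 8) : (-x) i = -(x i) := rfl
@[simp] theorem Oct.zero_apply (i : Fin 8) : (0 : Oct K) i = 0 := rfl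
@[simp] theorem Oct.smul_apply (c : K) (x : Oct K) (i : Fin 8) : (c • x) i = c * x i := rfl

/-- Build an octonion from its eight coordinates. -/
def Oct.mk (a0 a1 a2 a3 a4 a5 a6 a7 : K) : Oct K := ![a0, a1, a2, a3, a4, a5, a6, a7]

/-- The octonion product. -/
instance : Mul (Oct K) where
  mul x y := Oct.mk
    (x 0 * y 0 - x 1 * y 1 - x 2 * y 2 - x 3 * y 3 + y 4 * x 4 + y 5 * x 5 + y 6 * x 6 + y 7 * x 7)
    (x 0 * y 1 + x 1 * y 0 + x 2 * y 3 - x 3 * y 2 + y 4 * x 5 - y 5 * x 4 - y 6 * x 7 + y 7 * x 6)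
    (x 0 * y 2 - x 1 * y 3 + x 2 * y 0 + x 3 * y 1 + y 4 * x 6 + y 5 * x 7 - y 6 * x 4 - y 7 * x 5)
    (x 0 * y 3 + x 1 * y 2 - x 2 * y 1 + x 3 * y 0 + y 4 * x 7 - y 5 * x 6 + y 6 * x 5 - y 7 * x 4)
    (y 4 * x 0 - y 5 * x 1 - y 6 * x 2 - y 7 * x 3 + x 4 * y 0 + x 5 * y 1 + x 6 * y 2 + x 7 * y 3)
    (y 4 * x 1 + y 5 * x 0 + y 6 * x 3 - y 7 * x 2 - x 4 * y 1 + x 5 * y 0 - x 6 * y 3 + x 7 * y 2)
    (y 4 * x 2 - y 5 * x 3 + y 6 * x 0 + y 7 * x 1 - x 4 * y 2 + x 5 * y 3 + x 6 * y 0 - x 7 * y 1)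
    (y 4 * x 3 + y 5 * x 2 - y 6 * x 1 + y 7 * x 0 - x 4 * y 3 - x 5 * y 2 + x 6 * y 1 + x 7 * y 0)

theorem Oct.mul_def (x y : Oct K) : x * y = Oct.mk
    (x 0 * y 0 - x 1 * y 1 - x 2 * y 2 - x 3 * y 3 + y 4 * x 4 + y 5 * x 5 + y 6 * x 6 + y 7 * x 7)
    (x 0 * y 1 + x 1 * y 0 + x 2 * y 3 - x 3 * y 2 + y 4 * x 5 - y 5 * x 4 - y 6 * x 7 + y 7 * x 6)
    (x 0 * y 2 - x 1 * y 3 + x 2 * y 0 + x 3 * y 1 + y 4 * x 6 + y 5 * x 7 - y 6 * x 4 - y 7 * x 5)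
    (x 0 * y 3 + x 1 * y 2 - x 2 * y 1 + x 3 * y 0 + y 4 * x 7 - y 5 * x 6 + y 6 * x 5 - y 7 * x 4)
    (y 4 * x 0 - y 5 * x 1 - y 6 * x 2 - y 7 * x 3 + x 4 * y 0 + x 5 * y 1 + x 6 * y 2 + x 7 * y 3)
    (y 4 * x 1 + y 5 * x 0 + y 6 * x 3 - y 7 * x 2 - x 4 * y 1 + x 5 * y 0 - x 6 * y 3 + x 7 * y 2)
    (y 4 * x 2 - y 5 * x 3 + y 6 * x 0 + y 7 * x 1 - x 4 * y 2 + x 5 * y 3 + x 6 * y 0 - x 7 * y 1)
    (y 4 * x 3 + y 5 * x 2 - y 6 * x 1 + y 7 * x 0 - x 4 * y 3 - x 5 * y 2 + x 6 * y 1 + x 7 * y 0) :=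
  rfl

section mk
variable (a0 a1 a2 a3 a4 a5 a6 a7 : K)
@[simp] theorem Oct.mk_0 : Oct.mk a0 a1 a2 a3 a4 a5 a6 a7 0 = a0 := rfl
@[simp] theorem Oct.mk_1 : Oct.mk a0 a1 a2 a3 a4 a5 a6 a7 1 = a1 := rfl
@[simp] theorem Oct.mk_2 : Oct.mk a0 a1 a2 a3 a4 a5 a6 a7 2 = a2 := rfl
@[simp] theorem Oct.mk_3 : Oct.mk a0 a1 a2 a3 a4 a5 a6 a7 3 = a3 := rfl
@[simp] theorem Oct.mk_4 : Oct.mk a0 a1 a2 a3 a4 a5 a6 a7 4 = a4 := rfl
@[simp] theorem Oct.mk_5 : Oct.mk a0 a1 a2 a3 a4 a5 a6 a7 5 = a5 := rfl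
@[simp] theorem Oct.mk_6 : Oct.mk a0 a1 a2 a3 a4 a5 a6 a7 6 = a6 := rfl
@[simp] theorem Oct.mk_7 : Oct.mk a0 a1 a2 a3 a4 a5 a6 a7 7 = a7 := rfl
end mk

theorem Oct.ext8 {x y : Oct K} (h0 : x 0 = y 0) (h1 : x 1 = y 1) (h2 : x 2 = y 2)
    (h3 : x 3 = y 3) (h4 : x 4 = y 4) (h5 : x 5 = y 5) (h6 : x 6 = y 6) (h7 : x 7 = y 7) :
    x = y := by
  ext i
  fin_cases i <;> assumption

/-- Real scalars in the octonions. -/
def Oct.C (r : K) : Oct K := Oct.mk r 0 0 0 0 0 0 0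

instance : One (Oct K) := ⟨Oct.C 1⟩

theorem Oct.one_def : (1 : Oct K) = Oct.mk 1 0 0 0 0 0 0 0 := rfl

instance : NonAssocRing (Oct K) :=
  { (inferInstance : AddCommGroup (Oct K)) with
    mul := (· * ·)
    one := 1
    left_distrib := by
      intro a b c
      apply Oct.ext8 <;> simp [Oct.mul_def] <;> ring
    right_distrib := by
      intro a b c
      apply Oct.ext8 <;> simp [Oct.mul_def] <;> ring
    zero_mul := by
      intro a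
      apply Oct.ext8 <;> simp [Oct.mul_def]
    mul_zero := by
      intro a
      apply Oct.ext8 <;> simp [Oct.mul_def]
    one_mul := by
      intro a
      apply Oct.ext8 <;> simp [Oct.mul_def, Oct.one_def]
    mul_one := by
      intro a
      apply Oct.ext8 <;> simp [Oct.mul_def, Oct.one_def] }

instance : IsScalarTower K (Oct K) (Oct K) :=
  ⟨fun c x y => by
    change (c • x) * y = c • (x * y)
    apply Oct.ext8 <;> simp [Oct.mul_def] <;> ring⟩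

instance : SMulCommClass K (Oct K) (Oct K) :=
  ⟨fun c x y => by
    change c • (x * y) = x * (c • y)
    apply Oct.ext8 <;> simp [Oct.mul_def] <;> ring⟩

/-- Octonion conjugation. -/
def Oct.conj : Oct K →ₗ[K] Oct K where
  toFun x := Oct.mk (x 0) (-x 1) (-x 2) (-x 3) (-x 4) (-x 5) (-x 6) (-x 7)
  map_add' := by intro x y; apply Oct.ext8 <;> simp <;> ring
  map_smul' := by intro c x; apply Oct.ext8 <;> simp

theorem Oct.conj_def (x : Oct K) :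
    Oct.conj x = Oct.mk (x 0) (-x 1) (-x 2) (-x 3) (-x 4) (-x 5) (-x 6) (-x 7) := rfl

@[simp] theorem Oct.conj_conj (x : Oct K) : Oct.conj (Oct.conj x) = x := by
  apply Oct.ext8 <;> simp [Oct.conj_def]

theorem Oct.conj_mul (x y : Oct K) : Oct.conj (x * y) = Oct.conj y * Oct.conj x := by
  apply Oct.ext8 <;> simp [Oct.conj_def, Oct.mul_def] <;> ring

theorem Oct.re_assoc (x y z : Oct K) : ((x * y) * z) 0 = (x * (y * z)) 0 := by
  simp [Oct.mul_def]; ring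

@[simp] theorem Oct.C_mul (r : K) (x : Oct K) : Oct.C r * x = r • x := by
  apply Oct.ext8 <;> simp [Oct.C, Oct.mul_def, mul_comm]

@[simp] theorem Oct.mul_C (r : K) (x : Oct K) : x * Oct.C r = r • x := by
  apply Oct.ext8 <;> simp [Oct.C, Oct.mul_def, mul_comm]

@[simp] theorem Oct.C_zero : Oct.C (0 : K) = 0 := by
  apply Oct.ext8 <;> simp [Oct.C]

@[simp] theorem Oct.C_one : Oct.C (1 : K) = 1 := rfl

theorem Oct.C_add (a b : K) : Oct.C (a + b) = Oct.C a + Oct.C b := by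
  apply Oct.ext8 <;> simp [Oct.C]

theorem Oct.C_eq_smul (a : K) : Oct.C a = a • (1 : Oct K) := by
  apply Oct.ext8 <;> simp [Oct.C, Oct.one_def]

@[simp] theorem Oct.C_apply_zero (a : K) : Oct.C a 0 = a := rfl

@[simp] theorem Oct.conj_C (a : K) : Oct.conj (Oct.C a) = Oct.C a := by
  apply Oct.ext8 <;> simp [Oct.C, Oct.conj_def]

@[simp] theorem Oct.conj_one : Oct.conj (1 : Oct K) = 1 := Oct.conj_C 1

/-- The basis octonions. -/
def Oct.e (i : Fin 8) : Oct K := Pi.single i (1 : K)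

theorem Oct.e0 : (Oct.e 0 : Oct K) = Oct.mk 1 0 0 0 0 0 0 0 := by apply Oct.ext8 <;> simp [Oct.e]
theorem Oct.e1 : (Oct.e 1 : Oct K) = Oct.mk 0 1 0 0 0 0 0 0 := by apply Oct.ext8 <;> simp [Oct.e]
theorem Oct.e2 : (Oct.e 2 : Oct K) = Oct.mk 0 0 1 0 0 0 0 0 := by apply Oct.ext8 <;> simp [Oct.e]
theorem Oct.e3 : (Oct.e 3 : Oct K) = Oct.mk 0 0 0 1 0 0 0 0 := by apply Oct.ext8 <;> simp [Oct.e]
theorem Oct.e4 : (Oct.e 4 : Oct K) = Oct.mk 0 0 0 0 1 0 0 0 := by apply Oct.ext8 <;> simp [Oct.e]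
theorem Oct.e5 : (Oct.e 5 : Oct K) = Oct.mk 0 0 0 0 0 1 0 0 := by apply Oct.ext8 <;> simp [Oct.e]
theorem Oct.e6 : (Oct.e 6 : Oct K) = Oct.mk 0 0 0 0 0 0 1 0 := by apply Oct.ext8 <;> simp [Oct.e]
theorem Oct.e7 : (Oct.e 7 : Oct K) = Oct.mk 0 0 0 0 0 0 0 1 := by apply Oct.ext8 <;> simp [Oct.e]

theorem Oct.eq_sum (x : Oct K) : x = ∑ i, x i • Oct.e i := by
  apply Oct.ext8 <;>
    simp [Fin.sum_univ_succ, Oct.e0, Oct.e1, Oct.e2, Oct.e3, Oct.e4, Oct.e5, Oct.e6, Oct.e7]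

end K3h69.OM
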