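import Pool.Agent.K3h69.OM.CenterG

/-!
# `PGO(n)` versus `SO(n)`
-/

namespace K3h69.OM

open Matrix

set_option linter.unusedSectionVars false
set_option maxHeartbeats 1000000

variable {K : Type*} [Field K] {n : ℕ}

theorem mem_SO {A : GL (Fin n) K} : A ∈ SO n K ↔ (A : Matrix (Fin n) (Fin n) K)ᵀ * A = 1 ∧
    (A : Matrix (Fin n) (Fin n) K).det = 1 := Iff.rfl

theorem SO_le_GO : SO n K ≤ GO n K := fun A hA => ⟨1, by rw [hA.1, one_smul]⟩

/-- For odd `n`, `SO(n) ≅ PGO(n)`. -/
theorem odd_iso (hn : Odd n) : Nonempty (PGO n K ≃* SO n K) := by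
  obtain ⟨m, hm⟩ := hn
  let f : SO n K →* PGO n K := (QuotientGroup.mk' (ScalarGO n K)).comp (Subgroup.inclusion SO_le_GO)
  have hinj : Function.Injective f := by
    rw [injective_iff_map_eq_one]
    intro A hA
    have h1 : Subgroup.inclusion SO_le_GO A ∈ ScalarGO n K :=
      (QuotientGroup.eq_one_iff _).1 hA
    obtain ⟨c, hc⟩ := h1
    have hc' : ((A : GL (Fin n) K) : Matrix (Fin n) (Fin n) K) = c • 1 := hc
    have h2 := A.2.1
    have h3 := A.2.2
    rw [hc'] at h2 h3
    have hdet : c ^ n = 1 := by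
      rw [Matrix.det_smul, Matrix.det_one, mul_one, Fintype.card_fin] at h3
      exact h3
    have hsq : c * c = 1 := by
      have h4 : (c * c) • (1 : Matrix (Fin n) (Fin n) K) = 1 := by
        simpa [smul_smul] using h2
      have hpos : 0 < n := by omega
      have := congrFun (congrFun h4 ⟨0, hpos⟩) ⟨0, hpos⟩
      simpa using this
    have hc1 : c = 1 := by
      rw [hm, pow_succ, pow_mul, pow_two, hsq, one_pow, one_mul] at hdet
      exact hdet
    apply Subtype.ext
    apply Units.ext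
    rw [hc', hc1, one_smul]; rfl
  have hsurj : Function.Surjective f := by
    intro q
    obtain ⟨A, rfl⟩ := QuotientGroup.mk'_surjective _ q
    obtain ⟨c, hc⟩ := A.2
    set M : Matrix (Fin n) (Fin n) K := ((A : GL (Fin n) K) : Matrix (Fin n) (Fin n) K) with hM
    have hMdet : M.det ≠ 0 := by
      have : IsUnit M := (A : GL (Fin n) K).isUnit
      exact ((Matrix.isUnit_iff_isUnit_det M).1 this).ne_zero
    have hd : M.det * M.det = c ^ n := by
      have := congrArg Matrix.det hc
      rwa [Matrix.det_mul, Matrix.det_transpose, Matrix.det_smul, Matrix.det_one, mul_one,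
        Fintype.card_fin] at this
    have hc0 : c ≠ 0 := by
      rintro rfl
      have : M.det * M.det = 0 := by
        rw [hd, hm, pow_succ, mul_zero]
      exact hMdet (mul_self_eq_zero.1 this)
    set d : K := M.det / c ^ m with hdd
    have hcm : c ^ m ≠ 0 := pow_ne_zero _ hc0
    have hd0 : d ≠ 0 := div_ne_zero hMdet hcm
    have hdsq : d * d = c := by
      rw [hdd, div_mul_div_comm, hd, hm, pow_succ, pow_mul, pow_two, mul_pow]
      field_simp
    have hdn : d ^ n = M.det := by
      have e : d ^ n = d ^ (2 * m + 1) := congrArg (fun k => d ^ k) hm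
      rw [e, pow_succ, pow_mul, pow_two, hdsq, hdd]
      field_simp
    have hB1 : ((d⁻¹ • M)ᵀ * (d⁻¹ • M)) = 1 := by
      rw [Matrix.transpose_smul, Matrix.smul_mul, Matrix.mul_smul, hc, smul_smul, smul_smul,
        ← hdsq]
      have : d⁻¹ * d⁻¹ * (d * d) = 1 := by field_simp
      rw [this, one_smul]
    have hB2 : (d⁻¹ • M).det = 1 := by
      rw [Matrix.det_smul, Fintype.card_fin, inv_pow, hdn, inv_mul_cancel₀ hMdet]
    have hBu : IsUnit (d⁻¹ • M).det := by rw [hB2]; exact isUnit_one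
    refine ⟨⟨Matrix.GeneralLinearGroup.mk'' (d⁻¹ • M) hBu, ⟨hB1, hB2⟩⟩, ?_⟩
    change QuotientGroup.mk' (ScalarGO n K) _ = QuotientGroup.mk' (ScalarGO n K) A
    rw [QuotientGroup.mk'_apply, QuotientGroup.mk'_apply]
    rw [QuotientGroup.eq]
    refine ⟨d, ?_⟩
    set B : GL (Fin n) K := Matrix.GeneralLinearGroup.mk'' (d⁻¹ • M) hBu with hBdef
    have hBv : (B : Matrix (Fin n) (Fin n) K) = d⁻¹ • M := rfl
    have hBinv : ((B⁻¹ : GL (Fin n) K) : Matrix (Fin n) (Fin n) K) * (B : Matrix (Fin n) (Fin n) K) =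
        1 := by
      rw [← Units.val_mul]; simp
    change ((B⁻¹ * (A : GL (Fin n) K) : GL (Fin n) K) : Matrix (Fin n) (Fin n) K) = d • 1
    rw [Units.val_mul, ← hM]
    have : M = d • (B : Matrix (Fin n) (Fin n) K) := by
      rw [hBv, smul_smul, mul_inv_cancel₀ hd0, one_smul]
    rw [this, Matrix.mul_smul, hBinv]
  exact ⟨(MulEquiv.ofBijective f ⟨hinj, hsurj⟩).symm⟩

/-- The diagonal sign matrices. -/
def Dg (i : Fin n) : Matrix (Fin n) (Fin n) K := Matrix.diagonal fun r => if r = i then -1 else 1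

theorem Dg_sq (i : Fin n) : (Dg i : Matrix (Fin n) (Fin n) K) * Dg i = 1 := by
  unfold Dg
  rw [Matrix.diagonal_mul_diagonal, ← Matrix.diagonal_one]
  congr 1
  ext r
  split_ifs <;> simp

/-- units from involutions -/
def invU (M : Matrix (Fin n) (Fin n) K) (h : M * M = 1) : GL (Fin n) K := ⟨M, M, h, h⟩

theorem Dg_GO (i : Fin n) : invU (Dg i : Matrix (Fin n) (Fin n) K) (Dg_sq i) ∈ GO n K := by
  refine ⟨1, ?_⟩
  change (Dg i : Matrix (Fin n) (Fin n) K)ᵀ * Dg i = 1 • 1
  have : (Dg i : Matrix (Fin n) (Fin n) K)ᵀ = Dg i := Matrix.diagonal_transpose _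
  rw [this, Dg_sq, one_smul]

/-- The permutation matrices of transpositions. -/
def Sw (i j : Fin n) : Matrix (Fin n) (Fin n) K :=
  Matrix.of fun r s => if s = Equiv.swap i j r then 1 else 0

theorem Sw_apply (i j r s : Fin n) :
    (Sw i j : Matrix (Fin n) (Fin n) K) r s = if s = Equiv.swap i j r then 1 else 0 := rfl

theorem Sw_sq (i j : Fin n) : (Sw i j : Matrix (Fin n) (Fin n) K) * Sw i j = 1 := by
  ext r s
  rw [Matrix.mul_apply, Finset.sum_eq_single (Equiv.swap i j r)]
  · rw [Sw_apply, Sw_apply, if_pos rfl, one_mul, Equiv.swap_apply_self, Matrix.one_apply]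
    simp [eq_comm]
  · intro t _ ht
    rw [Sw_apply, if_neg ht, zero_mul]
  · intro h; exact absurd (Finset.mem_univ _) h

theorem Sw_GO (i j : Fin n) : invU (Sw i j : Matrix (Fin n) (Fin n) K) (Sw_sq i j) ∈ GO n K := by
  refine ⟨1, ?_⟩
  change (Sw i j : Matrix (Fin n) (Fin n) K)ᵀ * Sw i j = 1 • 1
  have : (Sw i j : Matrix (Fin n) (Fin n) K)ᵀ = Sw i j := by
    ext r s
    rw [Matrix.transpose_apply, Sw_apply, Sw_apply]
    congr 1
    apply propext
    constructor
    · rintro rfl; simp
    · rintro rfl; simp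
  rw [this, Sw_sq, one_smul]

/-- A similitude whose class is central in `PGO` commutes up to scalars. -/
theorem central_comm {A : GO n K}
    (h : ∀ q : PGO n K, q * QuotientGroup.mk A = QuotientGroup.mk A * q) (B : GO n K) :
    ∃ c : K, ((A : GL (Fin n) K) : Matrix (Fin n) (Fin n) K) * ((B : GL (Fin n) K) : Matrix _ _ K) =
      c • (((B : GL (Fin n) K) : Matrix (Fin n) (Fin n) K) * ((A : GL (Fin n) K) : Matrix _ _ K)) := by
  have h1 : (QuotientGroup.mk (B * A) : PGO n K) = QuotientGroup.mk (A * B) := h (QuotientGroup.mk B)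
  rw [QuotientGroup.eq] at h1
  obtain ⟨c, hc⟩ := h1
  refine ⟨c, ?_⟩
  have h2 : (((B * A : GO n K)⁻¹ * (A * B) : GO n K) : GL (Fin n) K) =
      ((B : GL (Fin n) K) * A)⁻¹ * ((A : GL (Fin n) K) * B) := rfl
  rw [h2, Units.val_mul] at hc
  have h3 : (((B : GL (Fin n) K) * (A : GL (Fin n) K) : GL (Fin n) K) : Matrix (Fin n) (Fin n) K) *
      ((((B : GL (Fin n) K) * (A : GL (Fin n) K))⁻¹ : GL (Fin n) K) : Matrix (Fin n) (Fin n) K) = 1 := by
    rw [← Units.val_mul]; simp
  have h4 : (((B : GL (Fin n) K) * (A : GL (Fin n) K) : GL (Fin n) K) : Matrix (Fin n) (Fin n) K) *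
      (((((B : GL (Fin n) K) * (A : GL (Fin n) K))⁻¹ : GL (Fin n) K) : Matrix (Fin n) (Fin n) K) *
        (((A : GL (Fin n) K) * (B : GL (Fin n) K) : GL (Fin n) K) : Matrix (Fin n) (Fin n) K)) =
      (((B : GL (Fin n) K) * (A : GL (Fin n) K) : GL (Fin n) K) : Matrix (Fin n) (Fin n) K) *
        (c • 1) := by rw [hc]
  rw [← Matrix.mul_assoc, h3, one_mul, Matrix.mul_smul, mul_one, Units.val_mul, Units.val_mul] at h4
  exact h4

theorem GO_const (hn : 1 ≤ n) (A : GO n K) :
    ∃ c : K, c ≠ 0 ∧ ((A : GL (Fin n) K) : Matrix (Fin n) (Fin n) K)ᵀ * ((A : GL (Fin n) K) : Matrix _ _ K) =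
      c • 1 := by
  obtain ⟨c, hc⟩ := A.2
  refine ⟨c, ?_, hc⟩
  rintro rfl
  have hdet : (((A : GL (Fin n) K) : Matrix (Fin n) (Fin n) K)).det ≠ 0 := by
    have : IsUnit ((A : GL (Fin n) K) : Matrix (Fin n) (Fin n) K) := (A : GL (Fin n) K).isUnit
    exact ((Matrix.isUnit_iff_isUnit_det _).1 this).ne_zero
  haveI : Nonempty (Fin n) := ⟨⟨0, hn⟩⟩
  have := congrArg Matrix.det hc
  rw [Matrix.det_mul, Matrix.det_transpose, zero_smul, Matrix.det_zero] at this
  exact hdet (mul_self_eq_zero.1 this)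

theorem comm_Dg_entries {A : Matrix (Fin n) (Fin n) K} {i : Fin n} {c : K}
    (h : A * Dg i = c • (Dg i * A)) (r s : Fin n) :
    A r s * (if s = i then -1 else 1) = c * ((if r = i then -1 else 1) * A r s) := by
  have := congrFun (congrFun h r) s
  unfold Dg at this
  rwa [Matrix.mul_diagonal, Matrix.smul_apply, Matrix.diagonal_mul, smul_eq_mul] at this

/-- `PGO(n)` has trivial centre for `n ≥ 3`. -/
theorem center_PGO (h2 : (2 : K) ≠ 0) (hn : 3 ≤ n) (q : PGO n K)
    (hq : ∀ x : PGO n K, x * q = q * x) : q = 1 := by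
  obtain ⟨A, rfl⟩ := QuotientGroup.mk_surjective q
  set M : Matrix (Fin n) (Fin n) K := ((A : GL (Fin n) K) : Matrix (Fin n) (Fin n) K) with hM
  obtain ⟨lam, hl0, hlam⟩ := GO_const (by omega) A
  rw [← hM] at hlam
  have third : ∀ i j : Fin n, ∃ k, k ≠ i ∧ k ≠ j := by
    intro i j
    have h : ({i, j} : Finset (Fin n)).card < (Finset.univ : Finset (Fin n)).card := by
      calc ({i, j} : Finset (Fin n)).card ≤ 2 := Finset.card_le_two
        _ < (Finset.univ : Finset (Fin n)).card := by
          rw [Finset.card_univ, Fintype.card_fin]; omega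
    obtain ⟨m, -, hm⟩ := Finset.exists_mem_notMem_of_card_lt_card h
    simp only [Finset.mem_insert, Finset.mem_singleton, not_or] at hm
    exact ⟨m, hm.1, hm.2⟩
  -- commutation with the sign matrices
  have hD : ∀ i s : Fin n, s ≠ i → M i s = 0 := by
    intro i s hsi
    obtain ⟨c, hc⟩ := central_comm hq ⟨_, Dg_GO i⟩
    change M * Dg i = c • (Dg i * M) at hc
    have he := comm_Dg_entries hc
    have hc1 : c = 1 := by
      by_contra hc1
      have hz : ∀ r t, r ≠ i → t ≠ i → M r t = 0 := by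
        intro r t hr ht
        have := he r t
        rw [if_neg hr, if_neg ht] at this
        have h5 : (1 - c) * M r t = 0 := by linear_combination this
        rcases mul_eq_zero.1 h5 with h | h
        · exact absurd (sub_eq_zero.1 h).symm hc1
        · exact h
      obtain ⟨k, hki, hks⟩ := third i s
      have col : ∀ t, t ≠ i → ∀ u, u ≠ i → (Mᵀ * M) t u = M i t * M i u := by
        intro t ht u hu
        rw [Matrix.mul_apply]
        rw [Finset.sum_eq_single i]
        · rfl
        · intro r _ hr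
          rw [Matrix.transpose_apply, hz r t hr ht, zero_mul]
        · intro h; exact absurd (Finset.mem_univ _) h
      have a1 := col s hsi s hsi
      have a2 := col k hki k hki
      have a3 := col s hsi k hki
      rw [hlam] at a1 a2 a3
      simp only [Matrix.smul_apply, Matrix.one_apply_eq, smul_eq_mul, mul_one] at a1 a2
      rw [Matrix.smul_apply, Matrix.one_apply_ne (Ne.symm hks), smul_zero] at a3
      rcases mul_eq_zero.1 a3.symm with h | h
      · rw [h, zero_mul] at a1; exact hl0 a1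
      · rw [h, zero_mul] at a2; exact hl0 a2
    have := he i s
    rw [if_pos rfl, if_neg hsi, hc1] at this
    have h5 : 2 * M i s = 0 := by linear_combination this
    exact (mul_eq_zero.1 h5).resolve_left h2
  have hMii : ∀ i, M i i ≠ 0 := by
    intro i h
    have := congrFun (congrFun hlam i) i
    rw [Matrix.mul_apply, Finset.sum_eq_single i, Matrix.transpose_apply, h, mul_zero,
      Matrix.smul_apply, Matrix.one_apply_eq, smul_eq_mul, mul_one] at this
    · exact hl0 this.symm
    · intro r _ hr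
      rw [Matrix.transpose_apply, hD r i (Ne.symm hr), zero_mul]
    · intro h; exact absurd (Finset.mem_univ _) h
  have hEq : ∀ i j, M i i = M j j := by
    intro i j
    rcases eq_or_ne i j with rfl | hij
    · rfl
    obtain ⟨k, hki, hkj⟩ := third i j
    obtain ⟨c, hc⟩ := central_comm hq ⟨_, Sw_GO i j⟩
    change M * Sw i j = c • (Sw i j * M) at hc
    have e1 : ∀ r s, (M * (Sw i j : Matrix (Fin n) (Fin n) K)) r s = M r (Equiv.swap i j s) := by
      intro r s
      rw [Matrix.mul_apply, Finset.sum_eq_single (Equiv.swap i j s)]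
      · rw [Sw_apply]; simp
      · intro t _ ht
        rw [Sw_apply, if_neg, mul_zero]
        intro h
        apply ht
        rw [h]; simp
      · intro h; exact absurd (Finset.mem_univ _) h
    have e2 : ∀ r s, ((Sw i j : Matrix (Fin n) (Fin n) K) * M) r s = M (Equiv.swap i j r) s := by
      intro r s
      rw [Matrix.mul_apply, Finset.sum_eq_single (Equiv.swap i j r)]
      · rw [Sw_apply]; simp
      · intro t _ ht
        rw [Sw_apply, if_neg ht, zero_mul]
      · intro h; exact absurd (Finset.mem_univ _) h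
    have h1 := congrFun (congrFun hc k) k
    rw [Matrix.smul_apply, e1, e2, Equiv.swap_apply_of_ne_of_ne hki hkj, smul_eq_mul] at h1
    have hc1 : c = 1 := by
      have h5 : (c - 1) * M k k = 0 := by linear_combination -h1
      rcases mul_eq_zero.1 h5 with h | h
      · exact sub_eq_zero.1 h
      · exact absurd h (hMii k)
    have h3 := congrFun (congrFun hc i) j
    rw [Matrix.smul_apply, e1, e2, Equiv.swap_apply_right, Equiv.swap_apply_left, hc1,
      one_smul] at h3
    exact h3
  rw [QuotientGroup.eq_one_iff]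
  refine ⟨M ⟨0, by omega⟩ ⟨0, by omega⟩, ?_⟩
  rw [← hM]
  ext r s
  rcases eq_or_ne r s with rfl | hrs
  · rw [Matrix.smul_apply, Matrix.one_apply_eq, smul_eq_mul, mul_one]; exact hEq _ _
  · rw [Matrix.smul_apply, Matrix.one_apply_ne hrs, smul_zero]; exact hD r s (Ne.symm hrs)

/-- Central elements of `PGO(2)` have square one. -/
theorem center_PGO2 (h2 : (2 : K) ≠ 0) (q : PGO 2 K)
    (hq : ∀ x : PGO 2 K, x * q = q * x) : q * q = 1 := by
  obtain ⟨A, rfl⟩ := QuotientGroup.mk_surjective q
  set M : Matrix (Fin 2) (Fin 2) K := ((A : GL (Fin 2) K) : Matrix (Fin 2) (Fin 2) K) with hM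
  obtain ⟨lam, hl0, hlam⟩ := GO_const (n := 2) (by omega) A
  rw [← hM] at hlam
  obtain ⟨c, hc⟩ := central_comm hq ⟨_, Dg_GO 0⟩
  change M * Dg 0 = c • (Dg 0 * M) at hc
  have he := comm_Dg_entries hc
  have h00 := he 0 0
  have h01 := he 0 1
  have h10 := he 1 0
  have h11 := he 1 1
  simp at h00 h01 h10 h11
  have l00 := congrFun (congrFun hlam 0) 0
  have l01 := congrFun (congrFun hlam 0) 1
  have l11 := congrFun (congrFun hlam 1) 1
  simp [Matrix.mul_apply, Fin.sum_univ_two] at l00 l01 l11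
  have hsq : M * M = (M 0 0 * M 0 0 + M 0 1 * M 1 0) • 1 := by
    rcases eq_or_ne c 1 with hc1 | hc1
    · rw [hc1] at h01 h10
      have z1 : M 0 1 = 0 := by
        have : 2 * M 0 1 = 0 := by linear_combination h01
        exact (mul_eq_zero.1 this).resolve_left h2
      have z2 : M 1 0 = 0 := by
        have : 2 * M 1 0 = 0 := by linear_combination -h10
        exact (mul_eq_zero.1 this).resolve_left h2
      have l00' : M 0 0 * M 0 0 = lam := by rw [z2, mul_zero, add_zero] at l00; exact l00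
      have l11' : M 1 1 * M 1 1 = lam := by rw [z1, mul_zero, zero_add] at l11; exact l11
      ext r s
      rw [Matrix.mul_apply, Fin.sum_univ_two, Matrix.smul_apply, smul_eq_mul]
      fin_cases r <;> fin_cases s
      · change M 0 0 * M 0 0 + M 0 1 * M 1 0 = (M 0 0 * M 0 0 + M 0 1 * M 1 0) * 1
        rw [mul_one]
      · change M 0 0 * M 0 1 + M 0 1 * M 1 1 = (M 0 0 * M 0 0 + M 0 1 * M 1 0) * 0
        rw [z1]; ring
      · change M 1 0 * M 0 0 + M 1 1 * M 1 0 = (M 0 0 * M 0 0 + M 0 1 * M 1 0) * 0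
        rw [z2]; ring
      · change M 1 0 * M 0 1 + M 1 1 * M 1 1 = (M 0 0 * M 0 0 + M 0 1 * M 1 0) * 1
        rw [l11', l00']; ring
    · have z1 : M 0 0 = 0 := by
        have : (c - 1) * M 0 0 = 0 := by linear_combination -h00
        exact (mul_eq_zero.1 this).resolve_left (sub_ne_zero.2 hc1)
      have z2 : M 1 1 = 0 := by
        have : (c - 1) * M 1 1 = 0 := by linear_combination -h11
        exact (mul_eq_zero.1 this).resolve_left (sub_ne_zero.2 hc1)
      ext r s
      rw [Matrix.mul_apply, Fin.sum_univ_two, Matrix.smul_apply, smul_eq_mul]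
      fin_cases r <;> fin_cases s
      · change M 0 0 * M 0 0 + M 0 1 * M 1 0 = (M 0 0 * M 0 0 + M 0 1 * M 1 0) * 1
        rw [mul_one]
      · change M 0 0 * M 0 1 + M 0 1 * M 1 1 = (M 0 0 * M 0 0 + M 0 1 * M 1 0) * 0
        rw [z1, z2]; ring
      · change M 1 0 * M 0 0 + M 1 1 * M 1 0 = (M 0 0 * M 0 0 + M 0 1 * M 1 0) * 0
        rw [z1, z2]; ring
      · change M 1 0 * M 0 1 + M 1 1 * M 1 1 = (M 0 0 * M 0 0 + M 0 1 * M 1 0) * 1
        rw [z1, z2]; ring
  have : (QuotientGroup.mk A : PGO 2 K) * QuotientGroup.mk A = QuotientGroup.mk (A * A) := rfl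
  rw [this, QuotientGroup.eq_one_iff]
  exact ⟨_, hsq⟩

end K3h69.OM
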