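import Pool.Agent.K3h69.OM.Skew
import Pool.Agent.K3h69.OM.MinusIso

/-!
# Automorphisms of the Hermitian octonion matrices, `n ≥ 4`
-/

namespace K3h69.OM

open Matrix

set_option linter.unusedSectionVars false
set_option maxHeartbeats 1000000

variable {K : Type*} [Field K] {n : ℕ}

/-- A pair of mutually inverse automorphisms of `Sym⁺`, given by linear maps on all matrices. -/
structure TotP (Φ Ψ : OMat n K →ₗ[K] OMat n K) : Prop where
  mem : ∀ X ∈ SymP n K, Φ X ∈ SymP n K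
  mem' : ∀ X ∈ SymP n K, Ψ X ∈ SymP n K
  mul : ∀ X ∈ SymP n K, ∀ Y ∈ SymP n K, Φ (jo X Y) = jo (Φ X) (Φ Y)
  mul' : ∀ X ∈ SymP n K, ∀ Y ∈ SymP n K, Ψ (jo X Y) = jo (Ψ X) (Ψ Y)
  lr : ∀ X ∈ SymP n K, Ψ (Φ X) = X
  rl : ∀ X ∈ SymP n K, Φ (Ψ X) = X

theorem TotP.symm {Φ Ψ : OMat n K →ₗ[K] OMat n K} (h : TotP Φ Ψ) : TotP Ψ Φ :=
  ⟨h.mem', h.mem, h.mul', h.mul, h.rl, h.lr⟩

theorem jo_memP {X Y : OMat n K} (hX : X ∈ SymP n K) (hY : Y ∈ SymP n K) : jo X Y ∈ SymP n K := by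
  rw [mem_SymP] at *
  unfold jo
  rw [J_add, J_mul, J_mul, hX, hY, add_comm]

theorem sq_memP {X : OMat n K} (hX : X ∈ SymP n K) : X * X ∈ SymP n K := by
  rw [mem_SymP] at *
  rw [J_mul, hX]

theorem totP_act (h2 : (2 : K) ≠ 0) {g : Oct K ≃ₗ[K] Oct K} (hg : g ∈ G2 K) {A : GL (Fin n) K}
    (hA : A ∈ GO n K) : TotP (actL g A) (actL g⁻¹ A⁻¹) where
  mem X hX := act_memP h2 hg hA hX
  mem' X hX := act_memP h2 ((AutAlg K _).inv_mem hg) ((GO n K).inv_mem hA) hX
  mul X _ Y _ := by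
    simp only [actL_apply, jo, act_add, act_mul hg]
  mul' X _ Y _ := by
    simp only [actL_apply, jo, act_add, act_mul ((AutAlg K _).inv_mem hg)]
  lr X _ := act_cancel hg A X
  rl X _ := act_cancel' hg A X

theorem TotP.comp {Φ Ψ Φ' Ψ' : OMat n K →ₗ[K] OMat n K} (h' : TotP Φ' Ψ') (h : TotP Φ Ψ) :
    TotP (Φ' ∘ₗ Φ) (Ψ ∘ₗ Ψ') where
  mem X hX := h'.mem _ (h.mem _ hX)
  mem' X hX := h.mem' _ (h'.mem' _ hX)
  mul X hX Y hY := by
    simp only [LinearMap.comp_apply]
    rw [h.mul _ hX _ hY, h'.mul _ (h.mem _ hX) _ (h.mem _ hY)]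
  mul' X hX Y hY := by
    simp only [LinearMap.comp_apply]
    rw [h'.mul' _ hX _ hY, h.mul' _ (h'.mem' _ hX) _ (h'.mem' _ hY)]
  lr X hX := by
    simp only [LinearMap.comp_apply]
    rw [h'.lr _ (h.mem _ hX), h.lr _ hX]
  rl X hX := by
    simp only [LinearMap.comp_apply]
    rw [h.rl _ (h'.mem' _ hX), h'.rl _ hX]

theorem R_memP {s : Matrix (Fin n) (Fin n) K} (hs : sᵀ = s) : R s ∈ SymP n K := by
  rw [mem_SymP, J_R, hs]

theorem QQ_R (s : Matrix (Fin n) (Fin n) K) (b y : OMat n K) : QQ (R s) b y = 0 := by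
  have hRR : ∀ X : OMat n K, R s * (R s * X) = R (s * s) * X := by
    intro X; rw [R_mul, R_mul_mul]
  unfold QQ jo
  rw [← R_mul s s]
  simp only [Matrix.add_mul, Matrix.mul_add, R_mul_mul, mul_R_mul, mul_mul_R, hRR, ← R_mul s s]
  abel

theorem TotP.sq {Φ Ψ : OMat n K →ₗ[K] OMat n K} (h : TotP Φ Ψ) (h2 : (2 : K) ≠ 0) {X : OMat n K}
    (hX : X ∈ SymP n K) : Φ (X * X) = Φ X * Φ X := by
  have e := h.mul X hX X hX
  unfold jo at e
  rw [← two_smul K (X * X), ← two_smul K (Φ X * Φ X), map_smul] at e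
  exact smul_right_injective _ h2 e

theorem TotP.QQ {Φ Ψ : OMat n K →ₗ[K] OMat n K} (h : TotP Φ Ψ) (h2 : (2 : K) ≠ 0)
    {a b y : OMat n K} (ha : a ∈ SymP n K) (hb : b ∈ SymP n K) (hy : y ∈ SymP n K) :
    Φ (QQ a b y) = QQ (Φ a) (Φ b) (Φ y) := by
  have hab := jo_memP ha hb
  have haby := jo_memP hab hy
  have hya := jo_memP hy ha
  have haa := sq_memP ha
  have haay := jo_memP haa hy
  have hyb := jo_memP hy hb
  unfold K3h69.OM.QQ
  rw [map_sub, map_add, map_sub, h.mul _ haby _ ha, h.mul _ hab _ hy, h.mul _ hab _ hya,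
    h.mul _ hy _ ha, h.mul _ haay _ hb, h.mul _ haa _ hy, h.mul _ haa _ hyb, h.mul _ hy _ hb,
    h.mul _ ha _ hb, h.sq h2 ha]

theorem TotP.real {Φ Ψ : OMat n K →ₗ[K] OMat n K} (h : TotP Φ Ψ) (h2 : (2 : K) ≠ 0)
    (hn : 4 ≤ n) {s : Matrix (Fin n) (Fin n) K} (hs : sᵀ = s) :
    Φ (R s) = R (co 0 (Φ (R s))) := by
  have ha := h.mem _ (R_memP hs)
  have key : ∀ b ∈ SymP n K, ∀ y ∈ SymP n K, K3h69.OM.QQ (Φ (R s)) b y = 0 := by
    intro b hb y hy
    rw [← h.rl b hb, ← h.rl y hy, ← h.QQ h2 (R_memP hs) (h.mem' _ hb) (h.mem' _ hy), QQ_R,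
      map_zero]
  ext1 i j
  have z : ∀ q : Fin 8, q ≠ 0 → Φ (R s) i j q = 0 := fun q hq =>
    real_of_QQ h2 hn ha key hq i j
  have z1 := z 1 (by decide)
  have z2 := z 2 (by decide)
  have z3 := z 3 (by decide)
  have z4 := z 4 (by decide)
  have z5 := z 5 (by decide)
  have z6 := z 6 (by decide)
  have z7 := z 7 (by decide)
  apply Oct.ext8 <;> simp [R_apply, co, Oct.C, *]

theorem R_single (i j : Fin n) : R (Matrix.single i j (1 : K)) = Matrix.single i j (1 : Oct K) := by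
  ext1 r s
  rw [R_apply, Matrix.single_apply, Matrix.single_apply]
  split_ifs <;> simp

theorem peirce {i j : Fin n} (hij : i ≠ j) {Y : OMat n K} (hY : Y ∈ SymP n K)
    (h1 : jo (R (Matrix.single i i 1)) Y = Y) (h2' : jo (R (Matrix.single j j 1)) Y = Y) :
    Y = Xm i j (Y i j) := by
  have e1 : ∀ r s, (if r = i then Y i s else 0) + (if s = i then Y r i else 0) = Y r s := by
    intro r s
    have := congrFun (congrFun h1 r) s
    rw [R_single, jo, Matrix.add_apply, single_mul', mul_single'] at this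
    simpa using this
  have e2 : ∀ r s, (if r = j then Y j s else 0) + (if s = j then Y r j else 0) = Y r s := by
    intro r s
    have := congrFun (congrFun h2' r) s
    rw [R_single, jo, Matrix.add_apply, single_mul', mul_single'] at this
    simpa using this
  ext1 r s
  rw [Xm_apply]
  by_cases hri : r = i
  · subst hri
    by_cases hsj : s = j
    · subst hsj; simp [hij]
    · have := e2 r s
      simp only [hij, hsj, if_false, add_zero] at this
      simp [hsj, hij, ← this]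
  · by_cases hrj : r = j
    · subst hrj
      by_cases hsi : s = i
      · subst hsi; simp [hri, Ne.symm hij, ← symP_swap hY s r]
      · have := e1 r s
        simp only [hri, hsi, if_false, add_zero] at this
        simp [hri, hsi, ← this]
    · by_cases hsi : s = i
      · have := e2 r s
        have hsj : s ≠ j := by rw [hsi]; exact hij
        simp only [hrj, hsj, if_false, add_zero] at this
        simp [hri, hrj, ← this]
      · have := e1 r s
        simp only [hri, hsi, if_false, add_zero] at this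
        simp [hri, hrj, ← this]

theorem jo_E_Xm {i j : Fin n} (hij : i ≠ j) (x : Oct K) :
    jo (R (Matrix.single i i 1)) (Xm i j x) = Xm i j x := by
  ext1 r s
  rw [R_single, jo, Matrix.add_apply, single_mul', mul_single', Xm_apply, Xm_apply, Xm_apply]
  by_cases hri : r = i <;> by_cases hsi : s = i <;> by_cases hsj : s = j <;>
    by_cases hrj : r = j <;> simp_all

theorem Xm_swap (i j : Fin n) (x : Oct K) : Xm j i (Oct.conj x) = Xm i j x := by
  rw [Xm, Xm, Oct.conj_conj, add_comm]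

theorem jo_E_Xm' {i j : Fin n} (hij : i ≠ j) (x : Oct K) :
    jo (R (Matrix.single j j 1)) (Xm i j x) = Xm i j x := by
  rw [← Xm_swap i j x]; exact jo_E_Xm (Ne.symm hij) _

theorem jo_Xm_Xm {i j k : Fin n} (hij : i ≠ j) (hik : i ≠ k) (hjk : j ≠ k) (x y : Oct K) :
    jo (Xm i j x) (Xm j k y) = Xm i k (x * y) := by
  ext1 r s
  rw [jo, Matrix.add_apply, Xm_mul, mul_Xm]
  simp only [Xm_apply, Oct.conj_mul]
  by_cases hri : r = i
  · subst hri
    by_cases hsk : s = k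
    · subst hsk; simp [hij, hik, hjk, Ne.symm hij, Ne.symm hik, Ne.symm hjk]
    · simp [hij, hik, hjk, Ne.symm hij, Ne.symm hik, Ne.symm hjk, hsk]
  · by_cases hrk : r = k
    · subst hrk
      by_cases hsi : s = i
      · subst hsi; simp [hij, hik, hjk, Ne.symm hij, Ne.symm hik, Ne.symm hjk]
      · simp [hij, hik, hjk, Ne.symm hij, Ne.symm hik, Ne.symm hjk, hsi]
    · simp [hri, hrk, hij, hik, hjk, Ne.symm hij, Ne.symm hik, Ne.symm hjk]

theorem Xm_inj {i j : Fin n} (hij : i ≠ j) {x y : Oct K} (h : Xm i j x = Xm i j y) : x = y := by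
  have := congrFun (congrFun h i) j
  simpa [Xm_apply, hij] using this

theorem Xm_add (i j : Fin n) (x y : Oct K) : Xm i j (x + y) = Xm i j x + Xm i j y := by
  ext1 r s; simp only [Xm_apply, Matrix.add_apply, map_add]; split_ifs <;> abel

theorem Xm_smul (i j : Fin n) (c : K) (x : Oct K) : Xm i j (c • x) = c • Xm i j x := by
  ext1 r s; simp only [Xm_apply, Matrix.smul_apply, map_smul, smul_add, smul_ite, smul_zero]

theorem two_eq_sum {X : OMat n K} (hX : X ∈ SymP n K) : X + X = ∑ r, ∑ s, Xm r s (X r s) := by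
  have e1 : X = ∑ i, ∑ j, Matrix.single i j (X i j) := Matrix.matrix_eq_sum_single X
  have e2 : X = ∑ i, ∑ j, Matrix.single j i (X j i) := by
    rw [Finset.sum_comm]; exact e1
  calc X + X = (∑ i, ∑ j, Matrix.single i j (X i j)) + ∑ i, ∑ j, Matrix.single j i (X j i) := by
        rw [← e1, ← e2]
    _ = ∑ r, ∑ s, Xm r s (X r s) := by
        simp only [← Finset.sum_add_distrib]
        apply Finset.sum_congr rfl; intro r _
        apply Finset.sum_congr rfl; intro s _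
        rw [Xm, symP_swap hX r s]

theorem TotP.main {Φ Ψ : OMat n K →ₗ[K] OMat n K} (h : TotP Φ Ψ) (h2 : (2 : K) ≠ 0)
    (hn : 4 ≤ n) :
    ∃ g ∈ G2 K, ∃ A ∈ GO n K, ∀ X ∈ SymP n K, Φ X = act g A X := by
  have hone : (1 : GL (Fin n) K) ∈ GO n K := (GO n K).one_mem
  have hone' : (1 : Oct K ≃ₗ[K] Oct K) ∈ G2 K := (AutAlg K _).one_mem
  set i0 : Fin n := ⟨0, by omega⟩ with hi0
  set θ : Matrix (Fin n) (Fin n) K →ₗ[K] Matrix (Fin n) (Fin n) K :=
    { toFun := fun t => co 0 (Φ (R t))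
      map_add' := by intro s t; rw [R_add, map_add, co_add]
      map_smul' := by intro c t; rw [R_smul, map_smul, co_smul]; rfl } with hθ
  have f1 : ∀ s : Matrix (Fin n) (Fin n) K, sᵀ = s → Φ (R s) = R (θ s) :=
    fun s hs => h.real h2 hn hs
  have θs : ∀ X, Xᵀ = X → (θ X)ᵀ = θ X := by
    intro X hX
    have := h.mem _ (R_memP hX)
    rw [f1 X hX, mem_SymP, J_R] at this
    exact R_injective this
  have θj : ∀ X Y, Xᵀ = X → Yᵀ = Y → θ (X * Y + Y * X) = θ X * θ Y + θ Y * θ X := by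
    intro X Y hX hY
    have hXY : (X * Y + Y * X)ᵀ = X * Y + Y * X := by
      rw [Matrix.transpose_add, Matrix.transpose_mul, Matrix.transpose_mul, hX, hY, add_comm]
    apply R_injective
    rw [← f1 _ hXY, R_add, R_mul, R_mul, R_add, R_mul, R_mul, ← f1 X hX, ← f1 Y hY]
    exact h.mul _ (R_memP hX) _ (R_memP hY)
  have Rz : R (0 : Matrix (Fin n) (Fin n) K) = 0 := by ext1 i j; simp [R_apply]
  have θi : ∀ X, Xᵀ = X → θ X = 0 → X = 0 := by
    intro X hX h0
    have e := h.lr _ (R_memP hX)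
    rw [f1 X hX, h0, Rz, map_zero] at e
    apply R_injective
    rw [Rz, ← e]
  obtain ⟨A, hA, hθA⟩ := jordan_conj i0 θ h2 θs θj θi
  have hA' : A⁻¹ ∈ GO n K := (GO n K).inv_mem hA
  have hAA : ((A⁻¹ : GL (Fin n) K) : Matrix (Fin n) (Fin n) K) * (A : Matrix (Fin n) (Fin n) K) = 1 := by
    rw [← Units.val_mul]; simp
  set Φ1 : OMat n K →ₗ[K] OMat n K := actL (1 : Oct K ≃ₗ[K] Oct K) A⁻¹ ∘ₗ Φ with hΦ1
  obtain ⟨Ψ1, h1⟩ : ∃ Ψ1, TotP Φ1 Ψ1 := ⟨_, (totP_act h2 hone' hA').comp h⟩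
  have f2 : ∀ s : Matrix (Fin n) (Fin n) K, sᵀ = s → Φ1 (R s) = R s := by
    intro s hs
    rw [hΦ1, LinearMap.comp_apply, f1 s hs, actL_apply, ← tn_one_right, act_tn, inv_inv,
      Matrix.mul_assoc, hθA s hs, ← Matrix.mul_assoc, hAA, one_mul]
    exact tn_one_right s
  have f2' : ∀ s : Matrix (Fin n) (Fin n) K, sᵀ = s → Ψ1 (R s) = R s := by
    intro s hs
    have := h1.lr _ (R_memP hs)
    rwa [f2 s hs] at this
  -- the maps `ψ_ij`
  have pX : ∀ (Φ' Ψ' : OMat n K →ₗ[K] OMat n K), TotP Φ' Ψ' →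
      (∀ s : Matrix (Fin n) (Fin n) K, sᵀ = s → Φ' (R s) = R s) →
      ∀ i j : Fin n, i ≠ j → ∀ x : Oct K, Φ' (Xm i j x) = Xm i j (Φ' (Xm i j x) i j) := by
    intro Φ' Ψ' h' hf i j hij x
    apply peirce hij (h'.mem _ (Xm_memP x))
    · rw [← hf (Matrix.single i i 1) (by simp), ← h'.mul _ (R_memP (by simp)) _ (Xm_memP x),
        jo_E_Xm hij]
    · rw [← hf (Matrix.single j j 1) (by simp), ← h'.mul _ (R_memP (by simp)) _ (Xm_memP x),
        jo_E_Xm' hij]
  set ψ : Fin n → Fin n → Oct K → Oct K := fun i j x => Φ1 (Xm i j x) i j with hψ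
  have p1 : ∀ i j, i ≠ j → ∀ x, Φ1 (Xm i j x) = Xm i j (ψ i j x) :=
    fun i j hij x => pX Φ1 Ψ1 h1 f2 i j hij x
  have p2 : ∀ i j k, i ≠ j → i ≠ k → j ≠ k → ∀ x y, ψ i k (x * y) = ψ i j x * ψ j k y := by
    intro i j k hij hik hjk x y
    apply Xm_inj hik
    rw [← p1 i k hik, ← jo_Xm_Xm hij hik hjk, h1.mul _ (Xm_memP x) _ (Xm_memP y), p1 i j hij,
      p1 j k hjk, jo_Xm_Xm hij hik hjk]
  have p3 : ∀ i j, i ≠ j → ψ i j 1 = 1 := by
    intro i j hij
    have e : Xm i j (1 : Oct K) = R (Matrix.single i j 1 + Matrix.single j i 1) := by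
      rw [R_add, R_single, R_single, Xm, Oct.conj_one]
    simp only [hψ]
    rw [e, f2 _ (by simp [add_comm]), ← e, Xm_apply]
    simp [hij]
  have p4 : ∀ i j k, i ≠ j → i ≠ k → j ≠ k → ∀ x, ψ i k x = ψ i j x := by
    intro i j k hij hik hjk x
    have := p2 i j k hij hik hjk x 1
    rwa [mul_one, p3 j k hjk, mul_one] at this
  have p5 : ∀ i j k, i ≠ j → i ≠ k → j ≠ k → ∀ x, ψ i k x = ψ j k x := by
    intro i j k hij hik hjk x
    have := p2 i j k hij hik hjk 1 x
    rwa [one_mul, p3 i j hij, one_mul] at this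
  set j0 : Fin n := ⟨1, by omega⟩ with hj0
  have hij0 : i0 ≠ j0 := by
    intro hh
    have := congrArg Fin.val hh
    simp [hi0, hj0] at this
  have q1 : ∀ k l, k ≠ l → l ≠ i0 → ∀ x, ψ k l x = ψ i0 j0 x := by
    intro k l hkl hl x
    have a1 : ψ i0 l x = ψ i0 j0 x := by
      rcases eq_or_ne l j0 with rfl | hlj
      · rfl
      · exact p4 i0 j0 l hij0 (Ne.symm hl) (Ne.symm hlj) x
    rcases eq_or_ne k i0 with rfl | hk
    · exact a1
    · rw [← a1]; exact p5 k i0 l hk hkl (Ne.symm hl) x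
  have q2 : ∀ k l, k ≠ l → ∀ x, ψ k l x = ψ i0 j0 x := by
    intro k l hkl x
    rcases eq_or_ne l i0 with rfl | hl
    · obtain ⟨m, hmk, hml, -⟩ := exists_fourth hn k i0 i0
      rw [← q1 k m (Ne.symm hmk) hml x]
      exact p4 k m i0 (Ne.symm hmk) hkl hml x
    · exact q1 k l hkl hl x
  have gmul : ∀ x y, ψ i0 j0 (x * y) = ψ i0 j0 x * ψ i0 j0 y := by
    intro x y
    obtain ⟨m, hmi, hmj, -⟩ := exists_fourth hn i0 j0 j0
    rw [p2 i0 m j0 (Ne.symm hmi) hij0 hmj, q2 i0 m (Ne.symm hmi), q2 m j0 hmj]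
  -- linear equivalence
  have glin : ∀ (Φ' : OMat n K →ₗ[K] OMat n K), ∃ G : Oct K →ₗ[K] Oct K,
      ∀ x, G x = Φ' (Xm i0 j0 x) i0 j0 := by
    intro Φ'
    refine ⟨{ toFun := fun x => Φ' (Xm i0 j0 x) i0 j0, map_add' := ?_, map_smul' := ?_ },
      fun x => rfl⟩
    · intro x y; rw [Xm_add, map_add, Matrix.add_apply]
    · intro c x; rw [Xm_smul, map_smul, Matrix.smul_apply]; rfl
  obtain ⟨G, hG⟩ := glin Φ1
  obtain ⟨G', hG'⟩ := glin Ψ1
  have hGG' : ∀ x, G' (G x) = x := by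
    intro x
    rw [hG', hG, ← p1 i0 j0 hij0 x, h1.lr _ (Xm_memP x), Xm_apply]
    simp [hij0]
  have hG'G : ∀ x, G (G' x) = x := by
    intro x
    rw [hG, hG', ← pX Ψ1 Φ1 h1.symm f2' i0 j0 hij0 x, h1.rl _ (Xm_memP x), Xm_apply]
    simp [hij0]
  set g : Oct K ≃ₗ[K] Oct K := LinearEquiv.ofLinearMap G G' (LinearMap.ext hG'G)
    (LinearMap.ext hGG') with hgdef
  have hgx : ∀ x, g x = ψ i0 j0 x := fun x => hG x
  have hg : g ∈ G2 K := by
    rw [mem_AutAlg]
    intro x y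
    rw [hgx, hgx, hgx, gmul]
  -- `Φ1 X = g(X)`
  have f3 : ∀ X ∈ SymP n K, Φ1 X = act g 1 X := by
    intro X hX
    have hgX : act g 1 X = X.map g := by
      unfold act
      simp
    have hmem : X.map g ∈ SymP n K := by
      rw [← hgX]; exact act_memP h2 hg hone hX
    have e1 : Φ1 (X + X) = X.map g + X.map g := by
      rw [two_eq_sum hX, two_eq_sum hmem, map_sum]
      apply Finset.sum_congr rfl; intro r _
      rw [map_sum]
      apply Finset.sum_congr rfl; intro s _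
      rw [Matrix.map_apply]
      rcases eq_or_ne r s with rfl | hrs
      · have hr := diag_real h2 hX r
        rw [hr, g_C hg]
        have e : Xm r r (Oct.C (X r r 0)) = R (Matrix.single r r (2 * X r r 0)) := by
          ext1 u v
          rw [Xm_apply, R_apply, Matrix.single_apply, Oct.conj_C]
          by_cases hu : u = r
          · by_cases hv : v = r
            · subst hu; subst hv
              simp [two_mul, Oct.C_add]
            · simp [hv, Ne.symm hv]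
          · simp [hu, Ne.symm hu]
        rw [e, f2 _ (by simp)]
      · rw [p1 r s hrs, q2 r s hrs, hgx]
    rw [map_add] at e1
    have e2 : (2 : K) • Φ1 X = (2 : K) • X.map g := by rw [two_smul, two_smul, e1]
    rw [hgX]
    exact smul_right_injective _ h2 e2
  refine ⟨g, hg, A, hA, ?_⟩
  intro X hX
  have e1 := f3 X hX
  rw [hΦ1, LinearMap.comp_apply, actL_apply] at e1
  calc Φ X = act 1 A (act 1 A⁻¹ (Φ X)) := by
        have c1 := act_cancel' (n := n) hone' A (Φ X)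
        rw [inv_one] at c1
        rw [c1]
    _ = act 1 A (act g 1 X) := by rw [e1]
    _ = act g A X := by rw [act_act _ _ hone', mul_one, one_mul]

/-- Projection onto the Hermitian matrices. -/
def projP (h2 : (2 : K) ≠ 0) : OMat n K →ₗ[K] SymP n K where
  toFun X := ⟨(2 : K)⁻¹ • (X + J X), by
    rw [mem_SymP, J_smul, J_add, J_J, add_comm]⟩
  map_add' X Y := by
    apply Subtype.ext
    simp only [J_add, Submodule.coe_add, ← smul_add]
    congr 1; abel
  map_smul' c X := by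
    apply Subtype.ext
    simp only [J_smul, RingHom.id_apply, Submodule.coe_smul, ← smul_add, smul_smul, mul_comm]

theorem projP_coe (h2 : (2 : K) ≠ 0) {X : OMat n K} (hX : X ∈ SymP n K) :
    projP h2 X = ⟨X, hX⟩ := by
  apply Subtype.ext
  change (2 : K)⁻¹ • (X + J X) = X
  rw [mem_SymP.1 hX, ← two_smul K X, smul_smul, inv_mul_cancel₀ h2, one_smul]

/-- Extend an automorphism to all matrices. -/
def extP (h2 : (2 : K) ≠ 0) (φ : SymP n K ≃ₗ[K] SymP n K) : OMat n K →ₗ[K] OMat n K :=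
  (SymP n K).subtype ∘ₗ (φ : SymP n K →ₗ[K] SymP n K) ∘ₗ projP h2

theorem extP_apply (h2 : (2 : K) ≠ 0) (φ : SymP n K ≃ₗ[K] SymP n K) {X : OMat n K}
    (hX : X ∈ SymP n K) : extP h2 φ X = φ ⟨X, hX⟩ := by
  change ((φ (projP h2 X) : SymP n K) : OMat n K) = _
  rw [projP_coe h2 hX]

theorem ext_jo (h2 : (2 : K) ≠ 0) {φ : SymP n K ≃ₗ[K] SymP n K} (hφ : φ ∈ AutP n K)
    {X Y : OMat n K} (hX : X ∈ SymP n K) (hY : Y ∈ SymP n K) :
    extP h2 φ (jo X Y) = jo (extP h2 φ X) (extP h2 φ Y) := by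
  have e := congrArg Subtype.val (hφ ⟨X, hX⟩ ⟨Y, hY⟩)
  rw [jmul_coe] at e
  rw [extP_apply h2 _ hX, extP_apply h2 _ hY]
  have e1 : (jmul ⟨X, hX⟩ ⟨Y, hY⟩ : SymP n K) = (1 / 2 : K) • ⟨jo X Y, jo_memP hX hY⟩ :=
    Subtype.ext rfl
  rw [e1, map_smul, Submodule.coe_smul] at e
  rw [extP_apply h2 _ (jo_memP hX hY)]
  exact smul_right_injective _ (by simpa using h2) e

theorem totP_ext (h2 : (2 : K) ≠ 0) (φ : AutP n K) :
    TotP (extP h2 (φ : SymP n K ≃ₗ[K] SymP n K)) (extP h2 (φ : SymP n K ≃ₗ[K] SymP n K).symm) where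
  mem X hX := by rw [extP_apply h2 _ hX]; exact Subtype.property _
  mem' X hX := by rw [extP_apply h2 _ hX]; exact Subtype.property _
  mul X hX Y hY := ext_jo h2 φ.2 hX hY
  mul' X hX Y hY := ext_jo h2 ((AutAlg K _).inv_mem φ.2) hX hY
  lr X hX := by
    rw [extP_apply h2 _ hX, extP_apply h2 _ (Subtype.property _)]; simp
  rl X hX := by
    rw [extP_apply h2 _ hX, extP_apply h2 _ (Subtype.property _)]; simp

theorem homP_surj (h2 : (2 : K) ≠ 0) (hn : 4 ≤ n) :
    Function.Surjective (homP (K := K) h2 n) := by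
  intro φ
  obtain ⟨g, hg, A, hA, hgA⟩ := (totP_ext h2 φ).main h2 hn
  refine ⟨(⟨g, hg⟩, ⟨A, hA⟩), ?_⟩
  apply Subtype.ext
  apply LinearEquiv.ext
  intro X
  apply Subtype.ext
  have := hgA X X.2
  rw [extP_apply h2 _ X.2] at this
  exact this.symm

theorem homP_ker (h2 : (2 : K) ≠ 0) (hn : 2 ≤ n) (g : G2 K) (A : GO n K) :
    homP (K := K) h2 n (g, A) = 1 ↔ g = 1 ∧ A ∈ ScalarGO n K := by
  constructor
  · intro h
    have h' : ∀ X ∈ SymP n K, act (g : Oct K ≃ₗ[K] Oct K) (A : GL (Fin n) K) X = X := by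
      intro X hX
      have := congrArg (fun f : AutP n K => ((f : SymP n K ≃ₗ[K] SymP n K) ⟨X, hX⟩ : OMat n K)) h
      exact this
    have hA'A : (((A : GL (Fin n) K)⁻¹ : GL (Fin n) K) : Matrix (Fin n) (Fin n) K) *
        ((A : GL (Fin n) K) : Matrix (Fin n) (Fin n) K) = 1 := by
      rw [← Units.val_mul]; simp
    have hsc : ∃ c : K, ((A : GL (Fin n) K) : Matrix (Fin n) (Fin n) K) = c • 1 := by
      refine ⟨_, scalar_of_comm ⟨0, by omega⟩ _ ?_⟩
      intro t ht
      have h4 := h' _ (R_memP ht)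
      rw [← tn_one_right, act_tn, g_one g.2, tn_one_right, tn_one_right] at h4
      have h5 := R_injective h4
      calc ((A : GL (Fin n) K) : Matrix (Fin n) (Fin n) K) * t
          = ((A : GL (Fin n) K) : Matrix (Fin n) (Fin n) K) * t *
            ((((A : GL (Fin n) K)⁻¹ : GL (Fin n) K) : Matrix (Fin n) (Fin n) K) *
              ((A : GL (Fin n) K) : Matrix (Fin n) (Fin n) K)) := by rw [hA'A, mul_one]
        _ = t * ((A : GL (Fin n) K) : Matrix (Fin n) (Fin n) K) := by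
            rw [← Matrix.mul_assoc, h5]
    refine ⟨?_, hsc⟩
    apply Subtype.ext
    apply LinearEquiv.ext
    intro x
    set i0 : Fin n := ⟨0, by omega⟩ with hi0
    set j0 : Fin n := ⟨1, by omega⟩ with hj0
    have hij0 : i0 ≠ j0 := by
      intro hh
      have := congrArg Fin.val hh
      simp [hi0, hj0] at this
    have e1 := h' _ (Xm_memP (i := i0) (j := j0) x)
    have e2 : act (g : Oct K ≃ₗ[K] Oct K) (A : GL (Fin n) K) (Xm i0 j0 x) =
        (Xm i0 j0 x).map (g : Oct K ≃ₗ[K] Oct K) := by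
      have a1 := act_act (1 : Oct K ≃ₗ[K] Oct K) (g : Oct K ≃ₗ[K] Oct K) (AutAlg K _).one_mem
        (A : GL (Fin n) K) 1 (Xm i0 j0 x)
      rw [one_mul, mul_one] at a1
      rw [← a1, act_scalar rfl hsc]
      unfold act
      simp
    rw [e2] at e1
    have e3 := congrFun (congrFun e1 i0) j0
    rw [Matrix.map_apply, Xm_apply] at e3
    simpa [hij0] using e3
  · rintro ⟨hg, hA⟩
    apply Subtype.ext
    apply LinearEquiv.ext
    intro X
    apply Subtype.ext
    exact act_scalar (by rw [hg]; rfl) hA _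

/-- **Theorem.** The automorphism group of the Hermitian `n × n` octonion matrices is
`G₂ × PGO(n)`, for every `n ≥ 4`. -/
theorem autP_iso (h2 : (2 : K) ≠ 0) (hn : 4 ≤ n) :
    Nonempty (AutP n K ≃* G2 K × PGO n K) :=
  iso_of (ScalarGO n K) (homP h2 n) (homP_surj h2 hn) (homP_ker h2 (by omega))

end K3h69.OM
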