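import Pool.Agent.K3h69.OM.Entry

/-!
# The quadratic relations
-/

namespace K3h69.OM

open Matrix

set_option linter.unusedSectionVars false
set_option maxHeartbeats 1000000

variable {K : Type*} [Field K] {n : ℕ}

/-- coefficient matrix of the seven forms -/
def Lc : Fin 7 → Fin 8 → K :=
  ![![0, 0, 0, 0, -1, -1, -1, -1], ![0, 0, 1, 1, 0, 0, -1, -1], ![0, 0, 1, 1, -1, -1, 0, 0],
    ![0, 1, 0, 1, 0, -1, 0, -1], ![0, 1, 0, 1, -1, 0, -1, 0], ![0, 1, 1, 0, 0, -1, -1, 0],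
    ![0, 1, 1, 0, -1, 0, 0, -1]]

theorem L_eq (t : Fin 7) (v : Fin 8 → K) : L t v = ∑ k, Lc t k * v k := by
  fin_cases t <;> simp [L, Lc, Fin.sum_univ_succ] <;> ring

theorem L_add (t : Fin 7) (v w : Fin 8 → K) : L t (fun k => v k + w k) = L t v + L t w := by
  simp [L_eq, mul_add, Finset.sum_add_distrib]

theorem L_sub (t : Fin 7) (v w : Fin 8 → K) : L t (fun k => v k - w k) = L t v - L t w := by
  simp [L_eq, mul_sub, Finset.sum_sub_distrib]

theorem L_sum (t : Fin 7) {ι : Type*} (s : Finset ι) (v : ι → Fin 8 → K) :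
    L t (fun k => ∑ m ∈ s, v m k) = ∑ m ∈ s, L t (v m) := by
  simp only [L_eq, Finset.mul_sum]
  rw [Finset.sum_comm]

theorem osum_apply {ι : Type*} (s : Finset ι) (f : ι → Oct K) (k : Fin 8) :
    (∑ m ∈ s, f m) k = ∑ m ∈ s, f m k := by
  classical
  induction s using Finset.induction_on with
  | empty => simp
  | insert a s ha ih => rw [Finset.sum_insert ha, Finset.sum_insert ha, Oct.add_apply, ih]

theorem two_sg_ne (h2 : (2 : K) ≠ 0) (t : Fin 7) : (2 * sg t : K) ≠ 0 := by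
  have : (sg t : K) ≠ 0 := by
    fin_cases t <;> simp [sg]
  exact mul_ne_zero h2 this

theorem diag_real (h2 : (2 : K) ≠ 0) {a : OMat n K} (ha : a ∈ SymP n K) (r : Fin n) :
    a r r = Oct.C (a r r 0) := by
  have h := congrFun (congrFun (mem_SymP.1 ha) r) r
  rw [J_apply, Oct.conj_def] at h
  have key : ∀ x : K, -x = x → x = 0 := by
    intro x hx
    have : 2 * x = 0 := by linear_combination -hx
    exact (mul_eq_zero.1 this).resolve_left h2
  have c1 := key _ (congrFun h 1)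
  have c2 := key _ (congrFun h 2)
  have c3 := key _ (congrFun h 3)
  have c4 := key _ (congrFun h 4)
  have c5 := key _ (congrFun h 5)
  have c6 := key _ (congrFun h 6)
  have c7 := key _ (congrFun h 7)
  apply Oct.ext8 <;> simp [Oct.C, *]

theorem symP_swap {a : OMat n K} (ha : a ∈ SymP n K) (r s : Fin n) :
    a s r = Oct.conj (a r s) := by
  have h := congrFun (congrFun (mem_SymP.1 ha) s) r
  rw [J_apply] at h
  exact h.symm

theorem W_diag_real {a : OMat n K} (ha : a ∈ SymP n K) (r : Fin n) :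
    ∃ w : K, (a * a) r r = Oct.C w := by
  refine ⟨∑ m, Oct.nrm (a r m), ?_⟩
  rw [Matrix.mul_apply]
  have : ∀ m, a r m * a m r = Oct.C (Oct.nrm (a r m)) := by
    intro m
    rw [symP_swap ha r m]
    apply Oct.ext8 <;> simp [Oct.mul_def, Oct.conj_def, Oct.C, Oct.nrm] <;> ring
  simp only [this, Oct.C_eq_smul, Finset.sum_smul]

theorem rel_adj (h2 : (2 : K) ≠ 0) {a : OMat n K} (ha : a ∈ SymP n K)
    (h : ∀ b ∈ SymP n K, ∀ y ∈ SymP n K, QQ a b y = 0) {i j k : Fin n}
    (hij : i ≠ j) (hik : i ≠ k) (hjk : j ≠ k) {q : Fin 8} (hq : q ≠ 0) :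
    (∑ m, a i m q * a i m q) - a i k q * a i k q =
      (∑ m, a j m q * a j m q) - a j k q * a j k q := by
  obtain ⟨α, hα⟩ : ∃ α : K, a i i = Oct.C α := ⟨_, diag_real h2 ha i⟩
  obtain ⟨β, hβ⟩ : ∃ β : K, a j j = Oct.C β := ⟨_, diag_real h2 ha j⟩
  obtain ⟨δ, hδ⟩ : ∃ δ : K, a k k = Oct.C δ := ⟨_, diag_real h2 ha k⟩
  obtain ⟨w, hw⟩ := W_diag_real ha k
  have main : ∀ t : Fin 7, L t (fun q => ((∑ m, pw (a j m) (a j m) q) -
      (∑ m, pw (a i m) (a i m) q)) - (pw (a j k) (a j k) q - pw (a i k) (a i k) q)) = 0 := by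
    intro t
    have e := congrFun (congrFun (h (Xm i j (Oct.e (l1 t))) (Xm_memP _)
      (Xm j k (Oct.e (l2 t))) (Xm_memP _)) i) k
    rw [entry_adj a hij hik hjk, Matrix.zero_apply] at e
    have e' := congrFun e (l3 t)
    rw [hα, hβ, hδ, hw, Matrix.mul_apply, Matrix.mul_apply] at e'
    simp only [Oct.C_mul, Oct.mul_C, add_mul, mul_add, smul_mul_assoc, mul_smul_comm,
      Finset.mul_sum, Finset.sum_mul, Oct.add_apply, Oct.sub_apply, Oct.smul_apply,
      osum_apply, Oct.zero_apply, smul_smul] at e'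
    have f1 := lnH1 t (a j k)
    have f2 := lnH2 t (a i j)
    have f3 := lnH3 t (a i k)
    have f4 : (∑ m, (a i m * ((a m i * Oct.e (l1 t)) * Oct.e (l2 t)) : Oct K) (l3 t)) -
        (∑ m, ((a i m * a m i) * (Oct.e (l1 t) * Oct.e (l2 t)) : Oct K) (l3 t)) =
        -2 * sg t * ∑ m, L t (pw (a i m) (a i m)) := by
      rw [← Finset.sum_sub_distrib, Finset.mul_sum]
      apply Finset.sum_congr rfl
      intro m _
      rw [symP_swap ha i m, ← lnF, Oct.sub_apply]
    have f5 : (∑ m, (Oct.e (l1 t) * ((a j m * a m j) * Oct.e (l2 t)) : Oct K) (l3 t)) -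
        (∑ m, ((Oct.e (l1 t) * a j m) * (a m j * Oct.e (l2 t)) : Oct K) (l3 t)) =
        2 * sg t * ∑ m, L t (pw (a j m) (a j m)) := by
      rw [← Finset.sum_sub_distrib, Finset.mul_sum]
      apply Finset.sum_congr rfl
      intro m _
      rw [symP_swap ha j m, ← lnG, Oct.sub_apply]
    rw [Oct.sub_apply] at f1 f2 f3
    rw [L_sub, L_sub, L_sub, L_sum, L_sum]
    apply (mul_eq_zero.1 (?_ : (2 * sg t : K) * _ = 0)).resolve_left (two_sg_ne h2 t)
    have g1 : L t (fun q => pw (a j k) (a j k) q) = L t (pw (a j k) (a j k)) := rfl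
    have g2 : L t (fun q => pw (a i k) (a i k) q) = L t (pw (a i k) (a i k)) := rfl
    rw [g1, g2]
    linear_combination e' - f1 - f2 - f3 - f4 - f5
  have := L_inv h2 main hq
  simp only [pw] at this
  linear_combination -this

theorem rel_dis (h2 : (2 : K) ≠ 0) {a : OMat n K} (ha : a ∈ SymP n K)
    (h : ∀ b ∈ SymP n K, ∀ y ∈ SymP n K, QQ a b y = 0) {i j k l : Fin n}
    (hij : i ≠ j) (hik : i ≠ k) (hil : i ≠ l) (hjk : j ≠ k) (hjl : j ≠ l) (hkl : k ≠ l)
    {q : Fin 8} (hq : q ≠ 0) :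
    (∑ m, a j m q * a m l q) + a j k q * a l k q = 0 := by
  obtain ⟨α, hα⟩ : ∃ α : K, a i i = Oct.C α := ⟨_, diag_real h2 ha i⟩
  obtain ⟨δ, hδ⟩ : ∃ δ : K, a k k = Oct.C δ := ⟨_, diag_real h2 ha k⟩
  have main : ∀ t : Fin 7, L t (fun q => (∑ m, pw (a j m) (a m l) q) +
      pw (a j k) (a l k) q) = 0 := by
    intro t
    have e := congrFun (congrFun (h (Xm i j (Oct.e (l1 t))) (Xm_memP _)
      (Xm k l (Oct.e (l2 t))) (Xm_memP _)) i) k
    rw [entry_dis a hij hik hil hjk hjl hkl, Matrix.zero_apply] at e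
    have e' := congrFun e (l3 t)
    rw [hα, hδ, Matrix.mul_apply] at e'
    simp only [Oct.C_mul, Oct.mul_C, add_mul, mul_add, smul_mul_assoc, mul_smul_comm,
      Finset.mul_sum, Finset.sum_mul, Oct.add_apply, Oct.sub_apply, Oct.smul_apply,
      osum_apply, Oct.zero_apply, smul_smul] at e'
    have f1 := lnA t (a j k) (a l k)
    have f2 := lnC t (a i j) (a i l)
    have f3 := lnB t α (a j l)
    have f4 : (∑ m, (Oct.e (l1 t) * ((a j m * a m l) * Oct.conj (Oct.e (l2 t))) : Oct K) (l3 t)) -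
        (∑ m, ((Oct.e (l1 t) * a j m) * (a m l * Oct.conj (Oct.e (l2 t))) : Oct K) (l3 t)) =
        2 * sg t * ∑ m, L t (pw (a j m) (a m l)) := by
      rw [← Finset.sum_sub_distrib, Finset.mul_sum]
      apply Finset.sum_congr rfl
      intro m _
      rw [← lnD, Oct.sub_apply]
    rw [Oct.sub_apply] at f1 f2 f3
    simp only [Oct.C_mul, smul_mul_assoc, Oct.smul_apply] at f3
    rw [L_add, L_sum]
    apply (mul_eq_zero.1 (?_ : (2 * sg t : K) * _ = 0)).resolve_left (two_sg_ne h2 t)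
    have g1 : L t (fun q => pw (a j k) (a l k) q) = L t (pw (a j k) (a l k)) := rfl
    rw [g1]
    linear_combination e' - f1 - f2 - f3 - f4
  have := L_inv h2 main hq
  simp only [pw] at this
  exact this

end K3h69.OM
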