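import Pool.Agent.K3h69.OM.Rel

/-!
# The skew matrices satisfying the quadratic relations vanish
-/

namespace K3h69.OM

open Matrix

set_option linter.unusedSectionVars false
set_option maxHeartbeats 1000000

variable {K : Type*} [Field K] {n : ℕ}

theorem exists_fourth (hn : 4 ≤ n) (i j l : Fin n) : ∃ m, m ≠ i ∧ m ≠ j ∧ m ≠ l := by
  have h : ({i, j, l} : Finset (Fin n)).card < (Finset.univ : Finset (Fin n)).card := by
    calc ({i, j, l} : Finset (Fin n)).card ≤ 3 := Finset.card_le_three
      _ < (Finset.univ : Finset (Fin n)).card := by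
        rw [Finset.card_univ, Fintype.card_fin]; omega
  obtain ⟨m, -, hm⟩ := Finset.exists_mem_notMem_of_card_lt_card h
  simp only [Finset.mem_insert, Finset.mem_singleton, not_or] at hm
  exact ⟨m, hm.1, hm.2.1, hm.2.2⟩

theorem skew_zero (h2 : (2 : K) ≠ 0) (hn : 4 ≤ n) (c : Fin n → Fin n → K)
    (hs : ∀ i j, c j i = - c i j)
    (h1 : ∀ i j k, i ≠ j → i ≠ k → j ≠ k →
      (∑ m, c i m * c i m) - c i k * c i k = (∑ m, c j m * c j m) - c j k * c j k)
    (hI : ∀ j k l, j ≠ k → j ≠ l → k ≠ l → (∑ m, c j m * c m l) + c j k * c l k = 0) :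
    ∀ i j, c i j = 0 := by
  have hd : ∀ i, c i i = 0 := by
    intro i
    have := hs i i
    have h3 : 2 * c i i = 0 := by linear_combination this
    exact (mul_eq_zero.1 h3).resolve_left h2
  -- (I) in product form
  have hI' : ∀ j k l, j ≠ k → j ≠ l → k ≠ l → ∑ m, c j m * c m l = c j k * c k l := by
    intro j k l hjk hjl hkl
    have := hI j k l hjk hjl hkl
    rw [hs k l] at this
    linear_combination this
  have hP : ∀ j k m l, j ≠ k → j ≠ l → k ≠ l → j ≠ m → m ≠ l →
      c j k * c k l = c j m * c m l := by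
    intro j k m l hjk hjl hkl hjm hml
    rw [← hI' j k l hjk hjl hkl, hI' j m l hjm hjl hml]
  -- consequence of a nonzero product
  have hA : ∀ i j l, i ≠ j → i ≠ l → j ≠ l → c i j * c j l ≠ 0 →
      ∀ m, m ≠ i → m ≠ j → m ≠ l → c j m = 0 ∧ c i m * c m l ≠ 0 := by
    intro i j l hij hil hjl hne m hmi hmj hml
    have e1 := hP i j m l hij hil hjl (Ne.symm hmi) hml
    have e4 := hP i j l m hij (Ne.symm hmi) (Ne.symm hmj) hil (Ne.symm hml)
    have e5 := hP j i m l (Ne.symm hij) hjl hil (Ne.symm hmj) hml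
    -- `ab = cd`, `a f = e c_lm`, `c_ji e = f d`
    refine ⟨?_, by rw [← e1]; exact hne⟩
    have e6 := hP l i j m (Ne.symm hil) (Ne.symm hml) (Ne.symm hmi) (Ne.symm hjl)
      (Ne.symm hmj)
    -- c_li c_im = c_lj c_jm
    rw [hs i l, hs j l] at e6
    rw [hs i j] at e5
    -- e5 : -c_ij * c_il = c_jm * c_ml ; e6 : -c_il * c_im = -c_jl * c_jm
    have : 2 * (c i j * c j l) * c j m = 0 := by
      linear_combination (c j m) * e1 - (c i m) * e5 + (c i j) * e6
    rcases mul_eq_zero.1 this with h | h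
    · exact absurd h (mul_ne_zero h2 hne)
    · exact h
  -- Claim 1
  have hC : ∀ i j l, i ≠ j → i ≠ l → j ≠ l → c i j * c j l = 0 := by
    intro i j l hij hil hjl
    by_contra hne
    obtain ⟨m, hmi, hmj, hml⟩ := exists_fourth hn i j l
    obtain ⟨hjm, hprod⟩ := hA i j l hij hil hjl hne m hmi hmj hml
    have hcij : c i j ≠ 0 := left_ne_zero_of_mul hne
    have hcjl : c j l ≠ 0 := right_ne_zero_of_mul hne
    have hcim : c i m ≠ 0 := left_ne_zero_of_mul hprod
    have hcml : c m l ≠ 0 := right_ne_zero_of_mul hprod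
    by_cases hall : ∀ x, x = i ∨ x = j ∨ x = l ∨ x = m
    · -- `n = 4`
      have hu : (Finset.univ : Finset (Fin n)) = {i, j, l, m} := by
        ext x; simp [hall x]
      have e := hI' j i m (Ne.symm hij) (Ne.symm hmj) (Ne.symm hmi)
      rw [hu, Finset.sum_insert (by simp [hij, hil, Ne.symm hmi]),
        Finset.sum_insert (by simp [hjl, Ne.symm hmj]),
        Finset.sum_insert (by simp [Ne.symm hml]), Finset.sum_singleton, hd j, hd m] at e
      have : c j l * c l m = 0 := by linear_combination e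
      rw [hs m l] at this
      rcases mul_eq_zero.1 this with h | h
      · exact hcjl h
      · exact hcml (neg_eq_zero.1 h)
    · push Not at hall
      obtain ⟨x, hxi, hxj, hxl, hxm⟩ := hall
      obtain ⟨hjx, -⟩ := hA i j l hij hil hjl hne x hxi hxj hxl
      have e := hP j i x m (Ne.symm hij) (Ne.symm hmj) (Ne.symm hmi) (Ne.symm hxj) hxm
      rw [hjx, zero_mul, hs i j] at e
      rcases mul_eq_zero.1 e with h | h
      · exact hcij (neg_eq_zero.1 h)
      · exact hcim h
  -- Claim 2
  intro i j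
  by_contra hne
  have hij : i ≠ j := by rintro rfl; exact hne (hd i)
  obtain ⟨k, hki, hkj, -⟩ := exists_fourth hn i j j
  obtain ⟨l, hli, hlj, hlk⟩ := exists_fourth hn i j k
  have hi0 : ∀ m, m ≠ j → c i m = 0 := by
    intro m hmj
    rcases eq_or_ne m i with rfl | hmi
    · exact hd m
    · have := hC j i m (Ne.symm hij) (Ne.symm hmj) (Ne.symm hmi)
      rw [hs i j] at this
      rcases mul_eq_zero.1 this with h | h
      · exact absurd (neg_eq_zero.1 h) hne
      · exact h
  have hj0 : ∀ m, m ≠ i → c j m = 0 := by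
    intro m hmi
    rcases eq_or_ne m j with rfl | hmj
    · exact hd m
    · exact (mul_eq_zero.1 (hC i j m hij (Ne.symm hmi) (Ne.symm hmj))).resolve_left hne
  have hSi : ∑ m, c i m * c i m = c i j * c i j := by
    rw [Finset.sum_eq_single j]
    · intro m _ hm; rw [hi0 m hm, zero_mul]
    · intro h; exact absurd (Finset.mem_univ _) h
  have r1 := h1 i k j (Ne.symm hki) hij hkj
  have r2 := h1 i k l (Ne.symm hki) (Ne.symm hli) (Ne.symm hlk)
  have hkj0 : c k j = 0 := by rw [hs j k, hj0 k hki, neg_zero]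
  rw [hSi, hkj0] at r1
  rw [hSi, hi0 l hlj] at r2
  -- r1 : 0 = Σ_k ; r2 : c_ij² = Σ_k - c_kl²
  have hSk : ∑ m, c k m * c k m = 0 := by linear_combination -r1
  rw [hSk] at r2
  have hkl : c k l ≠ 0 := by
    intro h
    rw [h] at r2
    have : c i j * c i j = 0 := by linear_combination r2
    exact hne (mul_self_eq_zero.1 this)
  have hSk' : ∑ m, c k m * c k m = c k l * c k l := by
    rw [Finset.sum_eq_single l]
    · intro m _ hm
      rcases eq_or_ne m k with rfl | hmk
      · rw [hd m, zero_mul]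
      · have := hC l k m hlk (Ne.symm hm) (Ne.symm hmk)
        rw [hs k l] at this
        rcases mul_eq_zero.1 this with h | h
        · exact absurd (neg_eq_zero.1 h) hkl
        · rw [h, zero_mul]
    · intro h; exact absurd (Finset.mem_univ _) h
  rw [hSk] at hSk'
  exact hkl (mul_self_eq_zero.1 hSk'.symm)

/-- A Hermitian matrix satisfying the Jordan-type identity with all partners is real. -/
theorem real_of_QQ (h2 : (2 : K) ≠ 0) (hn : 4 ≤ n) {a : OMat n K} (ha : a ∈ SymP n K)
    (h : ∀ b ∈ SymP n K, ∀ y ∈ SymP n K, QQ a b y = 0) {q : Fin 8} (hq : q ≠ 0) (i j : Fin n) :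
    a i j q = 0 := by
  apply skew_zero h2 hn (fun i j => a i j q)
  · intro i j
    rw [symP_swap ha i j, Oct.conj_def]
    fin_cases q <;> simp_all
  · intro i j k hij hik hjk
    exact rel_adj h2 ha h hij hik hjk hq
  · intro j k l hjk hjl hkl
    obtain ⟨i, hij, hik, hil⟩ := exists_fourth hn j k l
    exact rel_dis h2 ha h hij hik hil hjk hjl hkl hq

end K3h69.OM
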