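import Pool.Agent.K3h69.OM.NonIso

/-!
# Hermitian `2 × 2` matrices
-/

namespace K3h69.OM

open Matrix

set_option linter.unusedSectionVars false
set_option maxHeartbeats 1000000

variable {K : Type*} [Field K]

/-- The nine-dimensional quadratic form `t² + N(x)`. -/
def q9 (w : K × Oct K) : K := w.1 ^ 2 + Oct.nrm w.2

/-- The orthogonal group of the nine-dimensional form. -/
def O9 (K : Type*) [Field K] : Subgroup ((K × Oct K) ≃ₗ[K] (K × Oct K)) where
  carrier := {f | ∀ w, q9 (f w) = q9 w}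
  mul_mem' := by
    intro f g hf hg w
    change q9 (f (g w)) = q9 w
    rw [hf, hg]
  one_mem' := fun w => rfl
  inv_mem' := by
    intro f hf w
    change q9 (f.symm w) = q9 w
    have := hf (f.symm w)
    rw [f.apply_symm_apply] at this
    exact this.symm

/-- the polar form -/
def b9 (w w' : K × Oct K) : K :=
  w.1 * w'.1 + (w.2 0 * w'.2 0 + w.2 1 * w'.2 1 + w.2 2 * w'.2 2 + w.2 3 * w'.2 3 -
    w.2 4 * w'.2 4 - w.2 5 * w'.2 5 - w.2 6 * w'.2 6 - w.2 7 * w'.2 7)

theorem q9_add (w w' : K × Oct K) : q9 (w + w') = q9 w + q9 w' + 2 * b9 w w' := by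
  simp [q9, b9, Oct.nrm]; ring

theorem b9_map (h2 : (2 : K) ≠ 0) {f : (K × Oct K) ≃ₗ[K] (K × Oct K)} (hf : f ∈ O9 K)
    (w w' : K × Oct K) : b9 (f w) (f w') = b9 w w' := by
  have h1 := q9_add (f w) (f w')
  rw [← map_add, hf (w + w'), hf w, hf w', q9_add] at h1
  have h3 : 2 * b9 (f w) (f w') = 2 * b9 w w' := by linear_combination -h1
  exact mul_left_cancel₀ h2 h3

/-- the matrix `a·1 + v(w)` -/
def mv (a : K) (w : K × Oct K) : OMat 2 K :=
  !![Oct.C (a + w.1), w.2; Oct.conj w.2, Oct.C (a - w.1)]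

theorem mv_mem (a : K) (w : K × Oct K) : mv a w ∈ SymP 2 K := by
  rw [mem_SymP]
  ext1 i j
  rw [J_apply]
  fin_cases i <;> fin_cases j <;> simp [mv]

/-- linear parametrisation of the Hermitian `2 × 2` matrices -/
def par (h2 : (2 : K) ≠ 0) : (K × (K × Oct K)) ≃ₗ[K] SymP 2 K where
  toFun p := ⟨mv p.1 p.2, mv_mem _ _⟩
  map_add' p q := by
    apply Subtype.ext
    rw [Submodule.coe_add]
    ext1 i j
    fin_cases i <;> fin_cases j <;> simp [mv] <;>
      first
        | (rw [← Oct.C_add]; congr 1; ring)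
        | skip
  map_smul' c p := by
    apply Subtype.ext
    rw [Submodule.coe_smul]
    ext1 i j
    fin_cases i <;> fin_cases j <;> simp [mv] <;>
      (apply Oct.ext8 <;> simp [Oct.C] <;> ring)
  invFun X := ((X.1 0 0 0 + X.1 1 1 0) / 2, ((X.1 0 0 0 - X.1 1 1 0) / 2, X.1 0 1))
  left_inv p := by
    obtain ⟨a, t, x⟩ := p
    simp only [mv]
    refine Prod.ext ?_ (Prod.ext ?_ ?_)
    · simp [Oct.C]; field_simp; ring
    · simp [Oct.C]; field_simp; ring
    · simp
  right_inv X := by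
    apply Subtype.ext
    have e0 := diag_real h2 X.2 0
    have e1 := diag_real h2 X.2 1
    have e2 := symP_swap X.2 0 1
    ext1 i j
    fin_cases i <;> fin_cases j
    · change Oct.C ((X.1 0 0 0 + X.1 1 1 0) / 2 + (X.1 0 0 0 - X.1 1 1 0) / 2) = X.1 0 0
      conv_rhs => rw [e0]
      congr 1; field_simp; ring
    · rfl
    · change Oct.conj (X.1 0 1) = X.1 1 0
      rw [e2]
    · change Oct.C ((X.1 0 0 0 + X.1 1 1 0) / 2 - (X.1 0 0 0 - X.1 1 1 0) / 2) = X.1 1 1
      conv_rhs => rw [e1]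
      congr 1; field_simp; ring

theorem par_apply (h2 : (2 : K) ≠ 0) (p : K × (K × Oct K)) :
    (par h2 p : OMat 2 K) = mv p.1 p.2 := rfl

theorem jmul_par (h2 : (2 : K) ≠ 0) (p q : K × (K × Oct K)) :
    jmul (par h2 p) (par h2 q) = par h2 (p.1 * q.1 + b9 p.2 q.2, p.1 • q.2 + q.1 • p.2) := by
  obtain ⟨a, t, x⟩ := p
  obtain ⟨b, s, y⟩ := q
  apply Subtype.ext
  rw [jmul_coe, par_apply, par_apply, par_apply]
  ext1 i j
  rw [Matrix.smul_apply, Matrix.add_apply, Matrix.mul_apply, Matrix.mul_apply, Fin.sum_univ_two,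
    Fin.sum_univ_two]
  fin_cases i <;> fin_cases j <;>
    (simp only [mv, Fin.zero_eta, Fin.mk_one, Matrix.of_apply, Matrix.cons_val', Matrix.cons_val_zero,
      Matrix.cons_val_one, Matrix.cons_val_fin_one, Oct.C_mul, Oct.mul_C]
     apply Oct.ext8 <;> simp [Oct.mul_def, Oct.conj_def, Oct.C, b9] <;> (try field_simp) <;>
       (try ring) <;> (try exact Or.inr trivial))

/-- the automorphism of the spin factor attached to an isometry -/
def lift9 (f : (K × Oct K) ≃ₗ[K] (K × Oct K)) :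
    (K × (K × Oct K)) ≃ₗ[K] (K × (K × Oct K)) :=
  LinearEquiv.prodCongr (LinearEquiv.refl K K) f

theorem lift9_apply (f : (K × Oct K) ≃ₗ[K] (K × Oct K)) (p : K × (K × Oct K)) :
    lift9 f p = (p.1, f p.2) := rfl

/-- the homomorphism `O₉ → Aut(Sym⁺₂)` -/
def hom9 (h2 : (2 : K) ≠ 0) : O9 K →* AutP 2 K where
  toFun f := ⟨(par h2).symm.trans ((lift9 (f : (K × Oct K) ≃ₗ[K] (K × Oct K))).trans (par h2)), by
    rw [mem_AutAlg]
    intro X Y
    obtain ⟨p, rfl⟩ := (par h2).surjective X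
    obtain ⟨q, rfl⟩ := (par h2).surjective Y
    rw [jmul_par]
    simp only [LinearEquiv.trans_apply, LinearEquiv.symm_apply_apply, lift9_apply]
    rw [jmul_par]
    congr 1
    refine Prod.ext ?_ ?_
    · simp only; rw [b9_map h2 f.2]
    · simp only [map_add, map_smul]⟩
  map_one' := by
    apply Subtype.ext
    apply LinearEquiv.ext
    intro X
    exact (par h2).apply_symm_apply X
  map_mul' f g := by
    apply Subtype.ext
    apply LinearEquiv.ext
    intro X
    change par h2 (lift9 _ ((par h2).symm X)) =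
      par h2 (lift9 _ ((par h2).symm (par h2 (lift9 _ ((par h2).symm X)))))
    rw [(par h2).symm_apply_apply]
    rfl

theorem hom9_apply (h2 : (2 : K) ≠ 0) (f : O9 K) (p : K × (K × Oct K)) :
    (hom9 h2 f).1 (par h2 p) = par h2 (p.1, (f : (K × Oct K) ≃ₗ[K] (K × Oct K)) p.2) := by
  change par h2 (lift9 _ ((par h2).symm (par h2 p))) = _
  rw [(par h2).symm_apply_apply]; rfl

theorem hom9_inj (h2 : (2 : K) ≠ 0) : Function.Injective (hom9 (K := K) h2) := by
  intro f g h
  apply Subtype.ext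
  apply LinearEquiv.ext
  intro w
  have h1 : (hom9 h2 f).1 (par h2 (0, w)) = (hom9 h2 g).1 (par h2 (0, w)) := by rw [h]
  rw [hom9_apply, hom9_apply] at h1
  exact congrArg Prod.snd ((par h2).injective h1)

theorem b9_self (w : K × Oct K) : b9 w w = q9 w := by simp [b9, q9, Oct.nrm]; ring

theorem par_one (h2 : (2 : K) ≠ 0) : par h2 ((1 : K), (0 : K × Oct K)) = ⟨1, one_memP⟩ := by
  apply Subtype.ext
  rw [par_apply]
  ext1 i j
  fin_cases i <;> fin_cases j <;> simp [mv]

theorem aut_par (h2 : (2 : K) ≠ 0) {φ : SymP 2 K ≃ₗ[K] SymP 2 K} (hφ : φ ∈ AutP 2 K)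
    (w : K × Oct K) : ∃ w' : K × Oct K, φ (par h2 (0, w)) = par h2 (0, w') ∧ q9 w' = q9 w := by
  obtain ⟨⟨a, w'⟩, hp⟩ := (par h2).surjective (φ (par h2 (0, w)))
  have hone := aut_one h2 hφ
  have hreal : ∀ c : K, φ (par h2 (c, 0)) = par h2 (c, 0) := by
    intro c
    have : ((c, 0) : K × (K × Oct K)) = c • ((1 : K), (0 : K × Oct K)) := by
      ext <;> simp
    rw [this, map_smul, map_smul, par_one, hone]
  have h1 := hφ (par h2 (0, w)) (par h2 (0, w))
  rw [jmul_par, ← hp, jmul_par] at h1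
  simp only [mul_zero, zero_add, zero_smul, add_zero] at h1
  rw [hreal] at h1
  have h3 := (par h2).injective h1
  have h4 := congrArg Prod.fst h3
  have h5 := congrArg Prod.snd h3
  simp only at h4 h5
  rw [← two_smul K (a • w'), smul_smul] at h5
  rw [b9_self, b9_self] at h4
  rcases smul_eq_zero.1 h5.symm with h6 | h6
  · have ha : a = 0 := (mul_eq_zero.1 h6).resolve_left h2
    subst ha
    refine ⟨w', hp.symm, ?_⟩
    rw [h4]; ring
  · subst h6
    -- `φ (0,w) = (a,0) = φ (a,0)`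
    have h7 : par h2 (0, w) = par h2 (a, 0) := by
      apply φ.injective
      rw [hreal, ← hp]
    have h8 := (par h2).injective h7
    have ha : a = 0 := (congrArg Prod.fst h8).symm
    have hw : w = 0 := congrArg Prod.snd h8
    subst ha
    exact ⟨0, hp.symm, by rw [hw]⟩

theorem hom9_surj (h2 : (2 : K) ≠ 0) : Function.Surjective (hom9 (K := K) h2) := by
  intro φ
  have hφ := φ.2
  have hψ := (AutAlg K _).inv_mem φ.2
  -- the linear map
  have mk : ∀ (χ : SymP 2 K ≃ₗ[K] SymP 2 K), ∃ G : (K × Oct K) →ₗ[K] (K × Oct K),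
      ∀ w, G w = ((par h2).symm (χ (par h2 (0, w)))).2 := by
    intro χ
    exact ⟨(LinearMap.snd K K (K × Oct K)) ∘ₗ (par h2).symm.toLinearMap ∘ₗ χ.toLinearMap ∘ₗ
      (par h2).toLinearMap ∘ₗ (LinearMap.inr K K (K × Oct K)), fun w => rfl⟩
  obtain ⟨G, hG⟩ := mk φ.1
  obtain ⟨G', hG'⟩ := mk (φ.1)⁻¹
  have eG : ∀ w, φ.1 (par h2 (0, w)) = par h2 (0, G w) ∧ q9 (G w) = q9 w := by
    intro w
    obtain ⟨w', h1, h3⟩ := aut_par h2 hφ w
    have : G w = w' := by rw [hG, h1, (par h2).symm_apply_apply]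
    rw [this]; exact ⟨h1, h3⟩
  have eG' : ∀ w, (φ.1)⁻¹ (par h2 (0, w)) = par h2 (0, G' w) ∧ q9 (G' w) = q9 w := by
    intro w
    obtain ⟨w', h1, h3⟩ := aut_par h2 hψ w
    have : G' w = w' := by rw [hG', h1, (par h2).symm_apply_apply]
    rw [this]; exact ⟨h1, h3⟩
  have hinv : ∀ X, (φ.1)⁻¹ (φ.1 X) = X := fun X => φ.1.symm_apply_apply X
  have hinv' : ∀ X, φ.1 ((φ.1)⁻¹ X) = X := fun X => φ.1.apply_symm_apply X
  have c1 : ∀ w, G' (G w) = w := by
    intro w
    have h1 := hinv (par h2 (0, w))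
    rw [(eG w).1, (eG' (G w)).1] at h1
    exact congrArg Prod.snd ((par h2).injective h1)
  have c2 : ∀ w, G (G' w) = w := by
    intro w
    have h1 := hinv' (par h2 (0, w))
    rw [(eG' w).1, (eG (G' w)).1] at h1
    exact congrArg Prod.snd ((par h2).injective h1)
  set f : (K × Oct K) ≃ₗ[K] (K × Oct K) := LinearEquiv.ofLinearMap G G' (LinearMap.ext c2)
    (LinearMap.ext c1) with hf
  have hfO : f ∈ O9 K := fun w => (eG w).2
  refine ⟨⟨f, hfO⟩, ?_⟩
  apply Subtype.ext
  apply LinearEquiv.ext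
  intro X
  obtain ⟨⟨a, w⟩, rfl⟩ := (par h2).surjective X
  rw [hom9_apply]
  have hsplit : par h2 (a, w) = par h2 (a, 0) + par h2 (0, w) := by
    rw [← map_add]; congr 1; ext <;> simp
  have hreal : φ.1 (par h2 (a, 0)) = par h2 (a, 0) := by
    have : ((a, 0) : K × (K × Oct K)) = a • ((1 : K), (0 : K × Oct K)) := by
      ext <;> simp
    rw [this, map_smul, map_smul, par_one, aut_one h2 hφ]
  rw [hsplit, map_add, hreal, (eG w).1, ← map_add]
  congr 1
  refine Prod.ext ?_ ?_
  · simp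
  · simp only [Prod.snd_add, zero_add]; rfl

/-- `Aut(Sym⁺₂) ≅ O₉`. -/
theorem autP_two (h2 : (2 : K) ≠ 0) : Nonempty (AutP 2 K ≃* O9 K) :=
  ⟨(MulEquiv.ofBijective (hom9 h2) ⟨hom9_inj h2, hom9_surj h2⟩).symm⟩

/-- sign change of the scalar coordinate -/
def d9a : (K × Oct K) ≃ₗ[K] (K × Oct K) :=
  LinearEquiv.prodCongr (LinearEquiv.neg K) (LinearEquiv.refl K (Oct K))

/-- sign change of one octonion coordinate -/
def sgn1 (i : Fin 8) : Oct K ≃ₗ[K] Oct K where
  toFun x := fun k => if k = i then -x k else x k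
  invFun x := fun k => if k = i then -x k else x k
  map_add' x y := by
    ext k; simp only [Oct.add_apply]; split_ifs <;> ring
  map_smul' c x := by
    ext k; simp only [Oct.smul_apply, RingHom.id_apply]; split_ifs <;> ring
  left_inv x := by
    ext k; simp only; split_ifs <;> simp
  right_inv x := by
    ext k; simp only; split_ifs <;> simp

theorem sgn1_apply (i : Fin 8) (x : Oct K) (k : Fin 8) :
    sgn1 i x k = if k = i then -x k else x k := rfl

/-- sign change of one octonion coordinate -/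
def d9b (i : Fin 8) : (K × Oct K) ≃ₗ[K] (K × Oct K) :=
  LinearEquiv.prodCongr (LinearEquiv.refl K K) (sgn1 i)

theorem d9a_mem : (d9a : (K × Oct K) ≃ₗ[K] (K × Oct K)) ∈ O9 K := by
  intro w
  change (-w.1) ^ 2 + Oct.nrm w.2 = w.1 ^ 2 + Oct.nrm w.2
  ring

theorem nrm_sgn1 (i : Fin 8) (x : Oct K) : Oct.nrm (sgn1 i x) = Oct.nrm x := by
  unfold Oct.nrm
  simp only [sgn1_apply, ite_pow, neg_sq, ite_self]

theorem d9b_mem (i : Fin 8) : (d9b i : (K × Oct K) ≃ₗ[K] (K × Oct K)) ∈ O9 K := by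
  intro w
  change w.1 ^ 2 + Oct.nrm (sgn1 i w.2) = w.1 ^ 2 + Oct.nrm w.2
  rw [nrm_sgn1]

theorem center_O9 (h2 : (2 : K) ≠ 0) (z : O9 K) (hz : ∀ x, x * z = z * x) : z * z = 1 := by
  have hc : ∀ g ∈ O9 K, ∀ w, g (z.1 w) = z.1 (g w) := by
    intro g hg w
    have := congrArg (fun f : O9 K => f.1 w) (hz ⟨g, hg⟩)
    exact this
  have key : ∀ a : K, -a = a → a = 0 := by
    intro a ha
    have : 2 * a = 0 := by linear_combination -ha
    exact (mul_eq_zero.1 this).resolve_left h2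
  have sq1 : ∀ (c : K) (w : K × Oct K), q9 w ≠ 0 → z.1 w = c • w → z.1 (z.1 w) = w := by
    intro c w hw h
    have h1 := z.2 w
    change q9 (z.1 w) = q9 w at h1
    rw [h] at h1
    have h3 : q9 (c • w) = c * c * q9 w := by
      simp [q9, Oct.nrm]; ring
    rw [h3] at h1
    have h4 : c * c = 1 := by
      have : (c * c - 1) * q9 w = 0 := by linear_combination h1
      exact sub_eq_zero.1 ((mul_eq_zero.1 this).resolve_right hw)
    rw [h, map_smul, h, smul_smul, h4, one_smul]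
  -- scalar basis vector
  have e1 : z.1 (z.1 ((1 : K), (0 : Oct K))) = ((1 : K), (0 : Oct K)) := by
    apply sq1 (z.1 ((1 : K), (0 : Oct K))).1
    · simp [q9, Oct.nrm]
    · set y := z.1 ((1 : K), (0 : Oct K)) with hy
      have h1 := hc _ d9a_mem ((1 : K), (0 : Oct K))
      have h3 : (d9a ((1 : K), (0 : Oct K)) : K × Oct K) = -((1 : K), (0 : Oct K)) := by
        refine Prod.ext ?_ ?_
        · rfl
        · change (0 : Oct K) = -0
          simp
      rw [h3, map_neg, ← hy] at h1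
      have h4 : y.2 = -y.2 := congrArg Prod.snd h1
      have h5 : y.2 = 0 := by
        ext k
        exact key _ (by have := congrFun h4 k; rw [Oct.neg_apply] at this; exact this.symm)
      refine Prod.ext ?_ ?_
      · simp
      · simp [h5]
  have e2 : ∀ i : Fin 8, z.1 (z.1 ((0 : K), Oct.e i)) = ((0 : K), Oct.e i) := by
    intro i
    apply sq1 ((z.1 ((0 : K), Oct.e i)).2 i)
    · fin_cases i <;> simp [q9, Oct.nrm, Oct.e0, Oct.e1, Oct.e2, Oct.e3, Oct.e4, Oct.e5, Oct.e6,
        Oct.e7]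
    · set y := z.1 ((0 : K), Oct.e i) with hy
      have h1 := hc _ (d9b_mem i) ((0 : K), Oct.e i)
      have h3 : (d9b i ((0 : K), Oct.e i) : K × Oct K) = -((0 : K), Oct.e i) := by
        refine Prod.ext ?_ ?_
        · change (0 : K) = -0
          simp
        · ext k
          change sgn1 i (Oct.e i) k = -(Oct.e i : Oct K) k
          rw [sgn1_apply]
          split_ifs with hk
          · rfl
          · rw [Oct.e_apply_ne hk]; simp
      rw [h3, map_neg, ← hy] at h1
      have h4 : sgn1 i y.2 = -y.2 := congrArg Prod.snd h1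
      have h5 : y.1 = -y.1 := congrArg Prod.fst h1
      have h6 : y.1 = 0 := key _ h5.symm
      refine Prod.ext ?_ ?_
      · simp [h6]
      · ext k
        rcases eq_or_ne k i with rfl | hk
        · simp [Oct.e_apply_self]
        · have := congrFun h4 k
          rw [sgn1_apply, if_neg hk, Oct.neg_apply] at this
          have h7 : y.2 k = 0 := key _ this.symm
          simp [h7, Oct.e_apply_ne hk]
  apply Subtype.ext
  apply LinearEquiv.ext
  intro w
  change z.1 (z.1 w) = w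
  have hw : w = w.1 • ((1 : K), (0 : Oct K)) + ∑ i, w.2 i • ((0 : K), Oct.e i) := by
    refine Prod.ext ?_ ?_
    · simp [Prod.fst_sum]
    · rw [Prod.snd_add, Prod.snd_sum]
      simp only [Prod.smul_snd, smul_zero, zero_add]
      exact Oct.eq_sum _
  conv_lhs => rw [hw]
  conv_rhs => rw [hw]
  simp only [map_add, map_sum, map_smul, e1, e2]

theorem no_iso_P2 (h2 : (2 : K) ≠ 0) : IsEmpty (AutP 2 K ≃* G2 K × SO 2 K) := by
  obtain ⟨e⟩ := autP_two (K := K) h2
  have := no_iso_two h2 (G := O9 K) (center_O9 h2)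
  exact ⟨fun e' => this.elim (e.symm.trans e')⟩

end K3h69.OM
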